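import Pool.Agent.MP_8311ed_lc.Prob

/-!
# Averages: union bound, Markov, independence, negligible functions
-/

set_option autoImplicit false

namespace Pool.Agent.MP_8311ed_lc

/-- The union bound over the strings of length `m`. -/
theorem Pr_exists_le (n m : ℕ) (E : Str → Str → Prop) (δ : ℝ)
    (h : ∀ s : Str, s.length = m → Pr n (E s) ≤ δ) :
    Pr n (fun r => ∃ s : Str, s.length = m ∧ E s r) ≤ 2 ^ m * δ := by
  classical
  have h1 : Pr n (fun r => ∃ s : Str, s.length = m ∧ E s r) ≤
      avg n (fun r => ∑ s : Fin m → Bool, if E (List.ofFn s) r then (1 : ℝ) else 0) := by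
    unfold Pr
    refine avg_mono fun r _ => ?_
    have h0 : ∀ s : Fin m → Bool, (0 : ℝ) ≤ if E (List.ofFn s) r then (1 : ℝ) else 0 := by
      intro s
      split_ifs <;> norm_num
    split_ifs with hr
    · obtain ⟨s, hs, hE⟩ := hr
      obtain ⟨u, hu⟩ : ∃ u : Fin m → Bool, List.ofFn u = s := by
        subst hs
        exact ⟨s.get, List.ofFn_get s⟩
      have h2 := Finset.single_le_sum (f := fun s : Fin m → Bool =>
        if E (List.ofFn s) r then (1 : ℝ) else 0) (fun s _ => h0 s) (Finset.mem_univ u)
      simp only [hu, if_pos hE] at h2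
      exact h2
    · exact Finset.sum_nonneg fun s _ => h0 s
  refine h1.trans ?_
  rw [avg_sum n Finset.univ (fun (s : Fin m → Bool) r =>
    if E (List.ofFn s) r then (1 : ℝ) else 0)]
  have h3 : ∀ s : Fin m → Bool, avg n (fun r => if E (List.ofFn s) r then (1 : ℝ) else 0) ≤ δ :=
    fun s => h _ (List.length_ofFn)
  refine (Finset.sum_le_sum fun s _ => h3 s).trans ?_
  rw [Finset.sum_const, Finset.card_univ, Fintype.card_fun, Fintype.card_bool, Fintype.card_fin,
    nsmul_eq_mul]
  push_cast
  exact le_rfl

/-- Markov's inequality. -/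
theorem Pr_markov {n : ℕ} {f : Str → ℝ} (hf : ∀ r, 0 ≤ f r) {c : ℝ} (hc : 0 < c) :
    Pr n (fun r => c ≤ f r) ≤ avg n f / c := by
  classical
  rw [le_div_iff₀ hc, mul_comm]
  unfold Pr
  rw [← avg_mul_left]
  refine avg_mono fun r _ => ?_
  split_ifs with h
  · simpa using h
  · simpa using hf r

theorem block_length {k i c : ℕ} {r : Str} (h : r.length = k * c) (hi : i < k) :
    (block c i r).length = c := by
  unfold block
  rw [List.length_take, List.length_drop, h]
  have h1 : (i + 1) * c ≤ k * c := Nat.mul_le_mul_right c hi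
  have h2 : (i + 1) * c = i * c + c := by ring
  omega

/-- blocks of a string which do not see the appended last block -/
theorem block_append_left {k i c : ℕ} {r r' : Str} (h : r.length = k * c) (hi : i < k) :
    block c i (r ++ r') = block c i r := by
  unfold block
  have h1 : (i + 1) * c ≤ k * c := Nat.mul_le_mul_right c hi
  have h2 : (i + 1) * c = i * c + c := by ring
  rw [List.drop_append_of_le_length (by omega), List.take_append_of_le_length]
  rw [List.length_drop]
  omega

theorem block_append_right {k c : ℕ} {r r' : Str} (h : r.length = k * c) (h' : r'.length = c) :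
    block c k (r ++ r') = r' := by
  unfold block
  rw [← h, List.drop_left, List.take_of_length_le h'.le]

/-- Independence of blocks. -/
theorem avg_prod_block (k c : ℕ) (f : ℕ → Str → ℝ) :
    avg (k * c) (fun r => ∏ i ∈ Finset.range k, f i (block c i r)) =
      ∏ i ∈ Finset.range k, avg c (f i) := by
  induction k with
  | zero => simp [avg_const]
  | succ k ih =>
    have h1 : (k + 1) * c = k * c + c := by ring
    rw [h1, avg_split, Finset.prod_range_succ, ← ih]
    have h2 : avg (k * c) (fun r => avg c fun r' =>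
        ∏ i ∈ Finset.range (k + 1), f i (block c i (r ++ r'))) =
        avg (k * c) (fun r => avg c (f k) * ∏ i ∈ Finset.range k, f i (block c i r)) := by
      refine avg_congr fun r hr => ?_
      have h3 : avg c (fun r' => ∏ i ∈ Finset.range (k + 1), f i (block c i (r ++ r'))) =
          avg c (fun r' => (∏ i ∈ Finset.range k, f i (block c i r)) * f k r') := by
        refine avg_congr fun r' hr' => ?_
        rw [Finset.prod_range_succ, block_append_right hr hr']
        congr 1
        refine Finset.prod_congr rfl fun i hi => ?_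
        rw [block_append_left hr (Finset.mem_range.1 hi)]
      rw [h3, avg_mul_left, mul_comm]
    rw [h2, avg_mul_left, mul_comm]

theorem avg_sum_block (k c : ℕ) (f : ℕ → Str → ℝ) :
    avg (k * c) (fun r => ∑ i ∈ Finset.range k, f i (block c i r)) =
      ∑ i ∈ Finset.range k, avg c (f i) := by
  induction k with
  | zero => simp [avg_const]
  | succ k ih =>
    have h1 : (k + 1) * c = k * c + c := by ring
    rw [h1, avg_split, Finset.sum_range_succ, ← ih]
    have h2 : avg (k * c) (fun r => avg c fun r' =>
        ∑ i ∈ Finset.range (k + 1), f i (block c i (r ++ r'))) =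
        avg (k * c) (fun r => (∑ i ∈ Finset.range k, f i (block c i r)) + avg c (f k)) := by
      refine avg_congr fun r hr => ?_
      have h3 : avg c (fun r' => ∑ i ∈ Finset.range (k + 1), f i (block c i (r ++ r'))) =
          avg c (fun r' => (∑ i ∈ Finset.range k, f i (block c i r)) + f k r') := by
        refine avg_congr fun r' hr' => ?_
        rw [Finset.sum_range_succ, block_append_right hr hr']
        congr 1
        refine Finset.sum_congr rfl fun i hi => ?_
        rw [block_append_left hr (Finset.mem_range.1 hi)]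
      rw [h3, avg_add, avg_const]
    rw [h2, avg_add, avg_const]

/-- negligible functions -/
theorem Negl.add {μ ν : ℕ → ℝ} (h : Negl μ) (h' : Negl ν) : Negl fun n => μ n + ν n := by
  intro k
  obtain ⟨N₁, h₁⟩ := h (k + 1)
  obtain ⟨N₂, h₂⟩ := h' (k + 1)
  refine ⟨max (max N₁ N₂) 2, fun n hn => ?_⟩
  have hn1 : N₁ ≤ n := le_trans (le_trans (le_max_left _ _) (le_max_left _ _)) hn
  have hn2 : N₂ ≤ n := le_trans (le_trans (le_max_right _ _) (le_max_left _ _)) hn
  have hn3 : 2 ≤ n := le_trans (le_max_right _ _) hn
  have h3 : (2 : ℝ) ≤ n := by exact_mod_cast hn3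
  have h4 : (0 : ℝ) < (n : ℝ) ^ k := by positivity
  have h5 : 1 / (n : ℝ) ^ (k + 1) ≤ 1 / (n : ℝ) ^ k / 2 := by
    rw [div_div]
    apply one_div_le_one_div_of_le (by positivity)
    rw [pow_succ]
    exact mul_le_mul_of_nonneg_left h3 h4.le
  have h6 := h₁ n hn1
  have h7 := h₂ n hn2
  linarith

theorem Negl.eventually {μ : ℕ → ℝ} (h : Negl μ) {ε : ℝ} (hε : 0 < ε) :
    ∃ N : ℕ, ∀ n ≥ N, μ n ≤ ε := by
  obtain ⟨N, hN⟩ := h 1
  obtain ⟨M, hM⟩ := exists_nat_gt (1 / ε)
  refine ⟨max N M, fun n hn => ?_⟩
  have h1 := hN n (le_trans (le_max_left _ _) hn)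
  have h2 : (M : ℝ) ≤ n := by exact_mod_cast le_trans (le_max_right _ _) hn
  have h3 : 1 / ε < n := lt_of_lt_of_le hM h2
  have h4 : 0 < 1 / ε := by positivity
  refine h1.trans ?_
  rw [pow_one]
  rw [div_le_iff₀ (lt_trans h4 h3)]
  rw [div_lt_iff₀ hε] at h3
  linarith

end Pool.Agent.MP_8311ed_lc
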