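import Pool.Agent.MP_8311ed_lc.Bridge
import Pool.Agent.MP_8311ed_lc.Prob2

/-!
# Amplification
-/

set_option autoImplicit false

namespace Pool.Agent.MP_8311ed_lc

open Pool.Agent.Lib.helper60

/-- Acceptance of one run. -/
def accR (D : List Str → Str) (x r : Str) : Bool := decide (D [x, r] = [true])

/-- The disjunction of 66 conjunctions of 8 runs. -/
def ampB (D : List Str → Str) (c : ℕ) (x r : Str) : Bool :=
  (List.range 66).any fun i => (List.range 8).all fun j =>
    accR D x (block c j (block (8 * c) i r))

/-- The amplified machine: a finite table for the short inputs. -/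
def ampD (D : List Str → Str) (c : Polynomial ℕ) (N : ℕ) (T : List Str) (l : List Str) : Str :=
  [bif decide ((l.getD 0 []).length < N) then T.any fun t => decide (l.getD 0 [] = t)
    else ampB D (c.eval (l.getD 0 []).length) (l.getD 0 []) (l.getD 1 [])]

lemma PT_blockA {α : Type} [DEnc α] {k i : α → ℕ} {r : α → Str} (hk : PT k) (hi : PT i)
    (hr : PT r) : PT (fun a => block (k a) (i a) (r a)) := by
  unfold block
  exact PT_take hk (PT.drop (PT.nmul hi hk) hr)

lemma PT_accR {D : List Str → Str} (hD : PT D) {α : Type} [DEnc α] {x r : α → Str} (hx : PT x)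
    (hr : PT r) : PT (fun a => accR D (x a) (r a)) := by
  unfold accR
  exact PT_streq (hD.comp (PT.cons hx (PT.cons hr (PT.const [])))) (PT.const [true])

lemma PT_ampB {D : List Str → Str} (hD : PT D) {α : Type} [DEnc α] {c : α → ℕ} {x r : α → Str}
    (hc : PT c) (hx : PT x) (hr : PT r) : PT (fun a => ampB D (c a) (x a) (r a)) := by
  unfold ampB
  refine PT.any (PT.const (List.range 66)) (p := fun z : α × ℕ => (List.range 8).all fun j =>
    accR D (x z.1) (block (c z.1) j (block (8 * c z.1) z.2 (r z.1)))) ?_
  refine PT.all (PT.const (List.range 8)) (p := fun z : (α × ℕ) × ℕ =>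
    accR D (x z.1.1) (block (c z.1.1) z.2 (block (8 * c z.1.1) z.1.2 (r z.1.1)))) ?_
  have ha : PT (fun z : (α × ℕ) × ℕ => z.1.1) := PT.fst.p1
  refine PT_accR hD (hx.comp ha) (PT_blockA (hc.comp ha) PT.snd
    (PT_blockA (PT.nmul (PT.const 8) (hc.comp ha)) PT.fst.p2 (hr.comp ha)))

lemma PT_ampD {D : List Str → Str} (hD : PT D) (c : Polynomial ℕ) (N : ℕ) (T : List Str) :
    PT (ampD D c N T) := by
  unfold ampD
  have hx : PT (fun l : List Str => l.getD 0 []) := PT.getD PT.id (PT.const 0) (PT.const [])
  have hr : PT (fun l : List Str => l.getD 1 []) := PT.getD PT.id (PT.const 1) (PT.const [])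
  refine PT.cons (PT.cond (PT.nlt (PT.length hx) (PT.const N)) ?_ ?_) (PT.const [])
  · exact PT.any (PT.const T) (p := fun z : List Str × Str => decide (z.1.getD 0 [] = z.2))
      (PT_streq (hx.comp PT.fst) PT.snd)
  · exact PT_ampB hD (Pool.Agent.MP_92db0f_lc.PT_peval c (PT.length hx)) hx hr

open Classical in
lemma ampB_ind (D : List Str → Str) (c : ℕ) (x r : Str) :
    (if ampB D c x r = true then (1 : ℝ) else 0) =
      1 - ∏ i ∈ Finset.range 66, (fun s : Str => 1 - ∏ j ∈ Finset.range 8,
        (fun t : Str => if D [x, t] = [true] then (1 : ℝ) else 0) (block c j s))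
          (block (8 * c) i r) := by
  have hall : ∀ s : Str, (∏ j ∈ Finset.range 8,
      (fun t : Str => if D [x, t] = [true] then (1 : ℝ) else 0) (block c j s)) =
      if ((List.range 8).all fun j => accR D x (block c j s)) = true then 1 else 0 := by
    intro s
    split_ifs with h
    · rw [List.all_eq_true] at h
      refine Finset.prod_eq_one fun j hj => ?_
      have := h j (List.mem_range.2 (Finset.mem_range.1 hj))
      unfold accR at this
      rw [decide_eq_true_eq] at this
      simp only [this, if_true]
    · have h' : ∃ j ∈ List.range 8, ¬ (accR D x (block c j s) = true) := by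
        by_contra hc
        exact h (List.all_eq_true.2 fun j hj => by
          by_contra hj'
          exact hc ⟨j, hj, hj'⟩)
      obtain ⟨j, hj, hj'⟩ := h'
      refine Finset.prod_eq_zero (Finset.mem_range.2 (List.mem_range.1 hj)) ?_
      unfold accR at hj'
      rw [decide_eq_true_eq] at hj'
      simp only [if_neg hj']
  simp only [hall]
  split_ifs with h
  · unfold ampB at h
    rw [List.any_eq_true] at h
    obtain ⟨i, hi, h⟩ := h
    rw [Finset.prod_eq_zero (Finset.mem_range.2 (List.mem_range.1 hi))]
    · ring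
    · rw [if_pos h]
      ring
  · rw [Finset.prod_eq_one]
    · ring
    · intro i hi
      rw [if_neg]
      · ring
      · intro h'
        apply h
        unfold ampB
        exact List.any_eq_true.2 ⟨i, List.mem_range.2 (Finset.mem_range.1 hi), h'⟩

lemma Pr_ampB (D : List Str → Str) (c : ℕ) (x : Str) :
    Pr (66 * (8 * c)) (fun r => ampB D c x r = true) =
      1 - (1 - (Pr c fun r => D [x, r] = [true]) ^ 8) ^ 66 := by
  classical
  have h : ∀ s : ℕ → Str → ℝ, s = (fun _ s => 1 - ∏ j ∈ Finset.range 8,
        (fun t : Str => if D [x, t] = [true] then (1 : ℝ) else 0) (block c j s)) →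
      avg (66 * (8 * c)) (fun r => 1 - ∏ i ∈ Finset.range 66, s i (block (8 * c) i r)) =
      1 - (1 - (Pr c fun r => D [x, r] = [true]) ^ 8) ^ 66 := by
    intro s hs
    rw [avg_sub, avg_const, avg_prod_block, hs]
    congr 1
    rw [Finset.prod_const, Finset.card_range]
    congr 1
    rw [avg_sub, avg_const]
    congr 1
    rw [avg_prod_block 8 c (fun _ t => if D [x, t] = [true] then (1 : ℝ) else 0),
      Finset.prod_const, Finset.card_range]
    unfold Pr
    congr!
  rw [← h _ rfl]
  unfold Pr
  refine avg_congr fun r _ => ?_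
  rw [← ampB_ind D c x r]
  congr!

/-- A constant gap on all but finitely many inputs suffices for membership in BPP. -/
theorem inBPP_of_gap {L : Set Str} {D : List Str → Str} (hD : PolyTime D) (c : Polynomial ℕ)
    (N : ℕ)
    (h1 : ∀ x : Str, N ≤ x.length → x ∈ L →
      3 / 5 ≤ Pr (c.eval x.length) fun r => D [x, r] = [true])
    (h2 : ∀ x : Str, N ≤ x.length → x ∉ L →
      Pr (c.eval x.length) (fun r => D [x, r] = [true]) ≤ 51 / 100) : InBPP L := by
  obtain ⟨T, hT⟩ : ∃ T : List Str, ∀ x, x ∈ T ↔ x.length < N ∧ x ∈ L := by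
    have hf : Set.Finite {x : Str | x.length < N ∧ x ∈ L} :=
      (List.finite_length_lt Bool N).subset fun x hx => hx.1
    exact ⟨hf.toFinset.toList, fun x => by simp⟩
  refine ⟨ampD D c N T, 66 * (8 * c), PolyTime.of_pt (PT_ampD hD.pt c N T), fun x => ?_⟩
  have hq : (66 * (8 * c) : Polynomial ℕ).eval x.length = 66 * (8 * c.eval x.length) := by
    simp
  rw [hq]
  by_cases hx : x.length < N
  · have hd : ∀ r : Str, (ampD D c N T [x, r] = [true] ↔ x ∈ L) := by
      intro r
      have e : ampD D c N T [x, r] = [T.any fun t => decide (x = t)] := by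
        simp [ampD, hx]
      rw [e]
      simp [hT, hx]
    constructor
    · intro h
      have : Pr (66 * (8 * c.eval x.length)) (fun r => ampD D c N T [x, r] = [true]) = 1 := by
        unfold Pr
        refine (avg_congr (g := fun _ => 1) (fun r _ => ?_)).trans (avg_const _ _)
        exact if_pos ((hd r).2 h)
      rw [this]
      norm_num
    · intro h
      have : Pr (66 * (8 * c.eval x.length)) (fun r => ampD D c N T [x, r] = [true]) = 0 := by
        unfold Pr
        refine (avg_congr (g := fun _ => 0) (fun r _ => ?_)).trans (avg_const _ _)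
        exact if_neg fun h' => h ((hd r).1 h')
      rw [this]
      norm_num
  · have hd : ∀ r : Str, (ampD D c N T [x, r] = [true] ↔
        ampB D (c.eval x.length) x r = true) := by
      intro r
      have e : ampD D c N T [x, r] = [ampB D (c.eval x.length) x r] := by
        simp [ampD, hx]
      rw [e]
      simp
    rw [Pr_congr (E' := fun r => ampB D (c.eval x.length) x r = true) (fun r _ => hd r), Pr_ampB]
    have hN : N ≤ x.length := by omega
    have hp0 := Pr_nonneg (c.eval x.length) (fun r => D [x, r] = [true])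
    have hp1 := Pr_le_one (c.eval x.length) (fun r => D [x, r] = [true])
    constructor
    · intro h
      have h3 := h1 x hN h
      set p := Pr (c.eval x.length) (fun r => D [x, r] = [true]) with hp
      have h4 : (3 / 5 : ℝ) ^ 8 ≤ p ^ 8 := pow_le_pow_left₀ (by norm_num) h3 8
      have h5 : p ^ 8 ≤ 1 := pow_le_one₀ hp0 hp1
      have h6 : (1 - p ^ 8) ^ 66 ≤ (1 - (3 / 5 : ℝ) ^ 8) ^ 66 :=
        pow_le_pow_left₀ (by linarith) (by linarith) 66
      have h7 : (1 - (3 / 5 : ℝ) ^ 8) ^ 66 ≤ 1 / 3 := by norm_num
      linarith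
    · intro h
      have h3 := h2 x hN h
      set p := Pr (c.eval x.length) (fun r => D [x, r] = [true]) with hp
      have h4 : p ^ 8 ≤ (51 / 100 : ℝ) ^ 8 := pow_le_pow_left₀ hp0 h3 8
      have h5 : (0 : ℝ) ≤ p ^ 8 := by positivity
      have h5' : p ^ 8 ≤ 1 := pow_le_one₀ hp0 hp1
      have h6 := one_add_mul_le_pow (a := - p ^ 8) (by linarith) 66
      have h7 : (51 / 100 : ℝ) ^ 8 ≤ 1 / 200 := by norm_num
      have h8 : (1 + -p ^ 8) ^ 66 = (1 - p ^ 8) ^ 66 := by ring
      rw [h8] at h6
      push_cast at h6
      nlinarith [h6, h7, h4]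

end Pool.Agent.MP_8311ed_lc
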