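import Pool.Agent.MP_8311ed_lc.Gates
import Pool.Agent.Lib.helper60.PTLib

/-!
# Gates: polynomial time, codes
-/

set_option autoImplicit false

namespace Pool.Agent.MP_8311ed_lc

open Pool.Agent.Lib.helper60

variable {V : Type}

theorem PT_gates {α : Type} [DEnc α] (pos : α → V → ℕ)
    (hpos : ∀ v, PT (fun a => pos a v)) (e : Ex V) :
    ∀ k : α → ℕ, PT k → PT (fun a => e.gates (pos a) (k a)) := by
  induction e with
  | var v =>
    intro k hk
    exact PT.cons (PT.pair (PT.nadd (hpos v) hk) (PT.nadd (hpos v) hk)) (PT.const [(0, 0)])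
  | cst b =>
    intro k hk
    exact PT.const (if b then [(0, 0), (0, 0), (1, 0)] else [(0, 0), (1, 0), (0, 0)])
  | nand a b iha ihb =>
    intro k hk
    exact PT.append (iha k hk)
      (PT.append (ihb (fun x => k x + a.size) (PT.nadd hk (PT.const _))) (PT.const [(b.size, 0)]))

theorem PT_slot {α : Type} [DEnc α] (σ : ℕ) (pos : α → V → ℕ)
    (hpos : ∀ v, PT (fun a => pos a v)) (e : Ex V) (k : α → ℕ) (hk : PT k) :
    PT (fun a => slot σ (pos a) e (k a)) :=
  PT.append (PT.const (List.replicate (σ - e.size) (0, 0)))
    (PT_gates pos hpos e (fun a => k a + (σ - e.size)) (PT.nadd hk (PT.const _)))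

theorem PT_blk_aux {α : Type} [DEnc α] (σ : ℕ) (pos : α → V → ℕ)
    (hpos : ∀ v, PT (fun a => pos a v)) (F : ℕ → Ex V) (r : ℕ) :
    ∀ k : α → ℕ, PT k → PT (fun a => blk σ (pos a) F r (k a)) := by
  induction r with
  | zero =>
    intro k hk
    exact PT.const []
  | succ r ih =>
    intro k hk
    exact PT.append (PT_slot σ pos hpos (F r) k hk)
      (ih (fun a => k a + σ) (PT.nadd hk (PT.const _)))

/-- The block is computed in polynomial time from the positions of the variables. -/
theorem PT_blk {α : Type} [DEnc α] (σ : ℕ) (pos : α → V → ℕ)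
    (hpos : ∀ v, PT (fun a => pos a v)) (F : ℕ → Ex V) (r : ℕ) :
    PT (fun a => blk σ (pos a) F r 0) :=
  PT_blk_aux σ pos hpos F r (fun _ => 0) (PT.const 0)

/-- Gates as strings. -/
def gcode (gs : List (ℕ × ℕ)) : Str :=
  gs.flatMap fun g => unary g.1 ++ (false :: (unary g.2 ++ [false]))

theorem PT_gcode : PT gcode := by
  have h := PT.flatMap (ι := List (ℕ × ℕ)) (β := ℕ × ℕ) (γ := Bool) (l := fun gs => gs)
    (g := fun y => unary y.2.1 ++ (false :: (unary y.2.2 ++ [false]))) PT.id
    (PT.append (PT.replicate (PT.p1 PT.snd) (PT.const true))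
      (PT.cons (PT.const false)
        (PT.append (PT.replicate (PT.p2 PT.snd) (PT.const true)) (PT.const [false]))))
  exact h.congr fun gs => rfl

theorem unary_false_inj {m n : ℕ} {s t : Str}
    (h : unary m ++ false :: s = unary n ++ false :: t) : m = n ∧ s = t := by
  induction m generalizing n with
  | zero =>
    cases n with
    | zero => simpa [unary] using h
    | succ n => simp [unary, List.replicate_succ] at h
  | succ m ih =>
    cases n with
    | zero => simp [unary, List.replicate_succ] at h
    | succ n =>
      have h' : unary m ++ false :: s = unary n ++ false :: t := by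
        simpa [unary, List.replicate_succ] using h
      obtain ⟨h1, h2⟩ := ih h'
      exact ⟨by rw [h1], h2⟩

theorem gcode_cons (g : ℕ × ℕ) (gs : List (ℕ × ℕ)) :
    gcode (g :: gs) = unary g.1 ++ false :: (unary g.2 ++ false :: gcode gs) := by
  simp [gcode]

theorem gcode_injective : Function.Injective gcode := by
  intro gs
  induction gs with
  | nil =>
    intro gs' h
    cases gs' with
    | nil => rfl
    | cons g' gs' =>
      rw [gcode_cons] at h
      have := congrArg List.length h
      simp [gcode] at this
  | cons g gs ih =>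
    intro gs' h
    cases gs' with
    | nil =>
      rw [gcode_cons] at h
      have := congrArg List.length h
      simp [gcode] at this
    | cons g' gs' =>
      rw [gcode_cons, gcode_cons] at h
      obtain ⟨h1, h2⟩ := unary_false_inj h
      obtain ⟨h3, h4⟩ := unary_false_inj h2
      have h5 := ih h4
      rw [h5, show g = g' from Prod.ext h1 h3]

theorem Circuit.code_injective : Function.Injective Circuit.code := by
  intro C C' h
  have h' : unary C.outs ++ false :: gcode C.gates = unary C'.outs ++ false :: gcode C'.gates := h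
  obtain ⟨h1, h2⟩ := unary_false_inj h'
  have h3 := gcode_injective h2
  cases C
  cases C'
  simp only at h1 h3
  rw [h1, h3]

end Pool.Agent.MP_8311ed_lc
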