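import Pool.Agent.MP_8311ed_lc.Rel
import Pool.Agent.MP_8311ed_lc.GatesPT
import Pool.Agent.MP_8311ed_lc.Prob2

/-!
# The one-bit attack
-/

set_option autoImplicit false

namespace Pool.Agent.MP_8311ed_lc

open Pool.Agent.Lib.helper60 Pool.Agent.MP_92db0f_lc

theorem PT_unary : PT unary := by
  unfold unary
  exact PT.replicate PT.id (PT.const true)

/-- The adversary that submits its auxiliary input as a circuit and outputs the answer. -/
noncomputable def att : Adversary where
  steps := 1
  coins := 0
  act := fun l => true :: l.getD 1 []
  out := fun l => l.getD 3 []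
  act_poly := PolyTime.of_pt (PT.cons (PT.const true) (PT.getD PT.id (PT.const 1) (PT.const [])))
  out_poly := PolyTime.of_pt (PT.getD PT.id (PT.const 3) (PT.const []))

theorem attackOutput_att (S : Protocol) {p : Polynomial ℕ} (hp : ∀ n, 1 ≤ p.eval n) (x s rP rA : Str)
    (C : Circuit) (hC : C.outs = 1) : attackOutput S att p x C.code s rP rA = C.eval s := by
  have hex : ∃ C' : Circuit, C'.code = C.code ∧ 0 + C'.outs ≤ p.eval x.length :=
    ⟨C, rfl, by rw [hC]; simpa using hp x.length⟩
  have hch : hex.choose = C := Circuit.code_injective hex.choose_spec.1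
  have hstep : attackStep S att p x C.code rP rA
      { state := s, round := 0, leaked := 0, view := [] } =
      { state := s, round := 0, leaked := 0 + C.outs, view := [C.eval s] } := by
    unfold attackStep
    simp only [att, List.getD_cons_succ, List.getD_cons_zero]
    rw [dif_pos hex, hch]
    simp
  unfold attackOutput
  have h1 : att.steps.eval x.length = 1 := by simp [att]
  rw [h1, Function.iterate_one, hstep]
  simp [att]

/-- the distinguisher that repeats the output -/
theorem PolyTime_third : PolyTime (fun l : List Str => l.getD 2 []) :=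
  PolyTime.of_pt (PT.getD PT.id (PT.const 2) (PT.const []))

theorem avg_Pr_const (n k : ℕ) (E : Str → Prop) :
    (avg n fun r => Pr k fun _ => E r) = Pr n E := by
  unfold Pr
  simp only [avg_const]

theorem realProb_att (S : Protocol) {p : Polynomial ℕ} (hp : ∀ n, 1 ≤ p.eval n) (x w : Str)
    (C : Circuit) (hC : C.outs = 1) :
    realProb S att p (fun l => l.getD 2 []) 0 x w C.code =
      Pr (S.encCoins.eval x.length) fun r => C.eval (S.init x w r) = [true] := by
  unfold realProb
  simp only [attackOutput_att S hp _ _ _ _ C hC, List.getD_cons_succ, List.getD_cons_zero,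
    avg_const]
  exact avg_Pr_const _ _ _

theorem simProb_att (Sim : List Str → Str) (cS : Polynomial ℕ) (x z : Str) :
    simProb Sim cS (fun l => l.getD 2 []) 0 x z =
      Pr (cS.eval (x.length + z.length)) fun rS => Sim [x, z, rS] = [true] := by
  unfold simProb
  simp only [List.getD_cons_succ, List.getD_cons_zero]
  exact avg_Pr_const _ _ _

end Pool.Agent.MP_8311ed_lc
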