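import Pool.Agent.MP_8311ed_lc.Gates

/-!
# Circuits of linear cellular arrays
-/

set_option autoImplicit false

namespace Pool.Agent.MP_8311ed_lc

/-- Positions of the variables of a cell in an array of width `W`, with `r` bits per cell and `σ`
gates per bit: `(0, i)` is bit `i` of the same cell in the previous layer, `(1, i)` that of its
right neighbour, `(2, i)` that of its left neighbour, and `(3, i)` that of the left neighbour in
the same layer. -/
def apos (r σ W : ℕ) (v : Fin 4 × Fin r) : ℕ :=
  (match v.1 with
    | 0 => W - 1
    | 1 => W - 2
    | 2 => W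
    | 3 => 0) * (r * σ) + σ * v.2.val

/-- The gates of `T` layers of `W` cells. -/
def agates (r σ W T : ℕ) (F : ℕ → Ex (Fin 4 × Fin r)) : List (ℕ × ℕ) :=
  (List.replicate (T * W) (blk σ (apos r σ W) F r 0)).flatten

theorem agates_length (r σ W T : ℕ) (F : ℕ → Ex (Fin 4 × Fin r))
    (hF : ∀ i < r, (F i).size ≤ σ) : (agates r σ W T F).length = T * W * (r * σ) := by
  rw [agates, List.length_flatten, List.map_replicate, List.sum_replicate,
    blk_length σ (apos r σ W) F r 0 hF, smul_eq_mul]

/-- One more block. -/
private theorem runG_replicate_succ (b : List (ℕ × ℕ)) (ws : Str) (m : ℕ) :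
    runG (List.replicate (m + 1) b).flatten ws = runG b (runG (List.replicate m b).flatten ws) := by
  rw [List.replicate_succ', List.flatten_append, runG_append]
  simp

/-- The wires of the old blocks are kept. -/
private theorem runG_replicate_shift (b : List (ℕ × ℕ)) (ws : Str) (L : ℕ) (hb : b.length = L)
    (m k i : ℕ) :
    (runG (List.replicate (m + k) b).flatten ws).getD (k * L + i) false =
      (runG (List.replicate m b).flatten ws).getD i false := by
  induction k with
  | zero => simp
  | succ k ih =>
    rw [← Nat.add_assoc, runG_replicate_succ, ← ih,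
      ← runG_getD_add b (runG (List.replicate (m + k) b).flatten ws) (k * L + i), hb]
    congr 1
    ring

/-- The array computes the cells `cell t j` (layer `t`, column `j`) as long as they are not
influenced by the right border. -/
theorem agates_correct (r σ W T : ℕ) (F : ℕ → Ex (Fin 4 × Fin r))
    (hF : ∀ i < r, (F i).size ≤ σ) (hT : T < W) (ws : Str) (cell : ℕ → ℕ → ℕ → Bool)
    (h0 : ∀ j < W, ∀ i < r, ws.getD ((W - 1 - j) * (r * σ) + σ * i) false = cell 0 j i)
    (hz : ∀ t < T, ∀ env : Fin 4 × Fin r → Bool,
      (∀ i : Fin r, env (0, i) = cell t 0 i) → (∀ i : Fin r, env (1, i) = cell t 1 i) →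
        ∀ i < r, (F i).eval env = cell (t + 1) 0 i)
    (hs : ∀ t < T, ∀ j, j + 1 < W → ∀ env : Fin 4 × Fin r → Bool,
      (∀ i : Fin r, env (0, i) = cell t (j + 1) i) →
      (∀ i : Fin r, env (1, i) = cell t (j + 2) i) →
      (∀ i : Fin r, env (2, i) = cell t j i) →
      (∀ i : Fin r, env (3, i) = cell (t + 1) j i) →
        ∀ i < r, (F i).eval env = cell (t + 1) (j + 1) i) :
    ∀ j, j + T < W → ∀ i < r,
      (runG (agates r σ W T F) ws).getD ((W - 1 - j) * (r * σ) + σ * i) false = cell T j i := by
  have hb : (blk σ (apos r σ W) F r 0).length = r * σ := blk_length σ (apos r σ W) F r 0 hF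
  set b : List (ℕ × ℕ) := blk σ (apos r σ W) F r 0 with hbdef
  set L : ℕ := r * σ with hL
  set w : ℕ → Str := fun m => runG (List.replicate m b).flatten ws with hw
  have hwz : w 0 = ws := by simp [hw, runG]
  have hshift : ∀ m k i : ℕ, (w (m + k)).getD (k * L + i) false = (w m).getD i false :=
    fun m k i => runG_replicate_shift b ws L hb m k i
  have hstep : ∀ m i : ℕ, i < r → (w (m + 1)).getD (σ * i) false =
      (F i).eval (fun v => (w m).getD (apos r σ W v) false) := by
    intro m i hi
    have h1 : w (m + 1) = runG b (w m) := runG_replicate_succ b ws m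
    rw [h1, hbdef]
    exact blk_correct σ (apos r σ W) F r hF (w m) i hi
  -- the value of a block, just emitted, gives its value later
  have hlater : ∀ t j : ℕ, (∀ i < r, (w (t * W + j + 1)).getD (σ * i) false = cell (t + 1) j i) →
      ∀ m, (t + 1) * W + j + 1 ≤ m + W → ∀ i < r,
        (w m).getD ((W + m - 1 - ((t + 1) * W + j)) * L + σ * i) false = cell (t + 1) j i := by
    intro t j h m hm i hi
    have hm' : t * W + j + 1 ≤ m := by
      have : (t + 1) * W = t * W + W := by ring
      omega
    obtain ⟨k, rfl⟩ := Nat.exists_eq_add_of_le hm'
    have hk : W + (t * W + j + 1 + k) - 1 - ((t + 1) * W + j) = k := by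
      have : (t + 1) * W = t * W + W := by ring
      omega
    rw [hk, hshift]
    exact h i hi
  have main : ∀ t, t ≤ T → ∀ j, j + t < W → ∀ m, t * W + j + 1 ≤ m + W → ∀ i < r,
      (w m).getD ((W + m - 1 - (t * W + j)) * L + σ * i) false = cell t j i := by
    intro t
    induction t with
    | zero =>
      intro _ j hj m hm i hi
      have h := hshift 0 m ((W - 1 - j) * L + σ * i)
      rw [hwz, h0 j (by omega) i hi] at h
      rw [← h, Nat.zero_add]
      congr 1
      have h2 : W + m - 1 - (0 * W + j) = m + (W - 1 - j) := by omega
      rw [h2]
      ring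
    | succ t iht =>
      intro htT j
      have iht := iht (by omega)
      induction j with
      | zero =>
        intro hj
        refine hlater t 0 ?_
        intro i hi
        rw [hstep _ i hi]
        refine hz t (by omega) _ ?_ ?_ i hi
        · intro i'
          have h := iht 0 (by omega) (t * W + 0) (by omega) i'.val i'.isLt
          have h2 : W + (t * W + 0) - 1 - (t * W + 0) = W - 1 := by omega
          rw [h2] at h
          exact h
        · intro i'
          have h := iht 1 (by omega) (t * W + 0) (by omega) i'.val i'.isLt
          have h2 : W + (t * W + 0) - 1 - (t * W + 1) = W - 2 := by omega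
          rw [h2] at h
          exact h
      | succ j ihj =>
        intro hj
        have ihj := ihj (by omega)
        refine hlater t (j + 1) ?_
        intro i hi
        rw [hstep _ i hi]
        refine hs t (by omega) j (by omega) _ ?_ ?_ ?_ ?_ i hi
        · intro i'
          have h := iht (j + 1) (by omega) (t * W + (j + 1)) (by omega) i'.val i'.isLt
          have h2 : W + (t * W + (j + 1)) - 1 - (t * W + (j + 1)) = W - 1 := by omega
          rw [h2] at h
          exact h
        · intro i'
          have h := iht (j + 2) (by omega) (t * W + (j + 1)) (by omega) i'.val i'.isLt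
          have h2 : W + (t * W + (j + 1)) - 1 - (t * W + (j + 2)) = W - 2 := by omega
          rw [h2] at h
          exact h
        · intro i'
          have h := iht j (by omega) (t * W + (j + 1)) (by omega) i'.val i'.isLt
          have h2 : W + (t * W + (j + 1)) - 1 - (t * W + j) = W := by omega
          rw [h2] at h
          exact h
        · intro i'
          have hmul : (t + 1) * W = t * W + W := by ring
          have h := ihj (t * W + (j + 1)) (by omega) i'.val i'.isLt
          have h2 : W + (t * W + (j + 1)) - 1 - ((t + 1) * W + j) = 0 := by omega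
          rw [h2] at h
          exact h
  intro j hj i hi
  have h := main T le_rfl j hj (T * W) (by omega) i hi
  have h2 : W + T * W - 1 - (T * W + j) = W - 1 - j := by omega
  rw [h2] at h
  exact h

end Pool.Agent.MP_8311ed_lc
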