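import Pool.Agent.MP_8311ed_lc.Defs
import Pool.Agent.Lib.helper60.NPLib
import Pool.Agent.MP_92db0f_lc.TMSim

/-!
# Polynomial time on tuples of strings and the class `PT`
-/

set_option autoImplicit false

namespace Pool.Agent.MP_8311ed_lc

open Pool.Agent.Lib.helper60 Turing Computability

theorem codeTuple_eq (l : List Str) :
    codeTuple l = l.flatMap fun s => s.flatMap (fun b => [b, b]) ++ [false, true] := by
  induction l with
  | nil => rfl
  | cons s l ih => rw [codeTuple, ih, List.flatMap_cons, List.append_assoc]

theorem PT_codeTuple : PT codeTuple := by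
  have h : PT (fun l : List Str =>
      l.flatMap fun s => s.flatMap (fun b => [b, b]) ++ [false, true]) :=
    PT.flatMap (g := fun z : List Str × Str => z.2.flatMap (fun b => [b, b]) ++ [false, true])
      PT.id (PT.append (PT.flatMap (g := fun z : (List Str × Str) × Bool => [z.2, z.2]) PT.snd
        (PT.cons PT.snd (PT.cons PT.snd (PT.const [])))) (PT.const _))
  exact h.congr fun l => (codeTuple_eq l).symm

/-! ### the parser -/

/-- one step of the parser: mode, stored bit, current string (reversed), strings (reversed) -/
def pstep (s : ℕ × Bool × Str × List Str) (b : Bool) : ℕ × Bool × Str × List Str :=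
  if s.1 = 0 then (1, b, s.2.2.1, s.2.2.2)
  else bif s.2.1 then (0, false, true :: s.2.2.1, s.2.2.2)
    else bif b then (0, false, [], s.2.2.1.reverse :: s.2.2.2)
      else (0, false, false :: s.2.2.1, s.2.2.2)

theorem foldl_doubled (s : Str) : ∀ (cur : Str) (acc : List Str),
    (s.flatMap fun b => [b, b]).foldl pstep (0, false, cur, acc) =
      (0, false, s.reverse ++ cur, acc) := by
  induction s with
  | nil => intro cur acc; rfl
  | cons b s ih =>
    intro cur acc
    have h1 : pstep (0, false, cur, acc) b = (1, b, cur, acc) := by simp [pstep]
    have h2 : pstep (1, b, cur, acc) b = (0, false, b :: cur, acc) := by cases b <;> simp [pstep]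
    rw [List.flatMap_cons]
    simp only [List.cons_append, List.nil_append, List.foldl_cons, h1, h2]
    rw [ih]
    simp

theorem foldl_codeTuple (l : List Str) : ∀ acc : List Str,
    (codeTuple l).foldl pstep (0, false, [], acc) = (0, false, [], l.reverse ++ acc) := by
  induction l with
  | nil => intro acc; rfl
  | cons s l ih =>
    intro acc
    rw [codeTuple, List.foldl_append, foldl_doubled, List.append_nil, List.foldl_append]
    have h1 : pstep (0, false, s.reverse, acc) false = (1, false, s.reverse, acc) := by
      simp [pstep]
    have h2 : pstep (1, false, s.reverse, acc) true = (0, false, [], s :: acc) := by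
      simp [pstep]
    simp only [List.foldl_cons, List.foldl_nil, h1, h2]
    rw [ih]
    simp

/-- a polynomial-time parser -/
theorem exists_parser : ∃ d : Str → List Str, PT d ∧ ∀ l, d (codeTuple l) = l := by
  refine ⟨fun w => (w.foldl pstep (0, false, [], [])).2.2.2.reverse, ?_, fun l => ?_⟩
  · have hs : PT (fun z : Str × (ℕ × Bool × Str × List Str) × Bool => pstep z.2.1 z.2.2) := by
      unfold pstep
      have s : PT (fun z : Str × (ℕ × Bool × Str × List Str) × Bool => z.2.1) := PT.snd.p1
      have b : PT (fun z : Str × (ℕ × Bool × Str × List Str) × Bool => z.2.2) := PT.snd.p2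
      refine PT.ite (PT.neq s.p1 (PT.const 0)) ?_ (PT.cond s.p2.p1 ?_ (PT.cond b ?_ ?_))
      · exact PT.pair (PT.const 1) (PT.pair b s.p2.p2)
      · exact PT.pair (PT.const 0) (PT.pair (PT.const false) (PT.pair
          (PT.cons (PT.const true) s.p2.p2.p1) s.p2.p2.p2))
      · exact PT.pair (PT.const 0) (PT.pair (PT.const false) (PT.pair
          (PT.const []) (PT.cons (PT.reverse s.p2.p2.p1) s.p2.p2.p2)))
      · exact PT.pair (PT.const 0) (PT.pair (PT.const false) (PT.pair
          (PT.cons (PT.const false) s.p2.p2.p1) s.p2.p2.p2))
    have hf := PT.foldl_lin (init := fun _ : Str => ((0, false, [], []) : ℕ × Bool × Str × List Str))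
      PT.id (PT.const _) hs 12 (by
        rintro x ⟨mode, bit, u, v⟩ b
        have hb := tsize_bool_le b
        have hb1 := tsize_pos bit
        have hb2 := tsize_pos b
        have e1 : tsize true = 3 := rfl
        have e2 : tsize false = 1 := rfl
        unfold pstep
        simp only [tsize_pair, tsize_nat]
        split_ifs
        · simp only [tsize_pair, tsize_nat]
          omega
        · cases bit
          · cases b
            · simp only [cond_false, tsize_pair, tsize_nat, tsize_cons, e2]
              omega
            · simp only [cond_true, cond_false, tsize_pair, tsize_nat, tsize_cons, tsize_nil,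
                tsize_reverse, e2]
              omega
          · simp only [cond_true, tsize_pair, tsize_nat, tsize_cons, e1, e2]
            omega)
    exact PT.reverse hf.p2.p2.p2
  · beta_reduce
    rw [foldl_codeTuple]
    simp

theorem codeTuple_injective : Function.Injective codeTuple := by
  obtain ⟨d, _, h⟩ := exists_parser
  exact Function.LeftInverse.injective h

theorem PolyTime.pt {f : List Str → Str} (h : PolyTime f) : PT f := by
  obtain ⟨F, hF, hF'⟩ := MP_92db0f_lc.exists_PT h
  exact (hF.comp PT_codeTuple).congr hF'

theorem PolyTime.of_pt {f : List Str → Str} (h : PT f) : PolyTime f := by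
  obtain ⟨d, hd, hd'⟩ := exists_parser
  exact PT.toTM2 (F := fun w => f (d w)) (h.comp hd) fun l => by
    beta_reduce
    rw [hd']

/-- equality of strings is decidable in polynomial time -/
theorem PT_streq {α : Type} [DEnc α] {f g : α → Str} (hf : PT f) (hg : PT g) :
    PT (fun a => decide (f a = g a)) := by
  have h1 : PT (fun a => (List.range (f a).length).all fun i =>
      decide ((f a).getD i false = (g a).getD i false)) :=
    PT.all (p := fun z : α × ℕ => decide ((f z.1).getD z.2 false = (g z.1).getD z.2 false))
      (PT.range (PT.length hf)) (PT.beq (PT.getD (hf.comp PT.fst) PT.snd (PT.const false))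
        (PT.getD (hg.comp PT.fst) PT.snd (PT.const false)))
  refine (PT.band (PT.neq (PT.length hf) (PT.length hg)) h1).congr fun a => ?_
  rw [Bool.eq_iff_iff]
  simp only [Bool.and_eq_true, decide_eq_true_eq, List.all_eq_true, List.mem_range]
  constructor
  · rintro ⟨h2, h3⟩
    refine List.ext_getElem h2 fun i hi hi' => ?_
    have := h3 i hi
    rwa [List.getD_eq_getElem _ _ hi, List.getD_eq_getElem _ _ hi'] at this
  · intro h
    rw [h]
    exact ⟨rfl, fun _ _ => rfl⟩

theorem PT_take {α β : Type} [DEnc α] [DEnc β] {n : α → ℕ} {l : α → List β} (hn : PT n)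
    (hl : PT l) : PT (fun a => (l a).take (n a)) := by
  refine (PT.reverse (PT.drop (PT.nsub (PT.length hl) hn) (PT.reverse hl))).congr fun a => ?_
  rw [List.drop_reverse, List.reverse_reverse]
  rcases le_total (n a) (l a).length with h | h
  · congr 1
    omega
  · rw [List.take_of_length_le h, List.take_of_length_le (by omega)]

end Pool.Agent.MP_8311ed_lc
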