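import Pool.Agent.MP_8311ed_lc.Gates
import Pool.Agent.Lib.helper66.CookLevin

/-!
# Cells of stack machines
-/

set_option autoImplicit false

namespace Pool.Agent.MP_8311ed_lc

open Pool.Agent.H66

/-- Kinds of bits of a cell: `none` marks the first column, `some (inl c)` says that the control
state is `c`, and `some (inr (k, a))` says that the symbol of the stack `k` in this column is
`a`. -/
abbrev Kd (C K A : Type) : Type := Option (C ⊕ (K × Option A))

section

variable {C K A : Type}

open Classical in
/-- The cell of the configuration `s` in column `j`. -/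
noncomputable def cellVal (s : C × (K → List A)) (j : ℕ) : Kd C K A → Bool
  | none => decide (j = 0)
  | some (Sum.inl c) => decide (s.1 = c)
  | some (Sum.inr (k, a)) => decide ((s.2 k)[j]? = a)

/-- Top of the stack as a cell. -/
theorem head?_eq_getElem?_zero {α : Type} (l : List α) : l.head? = l[0]? := by
  cases l <;> rfl

open Classical in
/-- The local rule on kinds. -/
noncomputable def ruleK (M : SM C K A) (E : Fin 4 → Kd C K A → Bool) : Kd C K A → Bool
  | none => E 0 none
  | some (Sum.inl c) =>
      if E 0 none = true then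
        decide (∃ c' : C, E 0 (some (Sum.inl c')) = true ∧ ∃ o : Option A,
          E 0 (some (Sum.inr (M.rd c', o))) = true ∧ M.nx c' o = c)
      else E 3 (some (Sum.inl c))
  | some (Sum.inr (k, a)) =>
      decide (∃ c' : C, E 0 (some (Sum.inl c')) = true ∧
        (match M.ac c' k with
          | .keep => E 0 (some (Sum.inr (k, a))) = true
          | .pop => E 1 (some (Sum.inr (k, a))) = true
          | .push x => if E 0 none = true then a = some x
              else E 2 (some (Sum.inr (k, a))) = true))

theorem cellVal_none_iff {s : C × (K → List A)} {j : ℕ} :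
    cellVal s j none = true ↔ j = 0 := by
  simp [cellVal]

theorem cellVal_inl_iff {s : C × (K → List A)} {j : ℕ} {c : C} :
    cellVal s j (some (Sum.inl c)) = true ↔ s.1 = c := by
  simp [cellVal]

theorem cellVal_inr_iff {s : C × (K → List A)} {j : ℕ} {k : K} {a : Option A} :
    cellVal s j (some (Sum.inr (k, a))) = true ↔ (s.2 k)[j]? = a := by
  simp [cellVal]

theorem ruleK_zero (M : SM C K A) (s : C × (K → List A)) (E : Fin 4 → Kd C K A → Bool)
    (h0 : ∀ κ, E 0 κ = cellVal s 0 κ) (h1 : ∀ κ, E 1 κ = cellVal s 1 κ) (κ : Kd C K A) :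
    ruleK M E κ = cellVal (M.step s) 0 κ := by
  have hz : E 0 none = true := by rw [h0, cellVal_none_iff]
  rw [Bool.eq_iff_iff]
  rcases κ with _ | c | ⟨k, a⟩
  · rw [cellVal_none_iff]
    simp [ruleK, hz]
  · rw [cellVal_inl_iff]
    simp only [ruleK, hz, if_true, decide_eq_true_eq]
    constructor
    · rintro ⟨c', hc', o, ho, hn⟩
      rw [h0, cellVal_inl_iff] at hc'
      rw [h0, cellVal_inr_iff] at ho
      subst hc'
      show M.nx s.1 (s.2 (M.rd s.1)).head? = c
      rw [head?_eq_getElem?_zero, ho, hn]
    · intro h
      refine ⟨s.1, ?_, (s.2 (M.rd s.1))[0]?, ?_, ?_⟩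
      · rw [h0, cellVal_inl_iff]
      · rw [h0, cellVal_inr_iff]
      · rw [← head?_eq_getElem?_zero]
        exact h
  · rw [cellVal_inr_iff]
    have hstep : (M.step s).2 k = (M.ac s.1 k).app (s.2 k) := rfl
    rw [hstep]
    simp only [ruleK, hz, if_true, decide_eq_true_eq]
    constructor
    · rintro ⟨c', hc', h⟩
      rw [h0, cellVal_inl_iff] at hc'
      subst hc'
      cases hac : M.ac s.1 k with
      | keep =>
        simp only [hac] at h
        rw [h0, cellVal_inr_iff] at h
        exact h
      | pop =>
        simp only [hac] at h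
        rw [h1, cellVal_inr_iff] at h
        rw [← h]
        simp [Act.app]
      | push x =>
        simp only [hac] at h
        rw [h]
        simp [Act.app]
    · intro h
      refine ⟨s.1, by rw [h0, cellVal_inl_iff], ?_⟩
      cases hac : M.ac s.1 k with
      | keep =>
        simp only [hac] at h ⊢
        rw [h0, cellVal_inr_iff]
        exact h
      | pop =>
        simp only [hac] at h ⊢
        rw [h1, cellVal_inr_iff, ← h]
        simp [Act.app]
      | push x =>
        simp only [hac] at h ⊢
        rw [← h]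
        simp [Act.app]

theorem ruleK_succ (M : SM C K A) (s : C × (K → List A)) (j : ℕ) (E : Fin 4 → Kd C K A → Bool)
    (h0 : ∀ κ, E 0 κ = cellVal s (j + 1) κ) (h1 : ∀ κ, E 1 κ = cellVal s (j + 2) κ)
    (h2 : ∀ κ, E 2 κ = cellVal s j κ) (h3 : ∀ κ, E 3 κ = cellVal (M.step s) j κ)
    (κ : Kd C K A) :
    ruleK M E κ = cellVal (M.step s) (j + 1) κ := by
  have hz : ¬ E 0 none = true := by rw [h0, cellVal_none_iff]; omega
  rw [Bool.eq_iff_iff]
  rcases κ with _ | c | ⟨k, a⟩
  · rw [cellVal_none_iff]
    simp only [ruleK]
    rw [h0, cellVal_none_iff]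
  · rw [cellVal_inl_iff]
    simp only [ruleK]
    rw [if_neg hz, h3, cellVal_inl_iff]
  · rw [cellVal_inr_iff]
    have hstep : (M.step s).2 k = (M.ac s.1 k).app (s.2 k) := rfl
    rw [hstep]
    have hz' : E 0 none = false := by simpa using hz
    simp only [ruleK, hz', Bool.false_eq_true, if_false, decide_eq_true_eq]
    constructor
    · rintro ⟨c', hc', h⟩
      rw [h0, cellVal_inl_iff] at hc'
      subst hc'
      cases hac : M.ac s.1 k with
      | keep =>
        simp only [hac] at h
        rw [h0, cellVal_inr_iff] at h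
        exact h
      | pop =>
        simp only [hac] at h
        rw [h1, cellVal_inr_iff] at h
        rw [← h]
        simp [Act.app]
      | push x =>
        simp only [hac] at h
        rw [h2, cellVal_inr_iff] at h
        rw [← h]
        simp [Act.app]
    · intro h
      refine ⟨s.1, by rw [h0, cellVal_inl_iff], ?_⟩
      cases hac : M.ac s.1 k with
      | keep =>
        simp only [hac] at h ⊢
        rw [h0, cellVal_inr_iff]
        exact h
      | pop =>
        simp only [hac] at h ⊢
        rw [h1, cellVal_inr_iff, ← h]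
        simp [Act.app]
      | push x =>
        simp only [hac] at h ⊢
        rw [h2, cellVal_inr_iff, ← h]
        simp [Act.app]

variable [Fintype C] [Fintype K] [Fintype A]

/-- The number of kinds. -/
noncomputable def kc (C K A : Type) [Fintype C] [Fintype K] [Fintype A] : ℕ :=
  Fintype.card (Kd C K A)

/-- The number of a kind. -/
noncomputable def ki (κ : Kd C K A) : ℕ := (Fintype.equivFin (Kd C K A) κ).val

theorem ki_lt (κ : Kd C K A) : ki κ < kc C K A := (Fintype.equivFin (Kd C K A) κ).isLt

/-- The bits of the cell, numbered. -/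
noncomputable def cellN (s : C × (K → List A)) (j i : ℕ) : Bool :=
  if h : i < kc C K A then cellVal s j ((Fintype.equivFin (Kd C K A)).symm ⟨i, h⟩) else false

theorem cellN_ki (s : C × (K → List A)) (j : ℕ) (κ : Kd C K A) :
    cellN s j (ki κ) = cellVal s j κ := by
  unfold cellN
  rw [dif_pos (ki_lt κ)]
  have h : (Fintype.equivFin (Kd C K A)).symm ⟨ki κ, ki_lt κ⟩ = κ :=
    (Fintype.equivFin (Kd C K A)).symm_apply_apply κ
  rw [h]

theorem cellN_lt (s : C × (K → List A)) (j i : ℕ) (h : i < kc C K A) :
    cellN s j i = cellVal s j ((Fintype.equivFin (Kd C K A)).symm ⟨i, h⟩) := by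
  unfold cellN
  rw [dif_pos h]

/-- The local rule of a stack machine, as expressions. -/
theorem exists_rule (M : SM C K A) : ∃ F : ℕ → Ex (Fin 4 × Fin (kc C K A)),
    (∀ (s : C × (K → List A)) (env : Fin 4 × Fin (kc C K A) → Bool),
      (∀ i : Fin (kc C K A), env (0, i) = cellN s 0 i) →
      (∀ i : Fin (kc C K A), env (1, i) = cellN s 1 i) →
        ∀ i < kc C K A, (F i).eval env = cellN (M.step s) 0 i) ∧
    (∀ (s : C × (K → List A)) (j : ℕ) (env : Fin 4 × Fin (kc C K A) → Bool),
      (∀ i : Fin (kc C K A), env (0, i) = cellN s (j + 1) i) →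
      (∀ i : Fin (kc C K A), env (1, i) = cellN s (j + 2) i) →
      (∀ i : Fin (kc C K A), env (2, i) = cellN s j i) →
      (∀ i : Fin (kc C K A), env (3, i) = cellN (M.step s) j i) →
        ∀ i < kc C K A, (F i).eval env = cellN (M.step s) (j + 1) i) := by
  classical
  have hex : ∀ i : ℕ, ∃ e : Ex (Fin 4 × Fin (kc C K A)), ∀ env : Fin 4 × Fin (kc C K A) → Bool,
      ∀ hi : i < kc C K A, e.eval env =
        ruleK M (fun b κ => env (b, ⟨ki κ, ki_lt κ⟩))
          ((Fintype.equivFin (Kd C K A)).symm ⟨i, hi⟩) := by
    intro i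
    by_cases hi : i < kc C K A
    · obtain ⟨e, he⟩ := Ex.exists_eval (V := Fin 4 × Fin (kc C K A)) (fun env =>
        ruleK M (fun b κ => env (b, ⟨ki κ, ki_lt κ⟩))
          ((Fintype.equivFin (Kd C K A)).symm ⟨i, hi⟩))
      exact ⟨e, fun env _ => he env⟩
    · exact ⟨.cst false, fun env hi' => absurd hi' hi⟩
  choose F hF using hex
  have key : ∀ (s : C × (K → List A)) (j : ℕ) (g : Fin (kc C K A) → Bool),
      (∀ i : Fin (kc C K A), g i = cellN s j i) →
      ∀ κ, g ⟨ki κ, ki_lt κ⟩ = cellVal s j κ := by
    intro s j g hg κ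
    rw [hg, ← cellN_ki]
  refine ⟨F, ?_, ?_⟩
  · intro s env h0 h1 i hi
    rw [hF i env hi, cellN_lt _ _ _ hi]
    exact ruleK_zero M s _ (key s 0 (fun i => env (0, i)) h0) (key s 1 (fun i => env (1, i)) h1) _
  · intro s j env h0 h1 h2 h3 i hi
    rw [hF i env hi, cellN_lt _ _ _ hi]
    exact ruleK_succ M s j _ (key s (j + 1) (fun i => env (0, i)) h0)
      (key s (j + 2) (fun i => env (1, i)) h1) (key s j (fun i => env (2, i)) h2)
      (key (M.step s) j (fun i => env (3, i)) h3) _

open Classical in
/-- The initial configuration. -/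
noncomputable def iniC (c₀ : C) (k₀ : K) (e : Bool → A) (w : Str) : C × (K → List A) :=
  (c₀, fun k => if k = k₀ then w.map e else [])

/-- The cells of the initial configuration, as expressions. The column is described by a Boolean
saying whether it is the first one, and by its symbol: `none` if it is blank, `some (some b)` if it
is the fixed bit `b`, and `some none` if it is the input bit. -/
theorem exists_init (c₀ : C) (k₀ : K) (e : Bool → A) :
    ∃ F : Bool × Option (Option Bool) → ℕ → Ex Unit,
      ∀ (w : Str) (j : ℕ) (o : Option (Option Bool)) (env : Unit → Bool),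
        w[j]? = o.map (fun o' => o'.getD (env ())) →
          ∀ i < kc C K A, (F (decide (j = 0), o) i).eval env = cellN (iniC c₀ k₀ e w) j i := by
  classical
  have hex : ∀ (p : Bool × Option (Option Bool)) (i : ℕ), ∃ x : Ex Unit,
      ∀ env : Unit → Bool, ∀ hi : i < kc C K A, x.eval env =
        (match (Fintype.equivFin (Kd C K A)).symm ⟨i, hi⟩ with
          | none => p.1
          | some (Sum.inl c) => decide (c₀ = c)
          | some (Sum.inr (k, a)) => decide ((if k = k₀ then
              p.2.map (fun o' => e (o'.getD (env ()))) else none) = a)) := by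
    intro p i
    by_cases hi : i < kc C K A
    · obtain ⟨x, hx⟩ := Ex.exists_eval (V := Unit) (fun env =>
        (match (Fintype.equivFin (Kd C K A)).symm ⟨i, hi⟩ with
          | none => p.1
          | some (Sum.inl c) => decide (c₀ = c)
          | some (Sum.inr (k, a)) => decide ((if k = k₀ then
              p.2.map (fun o' => e (o'.getD (env ()))) else none) = a)))
      exact ⟨x, fun env _ => hx env⟩
    · exact ⟨.cst false, fun env hi' => absurd hi' hi⟩
  choose F hF using hex
  refine ⟨F, ?_⟩
  intro w j o env hw i hi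
  rw [hF _ i env hi, cellN_lt _ _ _ hi]
  rw [Bool.eq_iff_iff]
  rcases (Fintype.equivFin (Kd C K A)).symm ⟨i, hi⟩ with _ | c | ⟨k, a⟩
  · rw [cellVal_none_iff]
    simp
  · rw [cellVal_inl_iff]
    simp [iniC]
  · rw [cellVal_inr_iff]
    simp only [iniC, decide_eq_true_eq]
    by_cases hk : k = k₀
    · simp only [hk, if_true]
      rw [List.getElem?_map, hw, Option.map_map]
      rfl
    · simp [hk]

end

end Pool.Agent.MP_8311ed_lc
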