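import Pool.Agent.MP_8311ed_lc.Cells

/-!
# Stack machines of polynomial-time predicates
-/

set_option autoImplicit false

namespace Pool.Agent.MP_8311ed_lc

open Pool.Agent.H66 Turing Computability Function

/-- Every polynomial-time predicate on strings is computed by a stack machine. -/
theorem exists_sm {f : Str → Bool}
    (h : Nonempty (TM2ComputableInPolyTime (fun s : Str => s) encodeBool f)) :
    ∃ (C K A : Type) (_ : Fintype C) (_ : Fintype K) (_ : Fintype A) (M : SM C K A)
      (c₀ : C) (k₀ k₁ : K) (e : Bool → A) (good : A) (T : Polynomial ℕ),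
      ∀ (w : Str) (t : ℕ), T.eval w.length ≤ t →
        ((((M.step)^[t] (iniC c₀ k₀ e w)).2 k₁).head? = some good ↔ f w = true) := by
  classical
  obtain ⟨cmp⟩ := h
  let tm := cmp.tm
  let _ : DecidableEq tm.K := tm.kDecidableEq
  let _ : Fintype tm.K := tm.kFin
  let _ : Fintype tm.Λ := tm.ΛFin
  let _ : Fintype tm.σ := tm.σFin
  let _ : Fintype (tm.Γ tm.k₀) := tm.Γk₀Fin
  have _ : Finite (usedS tm.m tm.k₀) := (usedS_finite tm.m tm.k₀).to_subtype
  let _ : Fintype (usedS tm.m tm.k₀) := Fintype.ofFinite _
  obtain ⟨D, hD⟩ : ∃ D, ∀ l, msize (tm.m l) ≤ D :=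
    ⟨∑ l, msize (tm.m l), fun l => Finset.single_le_sum (f := fun l => msize (tm.m l))
      (fun _ _ => Nat.zero_le _) (Finset.mem_univ l)⟩
  let c₀ : CC tm.m := (⟨some (tm.m tm.main), mem_stmts.2 ⟨_, TM2.stmts₁_self⟩⟩, tm.initialState)
  let e : Bool → AA tm.m tm.k₀ := fun o => inj tm.m tm.k₀ tm.k₀ (cmp.inputAlphabet.symm o)
  let good : AA tm.m tm.k₀ := inj tm.m tm.k₀ tm.k₁ (cmp.outputAlphabet.symm true)
  refine ⟨CC tm.m, tm.K, AA tm.m tm.k₀, inferInstance, inferInstance, inferInstance,
    toSM tm.m tm.k₀, c₀, tm.k₀, tm.k₁, e, good, Polynomial.C D * cmp.time, fun w t ht => ?_⟩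
  -- the run of the machine
  have hrun := cmp.outputsFun w
  obtain ⟨⟨steps, hsteps⟩, hle⟩ := hrun
  simp only at hle
  obtain ⟨n, hn', hmr⟩ := mstep_run tm.m tm.k₀ D hD steps _ _ hsteps
  have hnT : n ≤ t := by
    rw [Polynomial.eval_mul, Polynomial.eval_C] at ht
    exact (hn'.trans (Nat.mul_le_mul_left D hle)).trans ht
  obtain ⟨r, hr⟩ := Nat.exists_eq_add_of_le hnT
  have hfinal : (mstep tm.m tm.k₀)^[t] (img tm.m (initList tm
      (w.map cmp.inputAlphabet.invFun))) =
      img tm.m (haltList tm ((Computability.encodeBool (f w)).map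
        cmp.outputAlphabet.invFun)) := by
    rw [hr, Nat.add_comm, iterate_add_apply, hmr]
    exact mstep_halted _ _ _ _ _
  have hrel0 : Rel tm.m tm.k₀ (img tm.m (initList tm
      (w.map cmp.inputAlphabet.invFun))) (iniC c₀ tm.k₀ e w) := by
    refine ⟨rfl, ?_, ?_⟩
    · intro k
      by_cases hk : k = tm.k₀
      · subst hk
        have h1 : (img tm.m (initList tm
            (w.map cmp.inputAlphabet.invFun))).2 tm.k₀ =
            w.map cmp.inputAlphabet.invFun := by
          show (initList tm _).stk tm.k₀ = _
          unfold initList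
          simp
        rw [h1, List.map_map]
        simp only [iniC, if_true]
        rfl
      · have h1 : (img tm.m (initList tm
            (w.map cmp.inputAlphabet.invFun))).2 k = [] := by
          show (initList tm _).stk k = _
          unfold initList
          exact dif_neg hk
        rw [h1]
        simp [iniC, hk]
    · intro k z hz
      by_cases hk : k = tm.k₀
      · exact Or.inl hk
      · have h1 : (img tm.m (initList tm
            (w.map cmp.inputAlphabet.invFun))).2 k = [] := by
          show (initList tm _).stk k = _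
          unfold initList
          exact dif_neg hk
        rw [h1] at hz
        simp at hz
  have hrelT := hrel0.iterate t
  rw [hfinal] at hrelT
  obtain ⟨_, hr2, hr3⟩ := hrelT
  have hstk : (img tm.m (haltList tm ((Computability.encodeBool (f w)).map
      cmp.outputAlphabet.invFun))).2 tm.k₁ = [cmp.outputAlphabet.symm (f w)] := by
    show (haltList tm _).stk tm.k₁ = _
    unfold haltList
    simp [Computability.encodeBool]
  have h4 := hr2 tm.k₁
  rw [hstk] at h4
  rw [h4]
  simp only [List.map_cons, List.map_nil, List.head?_cons]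
  constructor
  · intro h5
    have h6 : inj tm.m tm.k₀ tm.k₁ (cmp.outputAlphabet.symm (f w)) = good := by
      simpa using h5
    have h7 := inj_eq (hr3 tm.k₁ _ (by rw [hstk]; exact List.mem_cons_self)) h6
    exact cmp.outputAlphabet.symm.injective h7
  · intro hVt
    rw [hVt]

end Pool.Agent.MP_8311ed_lc
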