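import Pool.Agent.MP_8311ed_lc.Automaton
import Pool.Agent.MP_8311ed_lc.SMach
import Pool.Agent.MP_8311ed_lc.GatesPT
import Pool.Agent.Lib.helper60.NPLib
import Pool.Agent.MP_92db0f_lc.TMSim

/-!
# From polynomial-time functions to circuits
-/

set_option autoImplicit false

namespace Pool.Agent.MP_8311ed_lc

open Pool.Agent.Lib.helper60 Pool.Agent.H66 Turing Computability

/-! ## Auxiliary facts -/

/-- Case distinction on a Boolean computed in polynomial time. -/
theorem PT_boolCases {α β : Type} [DEnc α] [DEnc β] {c : α → Bool} {h : Bool → α → β}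
    (hc : PT c) (hh : ∀ b, PT (h b)) : PT (fun x => h (c x) x) :=
  (PT.cond hc (hh true) (hh false)).congr fun x => by cases c x <;> rfl

/-- Description of a column of the initial configuration by three Booleans. -/
def colO (b₁ b₂ b₃ : Bool) : Option (Option Bool) :=
  bif b₁ then some (some b₃) else bif b₂ then some none else none

/-- The description of column `j` when the fixed part is `a` and `m` input bits follow. -/
def colOf (a : Str) (m j : ℕ) : Option (Option Bool) :=
  colO (decide (j < a.length)) (decide (j < a.length + m)) (a.getD j false)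

theorem colOf_spec (a s : Str) (j : ℕ) (env : Unit → Bool)
    (henv : env () = s.getD (j - a.length) false) :
    (a ++ s)[j]? = (colOf a s.length j).map (fun o' => o'.getD (env ())) := by
  unfold colOf colO
  by_cases h1 : j < a.length
  · rw [List.getElem?_append_left h1]
    simp [h1]
  · rw [List.getElem?_append_right (by omega)]
    by_cases h2 : j < a.length + s.length
    · have h3 : j - a.length < s.length := by omega
      simp [h1, h2, henv, h3]
    · have h3 : ¬ j - a.length < s.length := by omega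
      simp [h1, h2]
      omega

section initg

variable (r σ : ℕ) (F₀ : Bool × Option (Option Bool) → ℕ → Ex Unit)

/-- The gates of column `j` of the initial configuration. -/
def colG (a : Str) (m j : ℕ) : List (ℕ × ℕ) :=
  blk σ (fun _ => j * (r * σ) + (j - a.length)) (F₀ (decide (j = 0), colOf a m j)) r 0

/-- The gates of the first `n` columns of the initial configuration. -/
def initG (a : Str) (m n : ℕ) : List (ℕ × ℕ) :=
  (List.range n).flatMap (colG r σ F₀ a m)

theorem initG_succ (a : Str) (m n : ℕ) :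
    initG r σ F₀ a m (n + 1) = initG r σ F₀ a m n ++ colG r σ F₀ a m n := by
  unfold initG
  rw [List.range_succ, List.flatMap_append]
  simp

theorem colG_length (hF : ∀ x, ∀ i < r, (F₀ x i).size ≤ σ) (a : Str) (m j : ℕ) :
    (colG r σ F₀ a m j).length = r * σ :=
  blk_length _ _ _ _ _ fun i hi => hF _ i hi

theorem initG_correct (hF : ∀ x, ∀ i < r, (F₀ x i).size ≤ σ) (cell : ℕ → ℕ → Bool)
    (a s : Str)
    (h : ∀ (j : ℕ) (o : Option (Option Bool)) (env : Unit → Bool),
      (a ++ s)[j]? = o.map (fun o' => o'.getD (env ())) →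
        ∀ i < r, (F₀ (decide (j = 0), o) i).eval env = cell j i) (n : ℕ) :
    (∀ j < n, ∀ i < r,
      (runG (initG r σ F₀ a s.length n) s).getD ((n - 1 - j) * (r * σ) + σ * i) false =
        cell j i) ∧
    ∀ i, (runG (initG r σ F₀ a s.length n) s).getD (n * (r * σ) + i) false =
      s.getD i false := by
  induction n with
  | zero =>
    refine ⟨fun j hj => absurd hj (by omega), fun i => ?_⟩
    simp [initG, runG]
  | succ n ih =>
    obtain ⟨ih1, ih2⟩ := ih
    have hlen := colG_length r σ F₀ hF a s.length n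
    rw [initG_succ, runG_append]
    set R := runG (initG r σ F₀ a s.length n) s with hR
    have key : ∀ k, (runG (colG r σ F₀ a s.length n) R).getD (r * σ + k) false =
        R.getD k false := by
      intro k
      have := runG_getD_add (colG r σ F₀ a s.length n) R k
      rwa [hlen] at this
    refine ⟨fun j hj i hi => ?_, fun i => ?_⟩
    · rcases Nat.lt_succ_iff_lt_or_eq.1 hj with hj' | hj'
      · have e : (n + 1 - 1 - j) * (r * σ) + σ * i =
            r * σ + ((n - 1 - j) * (r * σ) + σ * i) := by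
          obtain ⟨d, rfl⟩ : ∃ d, n = j + 1 + d := ⟨n - (j + 1), by omega⟩
          have e1 : j + 1 + d + 1 - 1 - j = d + 1 := by omega
          have e2 : j + 1 + d - 1 - j = d := by omega
          rw [e1, e2]
          ring
        rw [e, key]
        exact ih1 j hj' i hi
      · subst hj'
        have e : (j + 1 - 1 - j) * (r * σ) + σ * i = σ * i := by
          have : j + 1 - 1 - j = 0 := by omega
          rw [this]
          simp
        rw [e]
        unfold colG
        rw [blk_correct _ _ _ _ (fun i hi => hF _ i hi) _ _ hi]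
        refine h j (colOf a s.length j) _ (colOf_spec a s j _ ?_) i hi
        exact ih2 _
    · have e : (n + 1) * (r * σ) + i = r * σ + (n * (r * σ) + i) := by ring
      rw [e, key]
      exact ih2 i

theorem PT_colG : PT (fun x : (Str × ℕ) × ℕ => colG r σ F₀ x.1.1 x.1.2 x.2) := by
  have hj : PT (fun x : (Str × ℕ) × ℕ => x.2) := PT.snd
  have ha : PT (fun x : (Str × ℕ) × ℕ => x.1.1) := PT.fst.p1
  have hm : PT (fun x : (Str × ℕ) × ℕ => x.1.2) := PT.fst.p2
  have hl : PT (fun x : (Str × ℕ) × ℕ => x.1.1.length) := PT.length ha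
  have hpos : PT (fun x : (Str × ℕ) × ℕ => x.2 * (r * σ) + (x.2 - x.1.1.length)) :=
    PT.nadd (PT.nmul hj (PT.const _)) (PT.nsub hj hl)
  have h4 : ∀ b₀ b₁ b₂ b₃ : Bool, PT (fun x : (Str × ℕ) × ℕ =>
      blk σ (fun _ : Unit => x.2 * (r * σ) + (x.2 - x.1.1.length)) (F₀ (b₀, colO b₁ b₂ b₃)) r 0) :=
    fun b₀ b₁ b₂ b₃ => PT_blk σ (fun (x : (Str × ℕ) × ℕ) (_ : Unit) =>
      x.2 * (r * σ) + (x.2 - x.1.1.length)) (fun _ => hpos) _ r
  have c0 : PT (fun x : (Str × ℕ) × ℕ => decide (x.2 = 0)) := PT.neq hj (PT.const 0)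
  have c1 : PT (fun x : (Str × ℕ) × ℕ => decide (x.2 < x.1.1.length)) := PT.nlt hj hl
  have c2 : PT (fun x : (Str × ℕ) × ℕ => decide (x.2 < x.1.1.length + x.1.2)) :=
    PT.nlt hj (PT.nadd hl hm)
  have c3 : PT (fun x : (Str × ℕ) × ℕ => x.1.1.getD x.2 false) := PT.getD ha hj (PT.const false)
  exact PT_boolCases (h := fun b₀ (x : (Str × ℕ) × ℕ) =>
    blk σ (fun _ : Unit => x.2 * (r * σ) + (x.2 - x.1.1.length))
      (F₀ (b₀, colO (decide (x.2 < x.1.1.length)) (decide (x.2 < x.1.1.length + x.1.2))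
        (x.1.1.getD x.2 false))) r 0) c0 fun b₀ =>
    PT_boolCases (h := fun b₁ (x : (Str × ℕ) × ℕ) =>
      blk σ (fun _ : Unit => x.2 * (r * σ) + (x.2 - x.1.1.length))
        (F₀ (b₀, colO b₁ (decide (x.2 < x.1.1.length + x.1.2)) (x.1.1.getD x.2 false))) r 0)
      c1 fun b₁ =>
    PT_boolCases (h := fun b₂ (x : (Str × ℕ) × ℕ) =>
      blk σ (fun _ : Unit => x.2 * (r * σ) + (x.2 - x.1.1.length))
        (F₀ (b₀, colO b₁ b₂ (x.1.1.getD x.2 false))) r 0) c2 fun b₂ =>
    PT_boolCases (h := fun b₃ (x : (Str × ℕ) × ℕ) =>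
      blk σ (fun _ : Unit => x.2 * (r * σ) + (x.2 - x.1.1.length))
        (F₀ (b₀, colO b₁ b₂ b₃)) r 0) c3 fun b₃ => h4 b₀ b₁ b₂ b₃

theorem PT_initG {N : Str × ℕ → ℕ} (hN : PT N) :
    PT (fun x : Str × ℕ => initG r σ F₀ x.1 x.2 (N x)) :=
  PT.flatMap (PT.range hN) (PT_colG r σ F₀)

end initg

theorem PT_agates (r σ : ℕ) (F : ℕ → Ex (Fin 4 × Fin r)) {α : Type} [DEnc α] {W T : α → ℕ}
    (hW : PT W) (hT : PT T) : PT (fun a => agates r σ (W a) (T a) F) := by
  unfold agates
  refine PT.flatten (PT.replicate (PT.nmul hT hW) (PT_blk σ (fun a v => apos r σ (W a) v) ?_ F r))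
  rintro ⟨k, i⟩
  fin_cases k
  · exact PT.nadd (PT.nmul (PT.nsub hW (PT.const 1)) (PT.const _)) (PT.const _)
  · exact PT.nadd (PT.nmul (PT.nsub hW (PT.const 2)) (PT.const _)) (PT.const _)
  · exact PT.nadd (PT.nmul hW (PT.const _)) (PT.const _)
  · exact PT.nadd (PT.nmul (PT.const 0) (PT.const _)) (PT.const _)

/-- Copying a wire to the top. -/
theorem runG_copy (ws : Str) (p : ℕ) :
    (runG [(p, p), (0, 0)] ws).take 1 = [ws.getD p false] := by
  simp [runG]

/-- Circuits for a polynomial-time predicate, the first part of the argument being fixed. -/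
theorem exists_circuits {f : Str → Bool}
    (h : Nonempty (TM2ComputableInPolyTime (fun s : Str => s) encodeBool f)) :
    ∃ Kf : Str × ℕ → Str, PT Kf ∧ ∀ (a : Str) (m : ℕ), ∃ C : Circuit,
      Kf (a, m) = C.code ∧ C.outs = 1 ∧ ∀ s : Str, s.length = m → C.eval s = [f (a ++ s)] := by
  obtain ⟨C, K, A, _, _, _, M, c₀, k₀, k₁, e, good, T, hT⟩ := exists_sm h
  obtain ⟨F, hF1, hF2⟩ := exists_rule M
  obtain ⟨F₀, hF0⟩ := exists_init (C := C) (K := K) (A := A) c₀ k₀ e
  obtain ⟨σ, hσ1, hσ2⟩ : ∃ σ : ℕ, (∀ i < kc C K A, (F i).size ≤ σ) ∧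
      ∀ x, ∀ i < kc C K A, (F₀ x i).size ≤ σ := by
    refine ⟨(∑ i ∈ Finset.range (kc C K A), (F i).size) +
      ∑ x : Bool × Option (Option Bool), ∑ i ∈ Finset.range (kc C K A), (F₀ x i).size, ?_, ?_⟩
    · intro i hi
      exact le_trans (Finset.single_le_sum (f := fun i => (F i).size)
        (fun _ _ => Nat.zero_le _) (Finset.mem_range.2 hi)) (Nat.le_add_right _ _)
    · intro x i hi
      exact le_trans (Finset.single_le_sum (f := fun i => (F₀ x i).size)
        (fun _ _ => Nat.zero_le _) (Finset.mem_range.2 hi)) (le_trans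
          (Finset.single_le_sum (f := fun x => ∑ i ∈ Finset.range (kc C K A), (F₀ x i).size)
            (fun _ _ => Nat.zero_le _) (Finset.mem_univ x)) (Nat.le_add_left _ _))
  let Tn : Str × ℕ → ℕ := fun x => T.eval (x.1.length + x.2)
  have hTn : PT Tn := MP_92db0f_lc.PT_peval T (PT.nadd (PT.length PT.fst) PT.snd)
  let κ : Kd C K A := some (Sum.inr (k₁, some good))
  let p : Str × ℕ → ℕ := fun x => (Tn x) * (kc C K A * σ) + σ * ki κ
  have hp : PT p := PT.nadd (PT.nmul hTn (PT.const _)) (PT.const _)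
  let Cc : Str × ℕ → Circuit := fun x => ⟨1, initG (kc C K A) σ F₀ x.1 x.2 (Tn x + 1) ++
    (agates (kc C K A) σ (Tn x + 1) (Tn x) F ++ [(p x, p x), (0, 0)])⟩
  refine ⟨fun x => (Cc x).code, ?_, ?_⟩
  · have hg : PT (fun x => (Cc x).gates) :=
      PT.append (PT_initG (kc C K A) σ F₀ (PT.nsucc hTn)) (PT.append (PT_agates (kc C K A) σ F (PT.nsucc hTn) hTn)
        (PT.cons (PT.pair hp hp) (PT.const [(0, 0)])))
    exact PT.append (PT.const (unary 1)) (PT.cons (PT.const false) (PT_gcode.comp hg))
  · intro a m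
    refine ⟨Cc (a, m), rfl, rfl, fun s hs => ?_⟩
    subst hs
    have hinit := (initG_correct (kc C K A) σ F₀ hσ2 (cellN (iniC c₀ k₀ e (a ++ s))) a s
      (fun j o env ho i hi => hF0 (a ++ s) j o env ho i hi) (Tn (a, s.length) + 1)).1
    set N := Tn (a, s.length) with hN
    have hag := agates_correct (kc C K A) σ (N + 1) N F hσ1 (Nat.lt_succ_self N)
      (runG (initG (kc C K A) σ F₀ a s.length (N + 1)) s)
      (fun t j i => cellN ((M.step)^[t] (iniC c₀ k₀ e (a ++ s))) j i)
      (fun j hj i hi => hinit j hj i hi)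
      (fun t _ env h1 h2 i hi => by
        rw [Function.iterate_succ_apply']
        exact hF1 _ env h1 h2 i hi)
      (fun t _ j _ env h1 h2 h3 h4 i hi => by
        rw [Function.iterate_succ_apply']
        refine hF2 _ j env h1 h2 h3 (fun i => ?_) i hi
        have := h4 i
        rwa [Function.iterate_succ_apply'] at this)
      0 (by omega) (ki κ) (ki_lt κ)
    have hval : (Cc (a, s.length)).eval s =
        [(runG (agates (kc C K A) σ (N + 1) N F)
          (runG (initG (kc C K A) σ F₀ a s.length (N + 1)) s)).getD (p (a, s.length)) false] := by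
      unfold Circuit.eval
      rw [Circuit.wires_eq]
      show (runG (initG (kc C K A) σ F₀ a s.length (N + 1) ++
        (agates (kc C K A) σ (N + 1) N F ++ [(p (a, s.length), p (a, s.length)), (0, 0)])) s).take 1 = _
      rw [runG_append, runG_append, runG_copy]
    rw [hval]
    have hpe : p (a, s.length) = (N + 1 - 1 - 0) * (kc C K A * σ) + σ * ki κ := by
      simp only [p, hN, Nat.add_sub_cancel, Nat.sub_zero]
    rw [hpe, hag, cellN_ki]
    congr 1
    rw [Bool.eq_iff_iff, ← hT (a ++ s) N (by simp [hN, Tn])]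
    simp only [cellVal, κ, decide_eq_true_eq, List.head?_eq_getElem?]

/-- Circuits for a polynomial-time predicate of two strings, the first one being fixed. -/
theorem compile {G : Str × Str → Bool} (hG : PT G) :
    ∃ Kf : Str × ℕ → Str, PT Kf ∧ ∀ (u : Str) (m : ℕ), ∃ C : Circuit,
      Kf (u, m) = C.code ∧ C.outs = 1 ∧ ∀ s : Str, s.length = m → C.eval s = [G (u, s)] := by
  have hf : Nonempty (TM2ComputableInPolyTime (fun s : Str => s) encodeBool
      (fun w => G (unpair w))) :=
    PT.decider (F := fun w => G (unpair w)) (hG.comp PT_unpair) fun _ => rfl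
  obtain ⟨Kf, hK, hC⟩ := exists_circuits hf
  refine ⟨fun x => Kf (x.1.flatMap (fun b => [b, b]) ++ [false, true], x.2), ?_, fun u m => ?_⟩
  · refine hK.comp (PT.pair (PT.append (PT.flatMap (g := fun y : (Str × ℕ) × Bool => [y.2, y.2])
      PT.fst (PT.cons PT.snd (PT.cons PT.snd (PT.const [])))) (PT.const [false, true])) PT.snd)
  · obtain ⟨C, h1, h2, h3⟩ := hC (u.flatMap (fun b => [b, b]) ++ [false, true]) m
    refine ⟨C, h1, h2, fun s hs => ?_⟩
    rw [h3 s hs]
    have e : u.flatMap (fun b => [b, b]) ++ [false, true] ++ s = encPair (u, s) := by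
      simp [encPair]
    rw [e, unpair_enc]

end Pool.Agent.MP_8311ed_lc
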