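import Mathlib

/-!
# Leakage-resilient zero knowledge with leak-free input encoding: definitions
-/

set_option autoImplicit false

open Turing

namespace Pool.Agent.MP_8311ed_lc

/-! ## Strings, polynomial time, coins -/

/-- Bit strings. -/
abbrev Str := List Bool

/-- Code of a tuple of bit strings: every bit is doubled, every string is followed by `01`. -/
def codeTuple : List Str → Str
  | [] => []
  | s :: l => s.flatMap (fun b => [b, b]) ++ ([false, true] ++ codeTuple l)

/-- The function, from tuples of strings to strings, is computed by a deterministic Turing machine
in polynomial time (Mathlib's notion). -/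
def PolyTime (f : List Str → Str) : Prop :=
  Nonempty (TM2ComputableInPolyTime codeTuple (fun s : Str => s) f)

/-- The number `n` in unary. -/
def unary (n : ℕ) : Str := List.replicate n true

/-- The average of `f` over all strings of length `n`. -/
noncomputable def avg (n : ℕ) (f : Str → ℝ) : ℝ :=
  (∑ r : Fin n → Bool, f (List.ofFn r)) / 2 ^ n

open Classical in
/-- The probability that a uniformly random string of length `n` has property `E`. -/
noncomputable def Pr (n : ℕ) (E : Str → Prop) : ℝ := avg n fun r => if E r then 1 else 0

/-- Negligible functions. -/
def Negl (μ : ℕ → ℝ) : Prop := ∀ k : ℕ, ∃ N : ℕ, ∀ n ≥ N, μ n ≤ 1 / (n : ℝ) ^ k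

/-! ## NP and BPP -/

/-- `R` is an NP relation: decidable in polynomial time, with witnesses of polynomial length. -/
def IsNPRelation (R : Str → Str → Prop) : Prop :=
  (∃ d : List Str → Str, PolyTime d ∧ ∀ x w, R x w ↔ d [x, w] = [true]) ∧
    ∃ q : Polynomial ℕ, ∀ x w, R x w → w.length ≤ q.eval x.length

/-- The language of a relation. -/
def lang (R : Str → Str → Prop) : Set Str := {x | ∃ w, R x w}

/-- `L` is in BPP. -/
def InBPP (L : Set Str) : Prop :=
  ∃ (D : List Str → Str) (q : Polynomial ℕ), PolyTime D ∧ ∀ x : Str,
    (x ∈ L → 2 / 3 ≤ Pr (q.eval x.length) fun r => D [x, r] = [true]) ∧
    (x ∉ L → Pr (q.eval x.length) (fun r => D [x, r] = [true]) ≤ 1 / 3)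

/-! ## Witness encryption -/

/-- Witness encryption for the relation `R`: bits can be encrypted under an instance `y`, so that
every witness for `y` decrypts, and so that encryptions of `0` and `1` under instances without a
witness are computationally indistinguishable. Here `n` is the security parameter, and instances
have length at most `q n` for an arbitrary polynomial `q`. -/
def HasWitnessEncryption (R : Str → Str → Prop) : Prop :=
  ∃ (Enc Dec : List Str → Str) (c : Polynomial ℕ), PolyTime Enc ∧ PolyTime Dec ∧
    (∀ q : Polynomial ℕ, ∃ μ : ℕ → ℝ, Negl μ ∧ ∀ (n : ℕ) (y w : Str) (b : Bool),
      y.length ≤ q.eval n → R y w →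
        1 - μ n ≤ Pr (c.eval (n + y.length)) fun r =>
          Dec [unary n, y, Enc [unary n, y, [b], r], w] = [b]) ∧
    (∀ (A : List Str → Str) (cA q : Polynomial ℕ), PolyTime A →
      ∃ μ : ℕ → ℝ, Negl μ ∧ ∀ (n : ℕ) (y : Str), y.length ≤ q.eval n → y ∉ lang R →
        |(avg (c.eval (n + y.length)) fun r => Pr (cA.eval (n + y.length)) fun rA =>
            A [unary n, y, Enc [unary n, y, [true], r], rA] = [true]) -
          (avg (c.eval (n + y.length)) fun r => Pr (cA.eval (n + y.length)) fun rA =>
            A [unary n, y, Enc [unary n, y, [false], r], rA] = [true])| ≤ μ n)

/-- Witness encryption for NP exists. -/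
def WitnessEncryption : Prop :=
  ∀ R : Str → Str → Prop, IsNPRelation R → HasWitnessEncryption R

/-! ## Circuits -/

/-- A Boolean circuit: a list of NAND gates, evaluated in order, each of which reads two earlier
wires (`0` being the latest wire), and the number of output bits, which are the latest wires. -/
structure Circuit where
  outs : ℕ
  gates : List (ℕ × ℕ)

/-- The values of the wires on the input `s`, the latest wire first. -/
def Circuit.wires (C : Circuit) (s : Str) : Str :=
  C.gates.foldl (fun ws g => (!(ws.getD g.1 false && ws.getD g.2 false)) :: ws) s

/-- The output of the circuit on the input `s`. -/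
def Circuit.eval (C : Circuit) (s : Str) : Str := (C.wires s).take C.outs

/-- The circuit as a string. -/
def Circuit.code (C : Circuit) : Str :=
  unary C.outs ++ (false :: C.gates.flatMap fun g => unary g.1 ++ (false :: (unary g.2 ++ [false])))

/-! ## Indistinguishability obfuscation -/

/-- The circuits have the same numbers of output bits, of gates, and of bits in their codes, and
the same values on the inputs of length `m`. -/
def Circuit.Same (m : ℕ) (C C' : Circuit) : Prop :=
  C.outs = C'.outs ∧ C.gates.length = C'.gates.length ∧ C.code.length = C'.code.length ∧
    ∀ s : Str, s.length = m → C.eval s = C'.eval s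

/-- Indistinguishability obfuscation for polynomial-size circuits exists: there is a probabilistic
polynomial-time algorithm that maps a circuit to a circuit with the same values, such that the
images of two equivalent circuits of the same size are indistinguishable for polynomial-time
adversaries with advice. Here `n` is the security parameter, `m` the number of input bits, and `a`
the advice. -/
def IndistinguishabilityObfuscation : Prop :=
  ∃ (Obf : List Str → Str) (c : Polynomial ℕ), PolyTime Obf ∧
    (∀ (n m : ℕ) (C : Circuit) (r : Str), r.length = c.eval (n + m + C.code.length) →
      ∃ C' : Circuit, Obf [unary n, unary m, C.code, r] = C'.code ∧ C'.outs = C.outs ∧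
        ∀ s : Str, s.length = m → C'.eval s = C.eval s) ∧
    (∀ (A : List Str → Str) (cA q : Polynomial ℕ), PolyTime A →
      ∃ μ : ℕ → ℝ, Negl μ ∧ ∀ (n m : ℕ) (C C' : Circuit) (a : Str), m ≤ q.eval n →
        C.code.length ≤ q.eval n → a.length ≤ q.eval n → C.Same m C' →
          |(avg (c.eval (n + m + C.code.length)) fun r => Pr (cA.eval (n + a.length)) fun rA =>
              A [unary n, a, Obf [unary n, unary m, C.code, r], rA] = [true]) -
            (avg (c.eval (n + m + C'.code.length)) fun r => Pr (cA.eval (n + a.length)) fun rA =>
              A [unary n, a, Obf [unary n, unary m, C'.code, r], rA] = [true])| ≤ μ n)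

/-! ## Interactive systems -/

/-- Content of a register of `k` bits after writing `s`. -/
def reg (k : ℕ) (s : Str) : Str := (s ++ List.replicate k false).take k

/-- Block number `i` of length `k` of the coins `r`. -/
def block (k i : ℕ) (r : Str) : Str := (r.drop (i * k)).take k

/-- A polynomial-time prover: in each round it computes its next state and its reply from the
common input, its state, fresh coins, and the incoming message. -/
structure Prover where
  /-- number of bits of the state -/
  size : Polynomial ℕ
  /-- number of fresh coins per round -/
  coins : Polynomial ℕ
  /-- bound on the length of messages -/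
  len : Polynomial ℕ
  /-- `[x, state, coins, message] ↦ new state` -/
  next : List Str → Str
  /-- `[x, state, coins, message] ↦ reply` -/
  reply : List Str → Str
  next_poly : PolyTime next
  reply_poly : PolyTime reply

/-- One round of the prover on the input `x`, with coins `c`, state `s`, incoming message `a`:
the new state and the reply. -/
def Prover.step (P : Prover) (x c s a : Str) : Str × Str :=
  (reg (P.size.eval x.length) (P.next [x, s, c, a.take (P.len.eval x.length)]),
    (P.reply [x, s, c, a.take (P.len.eval x.length)]).take (P.len.eval x.length))

/-- A polynomial-time verifier: it computes its next message and its verdict from the common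
input, its coins, and the replies it has received. -/
structure Verifier where
  /-- number of coins -/
  coins : Polynomial ℕ
  /-- `x :: coins :: replies so far ↦ message` -/
  msg : List Str → Str
  /-- `x :: coins :: replies ↦ verdict`, where `[true]` means acceptance -/
  verdict : List Str → Str
  msg_poly : PolyTime msg
  verdict_poly : PolyTime verdict

/-- The state of the prover, started with state `s`, and the list of its replies, after `i` rounds
with the verifier `V`. -/
def interact (P : Prover) (V : Verifier) (x s rP rV : Str) : ℕ → Str × List Str
  | 0 => (s, [])
  | i + 1 =>
    ((P.step x (block (P.coins.eval x.length) i rP) (interact P V x s rP rV i).1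
        (V.msg (x :: rV :: (interact P V x s rP rV i).2))).1,
      (interact P V x s rP rV i).2 ++
        [(P.step x (block (P.coins.eval x.length) i rP) (interact P V x s rP rV i).1
          (V.msg (x :: rV :: (interact P V x s rP rV i).2))).2])

/-- The probability that `V` accepts on `x` after `k` rounds with `P` started with state `s`. -/
noncomputable def acceptProb (P : Prover) (V : Verifier) (k : ℕ) (x s : Str) : ℝ :=
  avg (k * P.coins.eval x.length) fun rP => Pr (V.coins.eval x.length) fun rV =>
    V.verdict (x :: rV :: (interact P V x s rP rV k).2) = [true]

/-- An interactive system with a leak-free input encoding phase. The encoding is an arbitrary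
function of the input, the witness and coins. -/
structure Protocol where
  /-- number of rounds -/
  rounds : Polynomial ℕ
  prover : Prover
  verifier : Verifier
  /-- number of coins of the encoding -/
  encCoins : Polynomial ℕ
  /-- `x, w, coins ↦ encoded witness` -/
  encode : Str → Str → Str → Str

/-- The initial state of the prover. -/
def Protocol.init (S : Protocol) (x w r : Str) : Str :=
  reg (S.prover.size.eval x.length) (S.encode x w r)

/-- `S` is an interactive argument system for the language of `R` in which the prover is given a
witness: completeness error and soundness error are at most `1/3` on all but finitely many inputs,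
and soundness is against polynomial-time provers with an arbitrary initial state (auxiliary
input). -/
def Protocol.IsArgument (S : Protocol) (R : Str → Str → Prop) : Prop :=
  (∃ N : ℕ, ∀ x w : Str, N ≤ x.length → R x w →
    2 / 3 ≤ avg (S.encCoins.eval x.length) fun r =>
      acceptProb S.prover S.verifier (S.rounds.eval x.length) x (S.init x w r)) ∧
  (∀ P : Prover, ∃ N : ℕ, ∀ x s : Str, N ≤ x.length → x ∉ lang R →
    s.length = P.size.eval x.length →
      acceptProb P S.verifier (S.rounds.eval x.length) x s ≤ 1 / 3)

/-! ## Leakage attacks -/

/-- A probabilistic polynomial-time adversarial verifier. Its view consists of the common input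
`x`, the auxiliary input `z`, its coins, and the answers it has received. -/
structure Adversary where
  /-- number of steps -/
  steps : Polynomial ℕ
  /-- number of coins -/
  coins : Polynomial ℕ
  /-- `x :: z :: coins :: answers so far ↦ action`. The action `0a` sends the message `a` to the
  prover, and the action `1q` asks for the evaluation of the circuit with code `q` on the current
  state of the prover. -/
  act : List Str → Str
  /-- `x :: z :: coins :: answers ↦ output` -/
  out : List Str → Str
  act_poly : PolyTime act
  out_poly : PolyTime out

/-- Configurations of a leakage attack. -/
structure Conf where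
  /-- current state of the prover -/
  state : Str
  /-- number of rounds played -/
  round : ℕ
  /-- number of bits leaked -/
  leaked : ℕ
  /-- answers received by the adversary -/
  view : List Str

/-- One step of a leakage attack with at most `p` leaked bits. -/
noncomputable def attackStep (S : Protocol) (A : Adversary) (p : Polynomial ℕ) (x z rP rA : Str)
    (g : Conf) : Conf :=
  match A.act (x :: z :: rA :: g.view) with
  | [] => { g with view := g.view ++ [[]] }
  | false :: a =>
      if g.round < S.rounds.eval x.length then
        { state := (S.prover.step x (block (S.prover.coins.eval x.length) g.round rP) g.state a).1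
          round := g.round + 1
          leaked := g.leaked
          view := g.view ++
            [(S.prover.step x (block (S.prover.coins.eval x.length) g.round rP) g.state a).2] }
      else { g with view := g.view ++ [[]] }
  | true :: q =>
      open Classical in
      if h : ∃ C : Circuit, C.code = q ∧ g.leaked + C.outs ≤ p.eval x.length then
        { g with
          leaked := g.leaked + h.choose.outs
          view := g.view ++ [h.choose.eval g.state] }
      else { g with view := g.view ++ [[]] }

/-- The output of the adversary after the attack on the prover with initial state `s`. -/
noncomputable def attackOutput (S : Protocol) (A : Adversary) (p : Polynomial ℕ)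
    (x z s rP rA : Str) : Str :=
  A.out (x :: z :: rA ::
    ((attackStep S A p x z rP rA)^[A.steps.eval x.length]
      { state := s, round := 0, leaked := 0, view := [] }).view)

/-- The probability that the distinguisher `D` says `1` on the output of the adversary. -/
noncomputable def realProb (S : Protocol) (A : Adversary) (p : Polynomial ℕ) (D : List Str → Str)
    (cD : Polynomial ℕ) (x w z : Str) : ℝ :=
  avg (S.encCoins.eval x.length) fun r =>
    avg (S.rounds.eval x.length * S.prover.coins.eval x.length) fun rP =>
      avg (A.coins.eval x.length) fun rA =>
        Pr (cD.eval (x.length + z.length)) fun rD =>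
          D [x, z, attackOutput S A p x z (S.init x w r) rP rA, rD] = [true]

/-- The probability that the distinguisher `D` says `1` on the output of the simulator `Sim`. -/
noncomputable def simProb (Sim : List Str → Str) (cS : Polynomial ℕ) (D : List Str → Str)
    (cD : Polynomial ℕ) (x z : Str) : ℝ :=
  avg (cS.eval (x.length + z.length)) fun rS =>
    Pr (cD.eval (x.length + z.length)) fun rD => D [x, z, Sim [x, z, rS], rD] = [true]

/-- The adversary `A`, restricted to at most `p` leaked bits, can be simulated: there is a
probabilistic polynomial-time simulator, which makes no leakage queries, such that its output and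
the output of the adversary are computationally indistinguishable, for all inputs in the language,
all witnesses, and all auxiliary inputs `z` (of length at most `q`, for an arbitrary polynomial
`q`). -/
def Protocol.Simulatable (S : Protocol) (R : Str → Str → Prop) (p : Polynomial ℕ) (A : Adversary) :
    Prop :=
  ∃ (Sim : List Str → Str) (cS : Polynomial ℕ), PolyTime Sim ∧
    ∀ (D : List Str → Str) (cD q : Polynomial ℕ), PolyTime D →
      ∃ μ : ℕ → ℝ, Negl μ ∧ ∀ x w z : Str, R x w → z.length ≤ q.eval x.length →
        |realProb S A p D cD x w z - simProb Sim cS D cD x z| ≤ μ x.length

/-- `p`-leakage-resilient zero knowledge, with non-black-box simulation: every probabilistic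
polynomial-time adversary that obtains at most `p` leaked bits can be simulated. -/
def Protocol.LRZK (S : Protocol) (R : Str → Str → Prop) (p : Polynomial ℕ) : Prop :=
  ∀ A : Adversary, S.Simulatable R p A

end Pool.Agent.MP_8311ed_lc
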