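import Pool.Agent.MP_8311ed_lc.GatesPT
import Pool.Agent.MP_8311ed_lc.Bridge

/-!
# Evaluation of circuits given by their codes, in polynomial time
-/

set_option autoImplicit false

namespace Pool.Agent.MP_8311ed_lc

open Pool.Agent.Lib.helper60

/-- state of the evaluator: mode, counter, first index, number of outputs, wires -/
abbrev EState := ℕ × ℕ × ℕ × ℕ × Str

/-- one step of the evaluator -/
def estep (s : EState) (b : Bool) : EState :=
  if s.1 = 0 then (bif b then (0, 0, 0, s.2.2.2.1 + 1, s.2.2.2.2) else (1, 0, 0, s.2.2.2.1, s.2.2.2.2))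
  else if s.1 = 1 then (bif b then (1, s.2.1 + 1, 0, s.2.2.2.1, s.2.2.2.2)
    else (2, 0, s.2.1, s.2.2.2.1, s.2.2.2.2))
  else (bif b then (2, s.2.1 + 1, s.2.2.1, s.2.2.2.1, s.2.2.2.2)
    else (1, 0, 0, s.2.2.2.1,
      (!(s.2.2.2.2.getD s.2.2.1 false && s.2.2.2.2.getD s.2.1 false)) :: s.2.2.2.2))

/-- the evaluator -/
def evalCode (w s : Str) : Str :=
  (w.foldl estep (0, 0, 0, 0, s)).2.2.2.2.take (w.foldl estep (0, 0, 0, 0, s)).2.2.2.1

theorem foldl_unary0 (k o : ℕ) (ws : Str) :
    (unary k).foldl estep (0, 0, 0, o, ws) = (0, 0, 0, o + k, ws) := by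
  unfold unary
  induction k generalizing o with
  | zero => rfl
  | succ k ih =>
    rw [List.replicate_succ, List.foldl_cons]
    have : estep (0, 0, 0, o, ws) true = (0, 0, 0, o + 1, ws) := by simp [estep]
    rw [this, ih]
    congr 4
    omega

theorem foldl_unary1 (k c o : ℕ) (ws : Str) :
    (unary k).foldl estep (1, c, 0, o, ws) = (1, c + k, 0, o, ws) := by
  unfold unary
  induction k generalizing c with
  | zero => rfl
  | succ k ih =>
    rw [List.replicate_succ, List.foldl_cons]
    have : estep (1, c, 0, o, ws) true = (1, c + 1, 0, o, ws) := by simp [estep]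
    rw [this, ih]
    congr 2
    omega

theorem foldl_unary2 (k c i o : ℕ) (ws : Str) :
    (unary k).foldl estep (2, c, i, o, ws) = (2, c + k, i, o, ws) := by
  unfold unary
  induction k generalizing c with
  | zero => rfl
  | succ k ih =>
    rw [List.replicate_succ, List.foldl_cons]
    have : estep (2, c, i, o, ws) true = (2, c + 1, i, o, ws) := by simp [estep]
    rw [this, ih]
    congr 2
    omega

theorem foldl_gcode (gs : List (ℕ × ℕ)) : ∀ (o : ℕ) (ws : Str),
    (gcode gs).foldl estep (1, 0, 0, o, ws) = (1, 0, 0, o, runG gs ws) := by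
  induction gs with
  | nil => intro o ws; rfl
  | cons g gs ih =>
    intro o ws
    obtain ⟨i, k⟩ := g
    have e1 : gcode ((i, k) :: gs) = unary i ++ (false :: (unary k ++ (false :: gcode gs))) := by
      simp [gcode]
    rw [e1, List.foldl_append, foldl_unary1, List.foldl_cons]
    have e2 : estep (1, 0 + i, 0, o, ws) false = (2, 0, i, o, ws) := by simp [estep]
    rw [e2, List.foldl_append, foldl_unary2, List.foldl_cons]
    have e3 : estep (2, 0 + k, i, o, ws) false =
        (1, 0, 0, o, (!(ws.getD i false && ws.getD k false)) :: ws) := by simp [estep]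
    rw [e3, ih]
    rfl

theorem evalCode_code (C : Circuit) (s : Str) : evalCode C.code s = C.eval s := by
  have h : C.code.foldl estep (0, 0, 0, 0, s) = (1, 0, 0, C.outs, runG C.gates s) := by
    have e : C.code = unary C.outs ++ (false :: gcode C.gates) := rfl
    rw [e, List.foldl_append, foldl_unary0, List.foldl_cons]
    have e2 : estep (0, 0, 0, 0 + C.outs, s) false = (1, 0, 0, C.outs, s) := by simp [estep]
    rw [e2, foldl_gcode]
  unfold evalCode
  rw [h]
  rfl

theorem PT_evalCode {α : Type} [DEnc α] {w s : α → Str} (hw : PT w) (hs : PT s) :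
    PT (fun a => evalCode (w a) (s a)) := by
  have hst : PT (fun z : α × EState × Bool => estep z.2.1 z.2.2) := by
    unfold estep
    have s : PT (fun z : α × EState × Bool => z.2.1) := PT.snd.p1
    have b : PT (fun z : α × EState × Bool => z.2.2) := PT.snd.p2
    have ws := s.p2.p2.p2.p2
    have o := s.p2.p2.p2.p1
    refine PT.ite (PT.neq s.p1 (PT.const 0)) (PT.cond b ?_ ?_)
      (PT.ite (PT.neq s.p1 (PT.const 1)) (PT.cond b ?_ ?_) (PT.cond b ?_ ?_))
    · exact PT.pair (PT.const 0) (PT.pair (PT.const 0) (PT.pair (PT.const 0)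
        (PT.pair (PT.nsucc o) ws)))
    · exact PT.pair (PT.const 1) (PT.pair (PT.const 0) (PT.pair (PT.const 0) (PT.pair o ws)))
    · exact PT.pair (PT.const 1) (PT.pair (PT.nsucc s.p2.p1) (PT.pair (PT.const 0) (PT.pair o ws)))
    · exact PT.pair (PT.const 2) (PT.pair (PT.const 0) (PT.pair s.p2.p1 (PT.pair o ws)))
    · exact PT.pair (PT.const 2) (PT.pair (PT.nsucc s.p2.p1) (PT.pair s.p2.p2.p1
        (PT.pair o ws)))
    · exact PT.pair (PT.const 1) (PT.pair (PT.const 0) (PT.pair (PT.const 0) (PT.pair o
        (PT.cons (PT.bnot (PT.band (PT.getD ws s.p2.p2.p1 (PT.const false))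
          (PT.getD ws s.p2.p1 (PT.const false)))) ws))))
  have hf := PT.foldl_lin (init := fun a => ((0, 0, 0, 0, s a) : EState)) hw
    (PT.pair (PT.const 0) (PT.pair (PT.const 0) (PT.pair (PT.const 0) (PT.pair (PT.const 0) hs))))
    hst 20 (by
      rintro x ⟨mode, k, i, o, ws⟩ b
      have e1 : tsize true = 3 := rfl
      have e2 : tsize false = 1 := rfl
      unfold estep
      split_ifs
      · cases b <;> simp only [cond_true, cond_false, tsize_pair, tsize_nat] <;> omega
      · cases b <;> simp only [cond_true, cond_false, tsize_pair, tsize_nat] <;> omega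
      · cases b
        · simp only [cond_false, tsize_pair, tsize_nat, tsize_cons]
          have := tsize_bool_le (!(ws.getD i false && ws.getD k false))
          omega
        · simp only [cond_true, tsize_pair, tsize_nat]
          omega)
  exact PT_take hf.p2.p2.p2.p1 hf.p2.p2.p2.p2

end Pool.Agent.MP_8311ed_lc
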