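import Pool.Agent.MP_8311ed_lc.Defs

/-!
# Lists of NAND gates: expressions, blocks
-/

set_option autoImplicit false

namespace Pool.Agent.MP_8311ed_lc

/-- Run a list of NAND gates on a list of wires (the latest wire first). -/
def runG (gs : List (ℕ × ℕ)) (ws : Str) : Str :=
  gs.foldl (fun ws g => (!(ws.getD g.1 false && ws.getD g.2 false)) :: ws) ws

theorem Circuit.wires_eq (C : Circuit) (s : Str) : C.wires s = runG C.gates s := rfl

theorem runG_append (gs gs' : List (ℕ × ℕ)) (ws : Str) :
    runG (gs ++ gs') ws = runG gs' (runG gs ws) := by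
  simp [runG, List.foldl_append]

/-- the old wires are kept -/
theorem runG_getD_add (gs : List (ℕ × ℕ)) (ws : Str) (i : ℕ) :
    (runG gs ws).getD (gs.length + i) false = ws.getD i false := by
  induction gs generalizing ws i with
  | nil => simp [runG]
  | cons g gs ih =>
    have h := ih ((!(ws.getD g.1 false && ws.getD g.2 false)) :: ws) (i + 1)
    have e : (g :: gs).length + i = gs.length + (i + 1) := by
      simp only [List.length_cons]; omega
    rw [e]
    have e2 : runG (g :: gs) ws
        = runG gs ((!(ws.getD g.1 false && ws.getD g.2 false)) :: ws) := rfl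
    rw [e2, h, List.getD_cons_succ]

/-- Boolean expressions over the variables `V`. -/
inductive Ex (V : Type) : Type
  | var (v : V) : Ex V
  | cst (b : Bool) : Ex V
  | nand (a b : Ex V) : Ex V

variable {V : Type}

/-- The value of an expression. -/
def Ex.eval (env : V → Bool) : Ex V → Bool
  | .var v => env v
  | .cst b => b
  | .nand a b => !(a.eval env && b.eval env)

/-- The number of gates of an expression. -/
def Ex.size : Ex V → ℕ
  | .var _ => 2
  | .cst _ => 3
  | .nand a b => a.size + b.size + 1

/-- The gates computing an expression. The variable `v` is the wire `pos v + k` at the beginning;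
the value of the expression is the latest wire at the end. -/
def Ex.gates (pos : V → ℕ) : Ex V → ℕ → List (ℕ × ℕ)
  | .var v, k => [(pos v + k, pos v + k), (0, 0)]
  | .cst b, _ => if b then [(0, 0), (0, 0), (1, 0)] else [(0, 0), (1, 0), (0, 0)]
  | .nand a b, k => a.gates pos k ++ (b.gates pos (k + a.size) ++ [(b.size, 0)])

theorem Ex.gates_length (pos : V → ℕ) (e : Ex V) (k : ℕ) :
    (e.gates pos k).length = e.size := by
  induction e generalizing k with
  | var v => simp [Ex.gates, Ex.size]
  | cst b => cases b <;> simp [Ex.gates, Ex.size]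
  | nand a b iha ihb =>
    simp only [Ex.gates, Ex.size, List.length_append, iha, ihb, List.length_cons,
      List.length_nil]
    omega

theorem Ex.gates_correct (pos : V → ℕ) (e : Ex V) (k : ℕ) (ws : Str) :
    (runG (e.gates pos k) ws).getD 0 false =
      e.eval (fun v => ws.getD (pos v + k) false) := by
  induction e generalizing k ws with
  | var v => simp [Ex.gates, Ex.eval, runG]
  | cst b =>
    cases b
    · simp [Ex.gates, Ex.eval, runG]
    · simp [Ex.gates, Ex.eval, runG]
  | nand a b iha ihb =>
    simp only [Ex.gates, Ex.eval, runG_append]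
    have hA := iha k ws
    have hB := ihb (k + a.size) (runG (a.gates pos k) ws)
    have hold : ∀ i, (runG (a.gates pos k) ws).getD (a.size + i) false = ws.getD i false := by
      intro i
      have := runG_getD_add (a.gates pos k) ws i
      rwa [Ex.gates_length] at this
    have henv : (fun v => (runG (a.gates pos k) ws).getD (pos v + (k + a.size)) false)
        = (fun v => ws.getD (pos v + k) false) := by
      funext v
      have e1 : pos v + (k + a.size) = a.size + (pos v + k) := by omega
      rw [e1, hold]
    rw [henv] at hB
    have hA2 : (runG (b.gates pos (k + a.size)) (runG (a.gates pos k) ws)).getD b.size false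
        = a.eval (fun v => ws.getD (pos v + k) false) := by
      have := runG_getD_add (b.gates pos (k + a.size)) (runG (a.gates pos k) ws) 0
      rw [Ex.gates_length, Nat.add_zero] at this
      rw [this, hA]
    rw [← hB, ← hA2]
    simp [runG]

/-- Renaming of the variables. -/
def Ex.map {V W : Type} (g : V → W) : Ex V → Ex W
  | .var v => .var (g v)
  | .cst b => .cst b
  | .nand a b => .nand (a.map g) (b.map g)

theorem Ex.eval_map {V W : Type} (g : V → W) (e : Ex V) (env : W → Bool) :
    (e.map g).eval env = e.eval (fun v => env (g v)) := by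
  induction e with
  | var v => rfl
  | cst b => rfl
  | nand a b iha ihb => simp [Ex.map, Ex.eval, iha, ihb]

/-- Every Boolean function of finitely many variables is given by an expression. -/
theorem Ex.exists_eval [Finite V] (f : (V → Bool) → Bool) :
    ∃ e : Ex V, ∀ env, e.eval env = f env := by
  classical
  obtain ⟨n, ⟨φ⟩⟩ := Finite.exists_equiv_fin V
  have key : ∀ n : ℕ, ∀ g : (Fin n → Bool) → Bool,
      ∃ e : Ex (Fin n), ∀ env, e.eval env = g env := by
    intro n
    induction n with
    | zero =>
      intro g
      refine ⟨.cst (g Fin.elim0), fun env => ?_⟩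
      have : env = Fin.elim0 := funext fun i => i.elim0
      rw [this]; rfl
    | succ n ih =>
      intro g
      obtain ⟨e₁, h₁⟩ := ih (fun x => g (Fin.cons true x))
      obtain ⟨e₀, h₀⟩ := ih (fun x => g (Fin.cons false x))
      refine ⟨.nand (.nand (.var 0) (e₁.map Fin.succ))
        (.nand (.nand (.var 0) (.cst true)) (e₀.map Fin.succ)), fun env => ?_⟩
      have ht : env = Fin.cons (env 0) (fun i => env (Fin.succ i)) := by
        funext i
        refine Fin.cases ?_ (fun j => ?_) i
        · simp
        · simp
      simp only [Ex.eval, Ex.eval_map, h₁, h₀]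
      cases h : env 0
      · rw [h] at ht
        conv_rhs => rw [ht]
        simp
      · rw [h] at ht
        conv_rhs => rw [ht]
        simp
  obtain ⟨e, he⟩ := key n (fun x => f (fun v => x (φ v)))
  refine ⟨e.map φ.symm, fun env => ?_⟩
  rw [Ex.eval_map, he]
  congr 1
  funext v
  simp

/-- The gates of an expression, preceded by idle gates, `σ` gates in total. -/
def slot (σ : ℕ) (pos : V → ℕ) (e : Ex V) (k : ℕ) : List (ℕ × ℕ) :=
  List.replicate (σ - e.size) (0, 0) ++ e.gates pos (k + (σ - e.size))

/-- The gates of the `r` expressions `F (r-1), ..., F 0`, in slots of `σ` gates. -/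
def blk (σ : ℕ) (pos : V → ℕ) (F : ℕ → Ex V) : ℕ → ℕ → List (ℕ × ℕ)
  | 0, _ => []
  | r + 1, k => slot σ pos (F r) k ++ blk σ pos F r (k + σ)

theorem slot_length (σ : ℕ) (pos : V → ℕ) (e : Ex V) (k : ℕ) (he : e.size ≤ σ) :
    (slot σ pos e k).length = σ := by
  simp only [slot, List.length_append, List.length_replicate, Ex.gates_length]
  omega

theorem slot_correct (σ : ℕ) (pos : V → ℕ) (e : Ex V) (k : ℕ) (ws : Str) :
    (runG (slot σ pos e k) ws).getD 0 false =
      e.eval (fun v => ws.getD (pos v + k) false) := by
  simp only [slot, runG_append]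
  rw [Ex.gates_correct]
  congr 1
  funext v
  have h := runG_getD_add (List.replicate (σ - e.size) (0, 0)) ws (pos v + k)
  rw [List.length_replicate] at h
  have e1 : pos v + (k + (σ - e.size)) = (σ - e.size) + (pos v + k) := by omega
  rw [e1, h]

theorem blk_length (σ : ℕ) (pos : V → ℕ) (F : ℕ → Ex V) (r k : ℕ)
    (hF : ∀ i < r, (F i).size ≤ σ) : (blk σ pos F r k).length = r * σ := by
  induction r generalizing k with
  | zero => simp [blk]
  | succ r ih =>
    have h1 := slot_length σ pos (F r) k (hF r (Nat.lt_succ_self r))
    have h2 := ih (k + σ) (fun i hi => hF i (by omega))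
    simp only [blk, List.length_append, h1, h2]
    ring

theorem blk_correct_aux (σ : ℕ) (pos : V → ℕ) (F : ℕ → Ex V) (r k : ℕ)
    (hF : ∀ i < r, (F i).size ≤ σ) (ws : Str) (i : ℕ) (hi : i < r) :
    (runG (blk σ pos F r k) ws).getD (σ * i) false =
      (F i).eval (fun v => ws.getD (pos v + k) false) := by
  induction r generalizing k ws with
  | zero => omega
  | succ r ih =>
    have hsl := slot_length σ pos (F r) k (hF r (Nat.lt_succ_self r))
    have hF' : ∀ i < r, (F i).size ≤ σ := fun i hi => hF i (by omega)
    simp only [blk, runG_append]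
    by_cases hir : i = r
    · subst hir
      have h := runG_getD_add (blk σ pos F i (k + σ)) (runG (slot σ pos (F i) k) ws) 0
      rw [blk_length σ pos F i (k + σ) hF', Nat.add_zero, Nat.mul_comm i σ] at h
      rw [h, slot_correct]
    · have hlt : i < r := by omega
      rw [ih (k + σ) hF' (runG (slot σ pos (F r) k) ws) hlt]
      congr 1
      funext v
      have h := runG_getD_add (slot σ pos (F r) k) ws (pos v + k)
      rw [hsl] at h
      have e1 : pos v + (k + σ) = σ + (pos v + k) := by omega
      rw [e1, h]

/-- The value of `F i` is the wire `σ * i` after the block. -/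
theorem blk_correct (σ : ℕ) (pos : V → ℕ) (F : ℕ → Ex V) (r : ℕ)
    (hF : ∀ i < r, (F i).size ≤ σ) (ws : Str) (i : ℕ) (hi : i < r) :
    (runG (blk σ pos F r 0) ws).getD (σ * i) false =
      (F i).eval (fun v => ws.getD (pos v) false) := by
  have := blk_correct_aux σ pos F r 0 hF ws i hi
  simpa using this

end Pool.Agent.MP_8311ed_lc
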