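import Pool.Agent.MP_8311ed_lc.Attack

/-!
# The leakage circuit, the decision procedure, the attack on witness encryption
-/

set_option autoImplicit false

namespace Pool.Agent.MP_8311ed_lc

open Pool.Agent.Lib.helper60 Pool.Agent.MP_92db0f_lc

theorem tsize_le_str (s : Str) : tsize s ≤ 4 * s.length + 1 := by
  induction s with
  | nil => simp
  | cons b s ih =>
    have := tsize_bool_le b
    simp only [tsize_cons, List.length_cons]
    omega

section

variable (S : Protocol) (Enc Dec Sim : List Str → Str) (c cS : Polynomial ℕ) (Kf : Str × ℕ → Str)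

/-- the predicate computed by the leakage circuit -/
noncomputable def leakB (a : Str × Str) : Bool :=
  S.relB (codeTuple [(parse a.1).getD 0 [], (parse a.1).getD 1 []]) a.2 &&
  decide (Dec [unary ((parse a.1).getD 0 []).length,
    codeTuple [(parse a.1).getD 0 [], (parse a.1).getD 1 []], (parse a.1).getD 2 [], a.2] = [true])

theorem PT_leakB (hDec : PolyTime Dec) : PT (leakB S Dec) := by
  have hp : PT (fun a : Str × Str => parse a.1) := PT_parse.comp PT.fst
  have h0 : PT (fun a : Str × Str => (parse a.1).getD 0 []) :=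
    PT.getD hp (PT.const 0) (PT.const [])
  have h1 : PT (fun a : Str × Str => (parse a.1).getD 1 []) :=
    PT.getD hp (PT.const 1) (PT.const [])
  have h2 : PT (fun a : Str × Str => (parse a.1).getD 2 []) :=
    PT.getD hp (PT.const 2) (PT.const [])
  have hc : PT (fun a : Str × Str => codeTuple [(parse a.1).getD 0 [], (parse a.1).getD 1 []]) :=
    PT_codeTuple.comp (PT.cons h0 (PT.cons h1 (PT.const [])))
  have hd := hDec.pt.comp (PT.cons (PT_unary.comp (PT.length h0)) (PT.cons hc (PT.cons h2
    (PT.cons PT.snd (PT.const [])))))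
  exact PT.band ((PT_relB S).comp (PT.pair hc PT.snd)) (PT_streq hd (PT.const [true]))

theorem leakB_code (x ρ ct s : Str) : leakB S Dec (codeTuple [x, ρ, ct], s) =
    (S.relB (codeTuple [x, ρ]) s &&
      decide (Dec [unary x.length, codeTuple [x, ρ], ct, s] = [true])) := by
  simp only [leakB, parse_code, List.getD_cons_zero, List.getD_cons_succ]

/-- the code of the leakage circuit -/
noncomputable def circ (x ρ ct : Str) : Str :=
  Kf (codeTuple [x, ρ, ct], S.prover.size.eval x.length)

theorem PT_circ (hKf : PT Kf) {α : Type} [DEnc α] {x ρ ct : α → Str} (hx : PT x) (hρ : PT ρ)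
    (hct : PT ct) : PT (fun a => circ S Kf (x a) (ρ a) (ct a)) :=
  hKf.comp (PT.pair (PT_codeTuple.comp (PT.cons hx (PT.cons hρ (PT.cons hct (PT.const [])))))
    (PT_peval _ (PT.length hx)))

/-- the code of the leakage circuit, from the coins of the encryption -/
noncomputable def zS (x ρ b rE : Str) : Str :=
  circ S Kf x ρ (Enc [unary x.length, codeTuple [x, ρ], b, rE])

theorem PT_zS (hEnc : PolyTime Enc) (hKf : PT Kf) {α : Type} [DEnc α] {x ρ b rE : α → Str}
    (hx : PT x) (hρ : PT ρ) (hb : PT b) (hrE : PT rE) :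
    PT (fun a => zS S Enc Kf (x a) (ρ a) (b a) (rE a)) :=
  PT_circ S Kf hKf hx hρ (hEnc.pt.comp (PT.cons (PT_unary.comp (PT.length hx)) (PT.cons
    (PT_codeTuple.comp (PT.cons hx (PT.cons hρ (PT.const [])))) (PT.cons hb (PT.cons hrE
      (PT.const []))))))

/-- `n` plus the length of the instance, as a polynomial -/
noncomputable def Protocol.yPoly : Polynomial ℕ :=
  Polynomial.X + (2 * Polynomial.X + 2 * S.testPoly + 4)

theorem yPoly_eval (x ρ : Str) (hρ : ρ.length = S.testBits x.length) :
    S.yPoly.eval x.length = x.length + (codeTuple [x, ρ]).length := by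
  rw [length_codeTuple_pair, hρ]
  simp only [Protocol.yPoly, Polynomial.eval_add, Polynomial.eval_mul, Polynomial.eval_X,
    Polynomial.eval_ofNat, S.testPoly_eval]

/-- the number of coins of the encryption -/
noncomputable def cE : Polynomial ℕ := c.comp S.yPoly

theorem cE_eval (x ρ : Str) (hρ : ρ.length = S.testBits x.length) :
    (cE S c).eval x.length = c.eval (x.length + (codeTuple [x, ρ]).length) := by
  rw [cE, Polynomial.eval_comp, yPoly_eval S x ρ hρ]

theorem exists_zbound (hEnc : PolyTime Enc) (hKf : PT Kf) : ∃ q : Polynomial ℕ,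
    ∀ x ρ b rE : Str, ρ.length = S.testBits x.length → b.length = 1 →
      rE.length = (cE S c).eval x.length → (zS S Enc Kf x ρ b rE).length ≤ q.eval x.length := by
  have h : PT (fun a : Str × Str × Str × Str => zS S Enc Kf a.1 a.2.1 a.2.2.1 a.2.2.2) :=
    PT_zS S Enc Kf hEnc hKf PT.fst PT.snd.p1 PT.snd.p2.p1 PT.snd.p2.p2
  obtain ⟨P, hP⟩ := h.size
  refine ⟨P.comp (4 * (Polynomial.X + S.testPoly + 1 + cE S c) + 7), fun x ρ b rE hρ hb hrE => ?_⟩
  have h1 := hP (x, ρ, b, rE)
  have h2 := (length_lt_tsize (zS S Enc Kf x ρ b rE)).le.trans h1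
  rw [Polynomial.eval_comp]
  refine h2.trans (evalMono P ?_)
  simp only [tsize_pair, Polynomial.eval_add, Polynomial.eval_mul, Polynomial.eval_X,
    Polynomial.eval_ofNat, Polynomial.eval_one, S.testPoly_eval]
  have e1 := tsize_le_str x
  have e2 := tsize_le_str ρ
  have e3 := tsize_le_str b
  have e4 := tsize_le_str rE
  rw [hρ] at e2
  rw [hb] at e3
  rw [hrE] at e4
  omega

/-- The probability that the simulator outputs `1` when the bit `b` is encrypted. -/
noncomputable def simP (b : Bool) (x ρ : Str) : ℝ :=
  avg ((cE S c).eval x.length) fun rE =>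
    Pr (cS.eval (x.length + (zS S Enc Kf x ρ [b] rE).length)) fun rS =>
      Sim [x, zS S Enc Kf x ρ [b] rE, rS] = [true]

theorem simP_nonneg (b : Bool) (x ρ : Str) : 0 ≤ simP S Enc Sim c cS Kf b x ρ :=
  avg_nonneg fun _ => Pr_nonneg _ _

theorem simP_le_one (b : Bool) (x ρ : Str) : simP S Enc Sim c cS Kf b x ρ ≤ 1 := by
  have : simP S Enc Sim c cS Kf b x ρ ≤ avg ((cE S c).eval x.length) fun _ => 1 :=
    avg_mono fun _ _ => Pr_le_one _ _
  rwa [avg_const] at this

theorem Pr_take {a b : ℕ} (h : a ≤ b) (E : Str → Prop) :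
    Pr b (fun r => E (r.take a)) = Pr a E := by
  obtain ⟨d, rfl⟩ := Nat.exists_eq_add_of_le h
  exact avg_take a d fun r => @ite ℝ (E r) (Classical.propDecidable _) 1 0

/-! ### the decision procedure -/

/-- the decision procedure -/
noncomputable def decider (l : List Str) : Str :=
  let x := l.getD 0 []
  let r := l.getD 1 []
  let ρ := r.take (S.testPoly.eval x.length)
  let r1 := r.drop (S.testPoly.eval x.length)
  let b := r1.take 1
  let r2 := r1.drop 1
  let rE := r2.take ((cE S c).eval x.length)
  let r3 := r2.drop ((cE S c).eval x.length)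
  let z := zS S Enc Kf x ρ b rE
  [decide (decide (Sim [x, z, r3.take (cS.eval (x.length + z.length))] = [true]) =
    decide (b = [true]))]

theorem decider_polyTime (hEnc : PolyTime Enc) (hKf : PT Kf) (hSim : PolyTime Sim) :
    PolyTime (decider S Enc Sim c cS Kf) := by
  apply PolyTime.of_pt
  have x : PT (fun l : List Str => l.getD 0 []) := PT.getD PT.id (PT.const 0) (PT.const [])
  have r : PT (fun l : List Str => l.getD 1 []) := PT.getD PT.id (PT.const 1) (PT.const [])
  have t := PT_peval S.testPoly (PT.length x)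
  have ρ := PT_take t r
  have r1 := PT.drop t r
  have b := PT_take (PT.const 1) r1
  have r2 := PT.drop (PT.const 1) r1
  have e := PT_peval (cE S c) (PT.length x)
  have rE := PT_take e r2
  have r3 := PT.drop e r2
  have z := PT_zS S Enc Kf hEnc hKf x ρ b rE
  have k := PT_peval cS (PT.nadd (PT.length x) (PT.length z))
  have s := hSim.pt.comp (PT.cons x (PT.cons z (PT.cons (PT_take k r3) (PT.const []))))
  exact PT.cons (PT.beq (PT_streq s (PT.const [true])) (PT_streq b (PT.const [true])))
    (PT.const [])

theorem decider_prob (q : Polynomial ℕ)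
    (hq : ∀ x ρ b rE : Str, ρ.length = S.testBits x.length → b.length = 1 →
      rE.length = (cE S c).eval x.length → (zS S Enc Kf x ρ b rE).length ≤ q.eval x.length)
    (x : Str) :
    Pr ((S.testPoly + (1 + (cE S c + cS.comp (Polynomial.X + q)))).eval x.length)
      (fun r => decider S Enc Sim c cS Kf [x, r] = [true]) =
    avg (S.testBits x.length) fun ρ =>
      (simP S Enc Sim c cS Kf true x ρ + (1 - simP S Enc Sim c cS Kf false x ρ)) / 2 := by
  have hev : (S.testPoly + (1 + (cE S c + cS.comp (Polynomial.X + q)))).eval x.length =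
      S.testBits x.length + (1 + ((cE S c).eval x.length +
        cS.eval (x.length + q.eval x.length))) := by
    simp [Polynomial.eval_comp, S.testPoly_eval]
  rw [hev]
  unfold Pr
  rw [avg_split]
  refine avg_congr fun ρ hρ => ?_
  rw [avg_split, avg_one, avg_split, avg_split]
  have key : ∀ (b : Bool) (rE rS : Str), rE.length = (cE S c).eval x.length →
      rS.length = cS.eval (x.length + q.eval x.length) →
      (decider S Enc Sim c cS Kf [x, ρ ++ ([b] ++ (rE ++ rS))] = [true] ↔
        (Sim [x, zS S Enc Kf x ρ [b] rE, rS.take (cS.eval (x.length +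
          (zS S Enc Kf x ρ [b] rE).length))] = [true] ↔ b = true)) := by
    intro b rE rS hE hS
    have e0 : ([x, ρ ++ ([b] ++ (rE ++ rS))] : List Str).getD 0 [] = x := rfl
    have e1 : ([x, ρ ++ ([b] ++ (rE ++ rS))] : List Str).getD 1 [] = ρ ++ ([b] ++ (rE ++ rS)) := rfl
    have e2 : (ρ ++ ([b] ++ (rE ++ rS))).take (S.testPoly.eval x.length) = ρ := by
      rw [S.testPoly_eval, ← hρ, List.take_left]
    have e3 : (ρ ++ ([b] ++ (rE ++ rS))).drop (S.testPoly.eval x.length) =
        [b] ++ (rE ++ rS) := by
      rw [S.testPoly_eval, ← hρ, List.drop_left]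
    have e4 : ([b] ++ (rE ++ rS)).take 1 = [b] := rfl
    have e5 : ([b] ++ (rE ++ rS)).drop 1 = rE ++ rS := rfl
    have e6 : (rE ++ rS).take ((cE S c).eval x.length) = rE := by rw [← hE, List.take_left]
    have e7 : (rE ++ rS).drop ((cE S c).eval x.length) = rS := by rw [← hE, List.drop_left]
    unfold decider
    simp only [e0, e1, e2, e3, e4, e5, e6, e7]
    simp only [List.cons.injEq, and_true, decide_eq_true_eq]
    cases b <;> simp
  have hbound : ∀ (b : Bool) (rE : Str), rE.length = (cE S c).eval x.length →
      cS.eval (x.length + (zS S Enc Kf x ρ [b] rE).length) ≤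
        cS.eval (x.length + q.eval x.length) := by
    intro b rE hE
    exact evalMono cS (Nat.add_le_add_left (hq x ρ [b] rE hρ rfl hE) _)
  have h1 : (avg ((cE S c).eval x.length) fun rE =>
      Pr (cS.eval (x.length + q.eval x.length)) fun rS =>
        decider S Enc Sim c cS Kf [x, ρ ++ ([true] ++ (rE ++ rS))] = [true]) =
          simP S Enc Sim c cS Kf true x ρ := by
    refine avg_congr fun rE hE => ?_
    rw [← Pr_take (hbound true rE hE)]
    refine Pr_congr fun rS hS => ?_
    rw [key true rE rS hE hS]
    simp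
  have h2 : (avg ((cE S c).eval x.length) fun rE =>
      Pr (cS.eval (x.length + q.eval x.length)) fun rS =>
        decider S Enc Sim c cS Kf [x, ρ ++ ([false] ++ (rE ++ rS))] = [true]) =
          1 - simP S Enc Sim c cS Kf false x ρ := by
    have : (1 : ℝ) - simP S Enc Sim c cS Kf false x ρ =
        avg ((cE S c).eval x.length) fun rE => 1 -
          Pr (cS.eval (x.length + (zS S Enc Kf x ρ [false] rE).length)) fun rS =>
            Sim [x, zS S Enc Kf x ρ [false] rE, rS] = [true] := by
      rw [avg_sub, avg_const]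
      rfl
    rw [this]
    refine avg_congr fun rE hE => ?_
    rw [← Pr_take (hbound false rE hE), ← Pr_compl]
    refine Pr_congr fun rS hS => ?_
    rw [key false rE rS hE hS]
    simp
  rw [← h1, ← h2]
  rfl

/-! ### the attack on witness encryption -/

/-- the adversary against witness encryption -/
noncomputable def weAdv (l : List Str) : Str :=
  let y := l.getD 1 []
  let x := (parse y).getD 0 []
  let z := circ S Kf x ((parse y).getD 1 []) (l.getD 2 [])
  Sim [x, z, (l.getD 3 []).take (cS.eval (x.length + z.length))]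

theorem weAdv_polyTime (hKf : PT Kf) (hSim : PolyTime Sim) : PolyTime (weAdv S Sim cS Kf) := by
  apply PolyTime.of_pt
  have y : PT (fun l : List Str => l.getD 1 []) := PT.getD PT.id (PT.const 1) (PT.const [])
  have x := PT.getD (PT_parse.comp y) (PT.const 0) (PT.const [])
  have ρ := PT.getD (PT_parse.comp y) (PT.const 1) (PT.const [])
  have ct : PT (fun l : List Str => l.getD 2 []) := PT.getD PT.id (PT.const 2) (PT.const [])
  have rA : PT (fun l : List Str => l.getD 3 []) := PT.getD PT.id (PT.const 3) (PT.const [])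
  have z := PT_circ S Kf hKf x ρ ct
  have k := PT_peval cS (PT.nadd (PT.length x) (PT.length z))
  exact hSim.pt.comp (PT.cons x (PT.cons z (PT.cons (PT_take k rA) (PT.const []))))

theorem weAdv_prob (q : Polynomial ℕ)
    (hq : ∀ x ρ b rE : Str, ρ.length = S.testBits x.length → b.length = 1 →
      rE.length = (cE S c).eval x.length → (zS S Enc Kf x ρ b rE).length ≤ q.eval x.length)
    (x ρ : Str) (hρ : ρ.length = S.testBits x.length) (b : Bool) :
    (avg (c.eval (x.length + (codeTuple [x, ρ]).length)) fun r =>
      Pr ((cS.comp (Polynomial.X + q)).eval (x.length + (codeTuple [x, ρ]).length)) fun rA =>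
        weAdv S Sim cS Kf [unary x.length, codeTuple [x, ρ],
          Enc [unary x.length, codeTuple [x, ρ], [b], r], rA] = [true]) =
      simP S Enc Sim c cS Kf b x ρ := by
  unfold simP
  rw [cE_eval S c x ρ hρ]
  refine avg_congr fun r hr => ?_
  have hb : cS.eval (x.length + (zS S Enc Kf x ρ [b] r).length) ≤
      (cS.comp (Polynomial.X + q)).eval (x.length + (codeTuple [x, ρ]).length) := by
    rw [Polynomial.eval_comp, Polynomial.eval_add, Polynomial.eval_X]
    refine evalMono cS (Nat.add_le_add (Nat.le_add_right _ _) ?_)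
    refine (hq x ρ [b] r hρ rfl ?_).trans (evalMono q (Nat.le_add_right _ _))
    rw [cE_eval S c x ρ hρ, hr]
  rw [← Pr_take hb]
  refine Pr_congr fun rA hA => ?_
  unfold weAdv
  simp only [List.getD_cons_zero, List.getD_cons_succ, parse_code]
  rfl

end

end Pool.Agent.MP_8311ed_lc
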