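import Pool.Agent.MP_8311ed_lc.Test
import Pool.Agent.MP_8311ed_lc.Prob2

/-!
# Probability that the test accepts
-/

set_option autoImplicit false

namespace Pool.Agent.MP_8311ed_lc

theorem len_filter_sum (P : ℕ → Bool) (K : ℕ) : (((List.range K).filter P).length : ℝ) =
    ∑ i ∈ Finset.range K, (if P i = true then (1 : ℝ) else 0) := by
  induction K with
  | zero => simp
  | succ K ih =>
    rw [List.range_succ, List.filter_append, List.length_append, Nat.cast_add, ih,
      Finset.sum_range_succ]
    congr 1
    by_cases h : P K = true
    · simp [h]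
    · simp [h]

theorem prod_filter_two (P : ℕ → Bool) (K : ℕ) :
    ∏ i ∈ Finset.range K, (if P i = true then (2 : ℝ) else 1) =
      2 ^ ((List.range K).filter P).length := by
  induction K with
  | zero => simp
  | succ K ih =>
    rw [List.range_succ, List.filter_append, List.length_append, pow_add, Finset.prod_range_succ,
      ih]
    congr 1
    by_cases h : P K = true
    · simp [h]
    · simp [h]

theorem Pr_eq_avg_bool (n : ℕ) (b : Str → Bool) :
    Pr n (fun r => b r = true) = avg n fun r => if b r = true then (1 : ℝ) else 0 := by
  unfold Pr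
  refine avg_congr fun r _ => ?_
  by_cases h : b r = true
  · rw [if_pos h, if_pos h]
  · rw [if_neg h, if_neg h]

theorem acceptProb_eq (S : Protocol) (x s : Str) :
    acceptProb S.prover S.verifier (S.rounds.eval x.length) x s =
      Pr (S.runBits x.length) fun ρ => S.accB x s ρ = true := by
  unfold acceptProb
  unfold Protocol.runBits
  rw [Pr_eq_avg_bool, avg_split]
  unfold Protocol.pBits
  refine avg_congr fun rP hP => ?_
  unfold Pr
  refine avg_congr fun rV hV => ?_
  have h1 : (rP ++ rV).take (S.pBits x.length) = rP := by
    unfold Protocol.pBits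
    rw [← hP, List.take_left]
  have h2 : (rP ++ rV).drop (S.pBits x.length) = rV := by
    unfold Protocol.pBits
    rw [← hP, List.drop_left]
  have h3 : (S.accB x s (rP ++ rV) = true) ↔
      (S.verifier.verdict (x :: rV ::
        (interact S.prover S.verifier x s rP rV (S.rounds.eval x.length)).2) = [true]) := by
    unfold Protocol.accB
    rw [h1, h2, decide_eq_true_iff]
  by_cases h : S.accB x s (rP ++ rV) = true
  · rw [if_pos h, if_pos (h3.1 h)]
  · rw [if_neg h, if_neg (fun h' => h (h3.2 h'))]

/-- The average of the weight `2` for accepting executions. -/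
theorem avg_two (S : Protocol) (x s : Str) :
    avg (S.runBits x.length) (fun ρ => if S.accB x s ρ = true then (2 : ℝ) else 1) =
      1 + acceptProb S.prover S.verifier (S.rounds.eval x.length) x s := by
  rw [acceptProb_eq, Pr_eq_avg_bool]
  have h : (1 : ℝ) = avg (S.runBits x.length) (fun _ => (1 : ℝ)) := (avg_const _ _).symm
  rw [h, ← avg_add]
  refine avg_congr fun r _ => ?_
  rw [← h]
  by_cases h1 : S.accB x s r = true
  · rw [if_pos h1, if_pos h1]; norm_num
  · rw [if_neg h1, if_neg h1]; norm_num

theorem pow_bound (m n : ℕ) : ((8 : ℝ) / 9) ^ (6 * (m + n)) ≤ 1 / 2 ^ (m + n) := by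
  rw [pow_mul, one_div, ← inv_pow]
  exact pow_le_pow_left₀ (by norm_num) (by norm_num) _

/-- A state with acceptance probability at most `1/3` rarely passes the test. -/
theorem test_one (S : Protocol) (x s : Str)
    (h : acceptProb S.prover S.verifier (S.rounds.eval x.length) x s ≤ 1 / 3) :
    Pr (S.testBits x.length) (fun ρ => S.test x s ρ = true) ≤
      1 / 2 ^ (S.prover.size.eval x.length + x.length) := by
  set k := S.half x.length with hk
  have hp0 : 0 ≤ acceptProb S.prover S.verifier (S.rounds.eval x.length) x s := by
    rw [acceptProb_eq]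
    exact Pr_nonneg _ _
  set f : Str → ℝ := fun ρ => ∏ i ∈ Finset.range (2 * k),
    (fun (_ : ℕ) (r : Str) => if S.accB x s r = true then (2 : ℝ) else 1) i
      (block (S.runBits x.length) i ρ) with hf
  have hf0 : ∀ r, 0 ≤ f r := by
    intro r
    simp only [hf]
    refine Finset.prod_nonneg fun i _ => ?_
    split_ifs <;> norm_num
  have hfe : ∀ r, f r = 2 ^ ((List.range (2 * k)).filter fun i =>
      S.accB x s (block (S.runBits x.length) i r)).length := by
    intro r
    simp only [hf]
    exact prod_filter_two (fun i => S.accB x s (block (S.runBits x.length) i r)) (2 * k)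
  have h1 : Pr (S.testBits x.length) (fun ρ => S.test x s ρ = true) ≤
      Pr (S.testBits x.length) (fun ρ => (2 : ℝ) ^ k ≤ f ρ) := by
    refine Pr_mono fun r _ hr => ?_
    unfold Protocol.test at hr
    rw [decide_eq_true_iff] at hr
    rw [hfe]
    exact pow_le_pow_right₀ (by norm_num) hr
  have h2 := Pr_markov (n := S.testBits x.length) hf0 (c := (2 : ℝ) ^ k) (by positivity)
  have h3 : avg (S.testBits x.length) f =
      (1 + acceptProb S.prover S.verifier (S.rounds.eval x.length) x s) ^ (2 * k) := by
    unfold Protocol.testBits
    rw [← hk, hf, avg_prod_block (2 * k) (S.runBits x.length)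
      (fun (_ : ℕ) (r : Str) => if S.accB x s r = true then (2 : ℝ) else 1), Finset.prod_const,
      Finset.card_range, avg_two]
  have h4 : avg (S.testBits x.length) f ≤ (16 / 9 : ℝ) ^ k := by
    rw [h3, pow_mul]
    refine pow_le_pow_left₀ (by positivity) ?_ _
    nlinarith
  calc Pr (S.testBits x.length) (fun ρ => S.test x s ρ = true)
      ≤ avg (S.testBits x.length) f / 2 ^ k := h1.trans h2
    _ ≤ (16 / 9 : ℝ) ^ k / 2 ^ k := by gcongr
    _ = (8 / 9 : ℝ) ^ k := by rw [← div_pow]; norm_num
    _ ≤ 1 / 2 ^ (S.prover.size.eval x.length + x.length) := by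
        rw [hk]
        unfold Protocol.half
        exact pow_bound _ _

/-- If no state makes the verifier accept with probability more than `1/3`, then with high
probability over the coins no state passes the test. -/
theorem test_sound (S : Protocol) (x : Str)
    (h : ∀ s : Str, s.length = S.prover.size.eval x.length →
      acceptProb S.prover S.verifier (S.rounds.eval x.length) x s ≤ 1 / 3) :
    Pr (S.testBits x.length) (fun ρ => ∃ s : Str, s.length = S.prover.size.eval x.length ∧
      S.test x s ρ = true) ≤ 1 / 2 ^ x.length := by
  have h1 := Pr_exists_le (S.testBits x.length) (S.prover.size.eval x.length)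
    (fun s ρ => S.test x s ρ = true) (1 / 2 ^ (S.prover.size.eval x.length + x.length))
    (fun s hs => test_one S x s (h s hs))
  refine h1.trans (le_of_eq ?_)
  rw [pow_add]
  field_simp

/-- A state passes the test with probability at least `1 - 2 (1 - p)`. -/
theorem test_lower (S : Protocol) (x s : Str) :
    1 - 2 * (1 - acceptProb S.prover S.verifier (S.rounds.eval x.length) x s) ≤
      Pr (S.testBits x.length) (fun ρ => S.test x s ρ = true) := by
  set k := S.half x.length with hk
  set p := acceptProb S.prover S.verifier (S.rounds.eval x.length) x s with hp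
  have hp1 : p ≤ 1 := by
    rw [hp, acceptProb_eq]
    exact Pr_le_one _ _
  set f : Str → ℝ := fun ρ => ∑ i ∈ Finset.range (2 * k),
    (fun (_ : ℕ) (r : Str) => if S.accB x s r = true then (0 : ℝ) else 1) i
      (block (S.runBits x.length) i ρ) with hf
  have hf0 : ∀ r, 0 ≤ f r := by
    intro r
    simp only [hf]
    refine Finset.sum_nonneg fun i _ => ?_
    split_ifs <;> norm_num
  have hfe : ∀ r, f r = 2 * k - (((List.range (2 * k)).filter fun i =>
      S.accB x s (block (S.runBits x.length) i r)).length : ℝ) := by
    intro r
    rw [len_filter_sum]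
    have e : (2 * k : ℝ) = ∑ i ∈ Finset.range (2 * k), (1 : ℝ) := by
      rw [Finset.sum_const, Finset.card_range]
      simp
    rw [e, ← Finset.sum_sub_distrib]
    simp only [hf]
    refine Finset.sum_congr rfl fun i _ => ?_
    by_cases h1 : S.accB x s (block (S.runBits x.length) i r) = true
    · rw [if_pos h1, if_pos h1]; norm_num
    · rw [if_neg h1, if_neg h1]; norm_num
  have h1 : Pr (S.testBits x.length) (fun ρ => ¬ (S.test x s ρ = true)) ≤
      Pr (S.testBits x.length) (fun ρ => ((k : ℝ) + 1) ≤ f ρ) := by
    refine Pr_mono fun r _ hr => ?_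
    unfold Protocol.test at hr
    rw [decide_eq_true_iff, not_le] at hr
    rw [hfe]
    have h2 : (((List.range (2 * k)).filter fun i =>
      S.accB x s (block (S.runBits x.length) i r)).length : ℝ) + 1 ≤ k := by exact_mod_cast hr
    linarith
  have h2 := Pr_markov (n := S.testBits x.length) hf0 (c := (k : ℝ) + 1) (by positivity)
  have h3 : avg (S.testBits x.length) f = 2 * k * (1 - p) := by
    unfold Protocol.testBits
    rw [← hk, hf, avg_sum_block (2 * k) (S.runBits x.length)
      (fun (_ : ℕ) (r : Str) => if S.accB x s r = true then (0 : ℝ) else 1), Finset.sum_const,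
      Finset.card_range, nsmul_eq_mul]
    have e1 : avg (S.runBits x.length) (fun r => if S.accB x s r = true then (0 : ℝ) else 1) =
        1 - p := by
      rw [hp, acceptProb_eq, Pr_eq_avg_bool]
      have h : (1 : ℝ) = avg (S.runBits x.length) (fun _ => (1 : ℝ)) := (avg_const _ _).symm
      rw [h, ← avg_sub]
      refine avg_congr fun r _ => ?_
      rw [← h]
      by_cases h1 : S.accB x s r = true
      · rw [if_pos h1, if_pos h1]; norm_num
      · rw [if_neg h1, if_neg h1]; norm_num
    rw [e1]
    push_cast
    ring
  rw [Pr_compl] at h1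
  have h4 := h1.trans h2
  rw [h3] at h4
  have h5 : 2 * (k : ℝ) * (1 - p) / ((k : ℝ) + 1) ≤ 2 * (1 - p) := by
    rw [div_le_iff₀ (by positivity)]
    nlinarith
  linarith

/-- If the verifier accepts the encoded witness with probability at least `2/3`, then the encoded
witness passes the test with probability at least `1/3`. -/
theorem test_complete (S : Protocol) (x w : Str) (hx : 0 < x.length)
    (h : 2 / 3 ≤ avg (S.encCoins.eval x.length) fun r =>
      acceptProb S.prover S.verifier (S.rounds.eval x.length) x (S.init x w r)) :
    1 / 3 ≤ avg (S.encCoins.eval x.length) fun r =>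
      Pr (S.testBits x.length) fun ρ => S.test x (S.init x w r) ρ = true := by
  have h1 : avg (S.encCoins.eval x.length) (fun r => (-1 : ℝ) + 2 *
      acceptProb S.prover S.verifier (S.rounds.eval x.length) x (S.init x w r)) ≤
      avg (S.encCoins.eval x.length) fun r =>
      Pr (S.testBits x.length) fun ρ => S.test x (S.init x w r) ρ = true := by
    refine avg_mono fun r _ => ?_
    have := test_lower S x (S.init x w r)
    linarith
  rw [avg_add, avg_const, avg_mul_left] at h1
  linarith

end Pool.Agent.MP_8311ed_lc
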