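import Pool.Agent.MP_8311ed_lc.Leak
import Pool.Agent.MP_8311ed_lc.Compile
import Pool.Agent.MP_8311ed_lc.TestProb
import Pool.Agent.MP_8311ed_lc.Amplify

/-!
# Witness encryption rules out one-bit leakage-resilient zero knowledge
-/

set_option autoImplicit false

namespace Pool.Agent.MP_8311ed_lc

open Pool.Agent.Lib.helper60 Pool.Agent.MP_92db0f_lc

theorem reg_length (k : ℕ) (s : Str) : (reg k s).length = k := by
  simp [reg]

theorem init_length (S : Protocol) (x w r : Str) :
    (S.init x w r).length = S.prover.size.eval x.length := reg_length _ _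

theorem Pr_congr_of {n : ℕ} {E : Str → Prop} (h : ∀ r, ¬ E r) : Pr n E = 0 := by
  have : Pr n E = Pr n fun _ => False := Pr_congr fun r _ => ⟨fun h' => h r h', fun h' => h'.elim⟩
  rw [this]
  unfold Pr
  simp [avg_const]

section

variable (S : Protocol) (Enc Dec Sim : List Str → Str) (c cS : Polynomial ℕ) (Kf : Str × ℕ → Str)

/-- The real probability that the adversary outputs `1`, averaged over the encryption. -/
theorem leak_avg (hKf : ∀ (u : Str) (m : ℕ), ∃ C : Circuit, Kf (u, m) = C.code ∧ C.outs = 1 ∧
      ∀ s : Str, s.length = m → C.eval s = [leakB S Dec (u, s)])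
    {p : Polynomial ℕ} (hp : ∀ n, 1 ≤ p.eval n) (q : Polynomial ℕ)
    (hq : ∀ x ρ b rE : Str, ρ.length = S.testBits x.length → b.length = 1 →
      rE.length = (cE S c).eval x.length → (zS S Enc Kf x ρ b rE).length ≤ q.eval x.length)
    (x w : Str) (ε : ℝ)
    (hsim : ∀ z : Str, z.length ≤ q.eval x.length →
      |realProb S att p (fun l => l.getD 2 []) 0 x w z -
        simProb Sim cS (fun l => l.getD 2 []) 0 x z| ≤ ε)
    (ρ : Str) (hρ : ρ.length = S.testBits x.length) (b : Bool) :
    |(avg (S.encCoins.eval x.length) fun r => Pr ((cE S c).eval x.length) fun rE =>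
      leakB S Dec (codeTuple [x, ρ, Enc [unary x.length, codeTuple [x, ρ], [b], rE]],
        S.init x w r) = true) - simP S Enc Sim c cS Kf b x ρ| ≤ ε := by
  have h1 : (avg (S.encCoins.eval x.length) fun r => Pr ((cE S c).eval x.length) fun rE =>
      leakB S Dec (codeTuple [x, ρ, Enc [unary x.length, codeTuple [x, ρ], [b], rE]],
        S.init x w r) = true) =
      avg ((cE S c).eval x.length) fun rE => Pr (S.encCoins.eval x.length) fun r =>
        leakB S Dec (codeTuple [x, ρ, Enc [unary x.length, codeTuple [x, ρ], [b], rE]],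
          S.init x w r) = true := by
    unfold Pr
    exact avg_comm _ _ _
  rw [h1]
  unfold simP
  rw [← avg_sub]
  refine (avg_abs_le _).trans ?_
  have h2 : ε = avg ((cE S c).eval x.length) fun _ => ε := (avg_const _ _).symm
  rw [h2]
  refine avg_mono fun rE hE => ?_
  obtain ⟨C, hC1, hC2, hC3⟩ := hKf (codeTuple [x, ρ, Enc [unary x.length, codeTuple [x, ρ],
    [b], rE]]) (S.prover.size.eval x.length)
  have hz : zS S Enc Kf x ρ [b] rE = C.code := hC1
  have h3 := hsim (zS S Enc Kf x ρ [b] rE) (hq x ρ [b] rE hρ rfl hE)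
  rw [simProb_att, hz, realProb_att S hp x w C hC2] at h3
  rw [hz]
  have h4 : (Pr (S.encCoins.eval x.length) fun r => C.eval (S.init x w r) = [true]) =
      Pr (S.encCoins.eval x.length) fun r =>
        leakB S Dec (codeTuple [x, ρ, Enc [unary x.length, codeTuple [x, ρ], [b], rE]],
          S.init x w r) = true := by
    refine Pr_congr fun r _ => ?_
    rw [hC3 _ (init_length S x w r)]
    simp
  rw [← h4]
  exact h3

/-- Inputs with a witness. -/
theorem yes_case (hKf : ∀ (u : Str) (m : ℕ), ∃ C : Circuit, Kf (u, m) = C.code ∧ C.outs = 1 ∧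
      ∀ s : Str, s.length = m → C.eval s = [leakB S Dec (u, s)])
    {p : Polynomial ℕ} (hp : ∀ n, 1 ≤ p.eval n) (q : Polynomial ℕ)
    (hq : ∀ x ρ b rE : Str, ρ.length = S.testBits x.length → b.length = 1 →
      rE.length = (cE S c).eval x.length → (zS S Enc Kf x ρ b rE).length ≤ q.eval x.length)
    (x w : Str) (hx : 0 < x.length)
    (hsim : ∀ z : Str, z.length ≤ q.eval x.length →
      |realProb S att p (fun l => l.getD 2 []) 0 x w z -
        simProb Sim cS (fun l => l.getD 2 []) 0 x z| ≤ 1 / 100)
    (hcorr : ∀ (ρ s : Str) (b : Bool), ρ.length = S.testBits x.length →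
      S.rel (codeTuple [x, ρ]) s → 1 - 1 / 100 ≤ Pr ((cE S c).eval x.length) fun r =>
        Dec [unary x.length, codeTuple [x, ρ],
          Enc [unary x.length, codeTuple [x, ρ], [b], r], s] = [b])
    (hcomp : 2 / 3 ≤ avg (S.encCoins.eval x.length) fun r =>
      acceptProb S.prover S.verifier (S.rounds.eval x.length) x (S.init x w r)) :
    3 / 5 ≤ avg (S.testBits x.length) fun ρ =>
      (simP S Enc Sim c cS Kf true x ρ + (1 - simP S Enc Sim c cS Kf false x ρ)) / 2 := by
  have hg := test_complete S x w hx hcomp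
  have hlb : ∀ ρ : Str, ρ.length = S.testBits x.length →
      (1 / 2 - 2 / 100) + (1 / 2) * (Pr (S.encCoins.eval x.length) fun r =>
        S.test x (S.init x w r) ρ = true) ≤
      (simP S Enc Sim c cS Kf true x ρ + (1 - simP S Enc Sim c cS Kf false x ρ)) / 2 := by
    intro ρ hρ
    have h1 := abs_le.1 (leak_avg S Enc Dec Sim c cS Kf hKf hp q hq x w (1 / 100) hsim ρ hρ true)
    have h0 := abs_le.1 (leak_avg S Enc Dec Sim c cS Kf hKf hp q hq x w (1 / 100) hsim ρ hρ false)
    have hrel : ∀ r : Str, S.test x (S.init x w r) ρ = true →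
        S.rel (codeTuple [x, ρ]) (S.init x w r) := by
      intro r hr
      show S.relB _ _ = true
      rw [relB_code S x ρ _ hρ (init_length S x w r), hr]
    have hleak : ∀ (b : Bool) (r rE : Str), S.test x (S.init x w r) ρ = true →
        (leakB S Dec (codeTuple [x, ρ, Enc [unary x.length, codeTuple [x, ρ], [b], rE]],
          S.init x w r) = true ↔ Dec [unary x.length, codeTuple [x, ρ],
            Enc [unary x.length, codeTuple [x, ρ], [b], rE], S.init x w r] = [true]) := by
      intro b r rE hr
      have := hrel r hr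
      rw [leakB_code]
      rw [show S.relB (codeTuple [x, ρ]) (S.init x w r) = true from this]
      simp
    have hno : ∀ (b : Bool) (r rE : Str), ¬ S.test x (S.init x w r) ρ = true →
        ¬ leakB S Dec (codeTuple [x, ρ, Enc [unary x.length, codeTuple [x, ρ], [b], rE]],
          S.init x w r) = true := by
      intro b r rE hr
      rw [leakB_code, relB_code S x ρ _ hρ (init_length S x w r)]
      simp [hr]
    -- encryption of `1`
    have hA : (Pr (S.encCoins.eval x.length) fun r => S.test x (S.init x w r) ρ = true) - 1 / 100 ≤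
        avg (S.encCoins.eval x.length) fun r => Pr ((cE S c).eval x.length) fun rE =>
          leakB S Dec (codeTuple [x, ρ, Enc [unary x.length, codeTuple [x, ρ], [true], rE]],
            S.init x w r) = true := by
      have e : (Pr (S.encCoins.eval x.length) fun r => S.test x (S.init x w r) ρ = true) -
          1 / 100 = avg (S.encCoins.eval x.length) fun r =>
            (@ite ℝ (S.test x (S.init x w r) ρ = true) (Classical.propDecidable _) 1 0) -
              1 / 100 := by
        rw [avg_sub, avg_const]
        rfl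
      rw [e]
      refine avg_mono fun r _ => ?_
      by_cases hr : S.test x (S.init x w r) ρ = true
      · rw [if_pos hr]
        have := hcorr ρ (S.init x w r) true hρ (hrel r hr)
        refine this.trans (le_of_eq (Pr_congr fun rE _ => (hleak true r rE hr).symm))
      · rw [if_neg hr]
        have := Pr_nonneg ((cE S c).eval x.length) fun rE =>
          leakB S Dec (codeTuple [x, ρ, Enc [unary x.length, codeTuple [x, ρ], [true], rE]],
            S.init x w r) = true
        linarith
    -- encryption of `0`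
    have hB : (avg (S.encCoins.eval x.length) fun r => Pr ((cE S c).eval x.length) fun rE =>
          leakB S Dec (codeTuple [x, ρ, Enc [unary x.length, codeTuple [x, ρ], [false], rE]],
            S.init x w r) = true) ≤ 1 / 100 := by
      have e : (1 / 100 : ℝ) = avg (S.encCoins.eval x.length) fun _ => 1 / 100 :=
        (avg_const _ _).symm
      rw [e]
      refine avg_mono fun r _ => ?_
      by_cases hr : S.test x (S.init x w r) ρ = true
      · have h5 := hcorr ρ (S.init x w r) false hρ (hrel r hr)
        have h6 : (Pr ((cE S c).eval x.length) fun rE =>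
            leakB S Dec (codeTuple [x, ρ, Enc [unary x.length, codeTuple [x, ρ], [false], rE]],
              S.init x w r) = true) ≤ Pr ((cE S c).eval x.length) fun rE =>
            ¬ Dec [unary x.length, codeTuple [x, ρ],
              Enc [unary x.length, codeTuple [x, ρ], [false], rE], S.init x w r] = [false] := by
          refine Pr_mono fun rE _ h => ?_
          rw [(hleak false r rE hr).1 h]
          simp
        rw [Pr_compl] at h6
        linarith
      · rw [Pr_congr_of fun rE => hno false r rE hr]
        norm_num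
    linarith [h1.1, h1.2, h0.1, h0.2]
  have hcm : (avg (S.testBits x.length) fun ρ => Pr (S.encCoins.eval x.length) fun r =>
      S.test x (S.init x w r) ρ = true) = avg (S.encCoins.eval x.length) fun r =>
        Pr (S.testBits x.length) fun ρ => S.test x (S.init x w r) ρ = true := by
    unfold Pr
    exact avg_comm _ _ _
  calc (3 / 5 : ℝ) ≤ (1 / 2 - 2 / 100) + (1 / 2) * (avg (S.testBits x.length) fun ρ =>
        Pr (S.encCoins.eval x.length) fun r => S.test x (S.init x w r) ρ = true) := by
        rw [hcm]; linarith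
    _ = avg (S.testBits x.length) fun ρ => (1 / 2 - 2 / 100) + (1 / 2) *
        (Pr (S.encCoins.eval x.length) fun r => S.test x (S.init x w r) ρ = true) := by
        rw [avg_add, avg_const, avg_mul_left]
    _ ≤ _ := avg_mono hlb

/-- Inputs without a witness. -/
theorem no_case (x : Str)
    (hsec : ∀ ρ : Str, ρ.length = S.testBits x.length → codeTuple [x, ρ] ∉ lang S.rel →
      |simP S Enc Sim c cS Kf true x ρ - simP S Enc Sim c cS Kf false x ρ| ≤ 1 / 100)
    (hpow : (1 : ℝ) / 2 ^ x.length ≤ 1 / 100)
    (hsound : ∀ s : Str, s.length = S.prover.size.eval x.length →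
      acceptProb S.prover S.verifier (S.rounds.eval x.length) x s ≤ 1 / 3) :
    (avg (S.testBits x.length) fun ρ =>
      (simP S Enc Sim c cS Kf true x ρ + (1 - simP S Enc Sim c cS Kf false x ρ)) / 2) ≤
        51 / 100 := by
  have hts := test_sound S x hsound
  have hub : ∀ ρ : Str, ρ.length = S.testBits x.length →
      (simP S Enc Sim c cS Kf true x ρ + (1 - simP S Enc Sim c cS Kf false x ρ)) / 2 ≤
        (1 / 2 + 1 / 200) + (1 / 2) * @ite ℝ (∃ s : Str, s.length = S.prover.size.eval x.length ∧
          S.test x s ρ = true) (Classical.propDecidable _) 1 0 := by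
    intro ρ hρ
    by_cases hb : ∃ s : Str, s.length = S.prover.size.eval x.length ∧ S.test x s ρ = true
    · rw [if_pos hb]
      have := simP_le_one S Enc Sim c cS Kf true x ρ
      have := simP_nonneg S Enc Sim c cS Kf false x ρ
      linarith
    · rw [if_neg hb]
      have hn : codeTuple [x, ρ] ∉ lang S.rel := by
        rintro ⟨s, hs⟩
        obtain ⟨x', ρ', h1, h2, h3, h4⟩ := relB_true S hs
        have h5 := codeTuple_injective h1
        simp only [List.cons.injEq, and_true] at h5
        obtain ⟨rfl, rfl⟩ := h5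
        exact hb ⟨s, h3, h4⟩
      have := abs_le.1 (hsec ρ hρ hn)
      linarith [this.1, this.2]
  calc (avg (S.testBits x.length) fun ρ =>
      (simP S Enc Sim c cS Kf true x ρ + (1 - simP S Enc Sim c cS Kf false x ρ)) / 2)
      ≤ avg (S.testBits x.length) fun ρ => (1 / 2 + 1 / 200) + (1 / 2) *
        @ite ℝ (∃ s : Str, s.length = S.prover.size.eval x.length ∧
          S.test x s ρ = true) (Classical.propDecidable _) 1 0 := avg_mono hub
    _ = (1 / 2 + 1 / 200) + (1 / 2) * Pr (S.testBits x.length) fun ρ =>
        ∃ s : Str, s.length = S.prover.size.eval x.length ∧ S.test x s ρ = true := by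
        rw [avg_add, avg_const, avg_mul_left]
        rfl
    _ ≤ 51 / 100 := by linarith

end

/-- **Witness encryption for NP makes leakage-resilient zero knowledge impossible outside BPP**,
already for one bit of leakage. -/
theorem main (hWE : WitnessEncryption) {R : Str → Str → Prop} (S : Protocol) (hS : S.IsArgument R)
    {p : Polynomial ℕ} (hp : ∀ n, 1 ≤ p.eval n) (hZK : S.Simulatable R p att) : InBPP (lang R) := by
  obtain ⟨Enc, Dec, c, hEnc, hDec, hcorr, hsec⟩ := hWE S.rel S.rel_isNP
  obtain ⟨Kf, hKf, hC⟩ := compile (PT_leakB S Dec hDec)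
  obtain ⟨Sim, cS, hSim, hsim⟩ := hZK
  obtain ⟨q, hq⟩ := exists_zbound S Enc c Kf hEnc hKf
  obtain ⟨μ, hμ, hμ'⟩ := hsim (fun l => l.getD 2 []) 0 q PolyTime_third
  obtain ⟨ν, hν, hν'⟩ := hsec (weAdv S Sim cS Kf) (cS.comp (Polynomial.X + q)) S.yPoly
    (weAdv_polyTime S Sim cS Kf hKf hSim)
  obtain ⟨κ, hκ, hκ'⟩ := hcorr S.yPoly
  obtain ⟨N1, hN1⟩ := hS.1
  obtain ⟨N2, hN2⟩ := hS.2 S.prover
  obtain ⟨M1, hM1⟩ := hμ.eventually (ε := 1 / 100) (by norm_num)
  obtain ⟨M2, hM2⟩ := hν.eventually (ε := 1 / 100) (by norm_num)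
  obtain ⟨M3, hM3⟩ := hκ.eventually (ε := 1 / 100) (by norm_num)
  have hylen : ∀ x ρ : Str, ρ.length = S.testBits x.length →
      (codeTuple [x, ρ]).length ≤ S.yPoly.eval x.length := by
    intro x ρ hρ
    rw [yPoly_eval S x ρ hρ]
    omega
  refine inBPP_of_gap (decider_polyTime S Enc Sim c cS Kf hEnc hKf hSim)
    (S.testPoly + (1 + (cE S c + cS.comp (Polynomial.X + q))))
    (max (max N1 N2) (max (max M1 M2) (max M3 7))) ?_ ?_
  · intro x hx hxL
    simp only [max_le_iff] at hx
    obtain ⟨⟨hx1, hx2⟩, ⟨hx3, hx4⟩, hx5, hx6⟩ := hx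
    obtain ⟨w, hw⟩ := hxL
    rw [decider_prob S Enc Sim c cS Kf q hq x]
    refine yes_case S Enc Dec Sim c cS Kf hC hp q hq x w (by omega) ?_ ?_ (hN1 x w hx1 hw)
    · intro z hz
      exact (hμ' x w z hw hz).trans (hM1 _ hx3)
    · intro ρ s b hρ hs
      have h1 := hκ' x.length (codeTuple [x, ρ]) s b (hylen x ρ hρ) hs
      rw [cE_eval S c x ρ hρ]
      have h2 := hM3 _ hx5
      linarith
  · intro x hx hxL
    simp only [max_le_iff] at hx
    obtain ⟨⟨hx1, hx2⟩, ⟨hx3, hx4⟩, hx5, hx6⟩ := hx
    rw [decider_prob S Enc Sim c cS Kf q hq x]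
    refine no_case S Enc Sim c cS Kf x ?_ ?_ fun s hs => hN2 x s hx2 hxL hs
    · intro ρ hρ hn
      have h1 := hν' x.length (codeTuple [x, ρ]) (hylen x ρ hρ) hn
      rw [weAdv_prob S Enc Sim c cS Kf q hq x ρ hρ true,
        weAdv_prob S Enc Sim c cS Kf q hq x ρ hρ false] at h1
      exact h1.trans (hM2 _ hx4)
    · have : (2 : ℝ) ^ 7 ≤ 2 ^ x.length := pow_le_pow_right₀ (by norm_num) hx6
      rw [div_le_div_iff₀ (by positivity) (by norm_num)]
      norm_num at this ⊢
      linarith

end Pool.Agent.MP_8311ed_lc
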