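import Pool.Agent.MP_8311ed_lc.EvalCode
import Pool.Agent.MP_8311ed_lc.Leak
import Pool.Agent.MP_8311ed_lc.Compile

/-!
# Indistinguishability obfuscation gives witness encryption
-/

set_option autoImplicit false

namespace Pool.Agent.MP_8311ed_lc

open Pool.Agent.Lib.helper60 Pool.Agent.MP_92db0f_lc

/-- Three gates, the last of which has the value of the previous output (`b = true`) or the value
`false` (`b = false`). -/
def tailG (b : Bool) : List (ℕ × ℕ) :=
  bif b then [(0, 0), (0, 2), (1, 1)] else [(1, 1), (0, 2), (0, 0)]

theorem tailG_length (b : Bool) : (tailG b).length = 3 := by cases b <;> rfl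

theorem gcode_tailG_length (b : Bool) : (gcode (tailG b)).length = 10 := by cases b <;> rfl

theorem runG_tailG (b : Bool) (ws : Str) :
    (runG (tailG b) ws).take 1 = [ws.getD 0 false && b] := by
  cases b
  · rcases ws with _ | ⟨x, _ | ⟨y, ws⟩⟩
    · rfl
    · cases x <;> rfl
    · cases x <;> cases y <;> rfl
  · rcases ws with _ | ⟨x, _ | ⟨y, ws⟩⟩
    · rfl
    · cases x <;> rfl
    · cases x <;> cases y <;> rfl

/-- the circuit with the three gates appended -/
def Circuit.gate (C : Circuit) (b : Bool) : Circuit := ⟨C.outs, C.gates ++ tailG b⟩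

theorem Circuit.gate_code (C : Circuit) (b : Bool) : (C.gate b).code = C.code ++ gcode (tailG b) := by
  simp [Circuit.gate, Circuit.code, gcode]

theorem Circuit.gate_eval (C : Circuit) (b : Bool) (s : Str) (hC : C.outs = 1) (v : Bool)
    (h : C.eval s = [v]) : (C.gate b).eval s = [v && b] := by
  have h1 : (C.wires s).getD 0 false = v := by
    unfold Circuit.eval at h
    rw [hC] at h
    cases hw : C.wires s with
    | nil => rw [hw] at h; simp at h
    | cons x l => rw [hw] at h; simpa using h
  unfold Circuit.eval
  rw [show (C.gate b).outs = 1 from hC, Circuit.wires_eq]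
  show (runG (C.gates ++ tailG b) s).take 1 = _
  rw [runG_append, runG_tailG, ← Circuit.wires_eq, h1]

/-- Some prefix of `s` is a witness for `y`. -/
def prefB (d : List Str → Str) (a : Str × Str) : Bool :=
  (List.range (a.2.length + 1)).any fun k => decide (d [a.1, a.2.take k] = [true])

theorem PT_prefB {d : List Str → Str} (hd : PolyTime d) : PT (prefB d) := by
  unfold prefB
  refine PT.any (p := fun z : (Str × Str) × ℕ => decide (d [z.1.1, z.1.2.take z.2] = [true]))
    (PT.range (PT.nsucc (PT.length PT.snd))) ?_
  exact PT_streq (hd.pt.comp (PT.cons PT.fst.p1 (PT.cons (PT_take PT.snd PT.fst.p2)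
    (PT.const [])))) (PT.const [true])

/-- **Indistinguishability obfuscation gives witness encryption for NP** (Garg, Gentry, Halevi,
Raykova, Sahai, Waters). -/
theorem witnessEncryption_of_io (h : IndistinguishabilityObfuscation) : WitnessEncryption := by
  obtain ⟨Obf, cO, hObf, hfun, hsec⟩ := h
  rintro R ⟨⟨d, hd, hdR⟩, b, hb⟩
  obtain ⟨Kf, hKf, hK⟩ := compile (PT_prefB hd)
  have hcode : PT (fun y : Str => Kf (y, b.eval y.length)) :=
    hKf.comp (PT.pair PT.id (PT_peval b (PT.length PT.id)))
  obtain ⟨P, hP⟩ := hcode.size
  -- bound on the length of the code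
  let kp : Polynomial ℕ := P.comp (4 * Polynomial.X + 1) + 10
  have hkp : ∀ y : Str, (Kf (y, b.eval y.length)).length + 10 ≤ kp.eval y.length := by
    intro y
    have h1 := (length_lt_tsize (Kf (y, b.eval y.length))).le.trans (hP y)
    have h2 : P.eval (tsize y) ≤ P.eval (4 * y.length + 1) := evalMono P (tsize_le_str y)
    simp only [kp, Polynomial.eval_add, Polynomial.eval_comp, Polynomial.eval_mul,
      Polynomial.eval_X, Polynomial.eval_ofNat, Polynomial.eval_one]
    omega
  -- the circuit of an instance
  have hcirc : ∀ y : Str, ∃ C : Circuit, Kf (y, b.eval y.length) = C.code ∧ C.outs = 1 ∧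
      ∀ s : Str, s.length = b.eval y.length → C.eval s = [prefB d (y, s)] :=
    fun y => hK y _
  choose C hC1 hC2 hC3 using hcirc
  -- number of coins of the obfuscator
  let co : Str → ℕ → ℕ := fun y n => cO.eval (n + b.eval y.length +
    ((Kf (y, b.eval y.length)).length + 10))
  have hco : ∀ (y : Str) (n : ℕ) (v : Bool),
      co y n = cO.eval (n + b.eval y.length + ((C y).gate v).code.length) := by
    intro y n v
    rw [Circuit.gate_code, List.length_append, gcode_tailG_length, ← hC1]
  have hcoins : ∀ (y : Str) (n : ℕ), co y n ≤
      (cO.comp (Polynomial.X + b + kp)).eval (n + y.length) := by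
    intro y n
    simp only [co, Polynomial.eval_comp, Polynomial.eval_add, Polynomial.eval_X]
    refine evalMono cO ?_
    have h1 := hkp y
    have h2 : kp.eval y.length ≤ kp.eval (n + y.length) := evalMono kp (Nat.le_add_left _ _)
    have h3 : b.eval y.length ≤ b.eval (n + y.length) := evalMono b (Nat.le_add_left _ _)
    beta_reduce at h2 h3
    omega
  let Enc : List Str → Str := fun l => Obf [l.getD 0 [], unary (b.eval (l.getD 1 []).length),
    Kf (l.getD 1 [], b.eval (l.getD 1 []).length) ++
      gcode (bif decide (l.getD 2 [] = [true]) then [(0, 0), (0, 2), (1, 1)]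
        else [(1, 1), (0, 2), (0, 0)]),
    (l.getD 3 []).take (co (l.getD 1 []) (l.getD 0 []).length)]
  let Dec : List Str → Str := fun l =>
    evalCode (l.getD 2 []) (reg (b.eval (l.getD 1 []).length) (l.getD 3 []))
  have hEnc : PolyTime Enc := by
    apply PolyTime.of_pt
    have n : PT (fun l : List Str => l.getD 0 []) := PT.getD PT.id (PT.const 0) (PT.const [])
    have y : PT (fun l : List Str => l.getD 1 []) := PT.getD PT.id (PT.const 1) (PT.const [])
    have v : PT (fun l : List Str => l.getD 2 []) := PT.getD PT.id (PT.const 2) (PT.const [])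
    have r : PT (fun l : List Str => l.getD 3 []) := PT.getD PT.id (PT.const 3) (PT.const [])
    have bb := PT_peval b (PT.length y)
    have K := hKf.comp (PT.pair y bb)
    have g := PT_gcode.comp (PT.cond (PT_streq v (PT.const [true]))
      (PT.const [(0, 0), (0, 2), (1, 1)]) (PT.const [(1, 1), (0, 2), (0, 0)]))
    have cc := PT_peval cO (PT.nadd (PT.nadd (PT.length n) bb) (PT.nadd (PT.length K)
      (PT.const 10)))
    exact hObf.pt.comp (PT.cons n (PT.cons (PT_unary.comp bb) (PT.cons (PT.append K g)
      (PT.cons (PT_take cc r) (PT.const [])))))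
  have hDec : PolyTime Dec := by
    apply PolyTime.of_pt
    have y : PT (fun l : List Str => l.getD 1 []) := PT.getD PT.id (PT.const 1) (PT.const [])
    have ct : PT (fun l : List Str => l.getD 2 []) := PT.getD PT.id (PT.const 2) (PT.const [])
    have w : PT (fun l : List Str => l.getD 3 []) := PT.getD PT.id (PT.const 3) (PT.const [])
    have bb := PT_peval b (PT.length y)
    exact PT_evalCode ct (PT_take bb (PT.append w (PT.replicate bb (PT.const false))))
  have hEnc_eq : ∀ (n : ℕ) (y : Str) (v : Bool) (r : Str), Enc [unary n, y, [v], r] =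
      Obf [unary n, unary (b.eval y.length), ((C y).gate v).code, r.take (co y n)] := by
    intro n y v r
    have e1 : (unary n).length = n := by simp [unary]
    have e2 : (bif decide (([v] : Str) = [true]) then [((0 : ℕ), (0 : ℕ)), (0, 2), (1, 1)]
        else [(1, 1), (0, 2), (0, 0)]) = tailG v := by cases v <;> rfl
    simp only [Enc, List.getD_cons_zero, List.getD_cons_succ]
    rw [e1, e2, Circuit.gate_code, ← hC1]
  refine ⟨Enc, Dec, cO.comp (Polynomial.X + b + kp), hEnc, hDec, ?_, ?_⟩
  · -- correctness
    intro q
    refine ⟨fun _ => 0, fun k => ⟨0, fun n _ => by positivity⟩, fun n y w v _ hR => ?_⟩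
    have hlen : w.length ≤ b.eval y.length := hb y w hR
    have hreg : (reg (b.eval y.length) w).length = b.eval y.length := by simp [reg]
    have htake : (reg (b.eval y.length) w).take w.length = w := by
      unfold reg
      rw [List.take_take, min_eq_left hlen, List.take_left]
    have hpref : prefB d (y, reg (b.eval y.length) w) = true := by
      unfold prefB
      rw [List.any_eq_true]
      refine ⟨w.length, ?_, ?_⟩
      · rw [List.mem_range, hreg]
        omega
      · rw [htake]
        exact decide_eq_true ((hdR y w).1 hR)
    have hall : ∀ r : Str, r.length = (cO.comp (Polynomial.X + b + kp)).eval (n + y.length) →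
        Dec [unary n, y, Enc [unary n, y, [v], r], w] = [v] := by
      intro r hr
      have hr' : (r.take (co y n)).length = cO.eval (n + b.eval y.length +
          ((C y).gate v).code.length) := by
        rw [List.length_take, hr, min_eq_left (hcoins y n), hco y n v]
      obtain ⟨C', h1, h2, h3⟩ := hfun n (b.eval y.length) ((C y).gate v) _ hr'
      have h4 : Dec [unary n, y, Enc [unary n, y, [v], r], w] =
          evalCode (Enc [unary n, y, [v], r]) (reg (b.eval y.length) w) := rfl
      rw [h4, hEnc_eq, h1, evalCode_code, h3 _ hreg,
        Circuit.gate_eval _ _ _ (hC2 y) _ (hC3 y _ hreg), hpref]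
      cases v <;> rfl
    have : (Pr ((cO.comp (Polynomial.X + b + kp)).eval (n + y.length)) fun r =>
        Dec [unary n, y, Enc [unary n, y, [v], r], w] = [v]) = 1 := by
      rw [Pr_congr (E' := fun _ => True) fun r hr => by simp [hall r hr]]
      unfold Pr
      simp [avg_const]
    rw [this]
    simp
  · -- security
    intro A cA q hA
    obtain ⟨μ, hμ, hμ'⟩ := hsec A cA (b.comp q + kp.comp q + q) hA
    refine ⟨μ, hμ, fun n y hy hyL => ?_⟩
    have hq1 : b.eval y.length ≤ b.eval (q.eval n) := evalMono b hy
    have hq2 : kp.eval y.length ≤ kp.eval (q.eval n) := evalMono kp hy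
    have hcl : ∀ v : Bool, ((C y).gate v).code.length = (Kf (y, b.eval y.length)).length + 10 := by
      intro v
      rw [Circuit.gate_code, List.length_append, gcode_tailG_length, ← hC1]
    have hno : ∀ s : Str, prefB d (y, s) = false := by
      intro s
      unfold prefB
      rw [List.any_eq_false]
      intro k _
      rw [decide_eq_true_eq]
      intro hk
      exact hyL ⟨s.take k, (hdR y _).2 hk⟩
    have hsame : ((C y).gate true).Same (b.eval y.length) ((C y).gate false) := by
      refine ⟨rfl, ?_, ?_, fun s hs => ?_⟩
      · show ((C y).gates ++ tailG true).length = ((C y).gates ++ tailG false).length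
        rw [List.length_append, List.length_append, tailG_length, tailG_length]
      · rw [hcl, hcl]
      · rw [Circuit.gate_eval _ _ _ (hC2 y) _ (hC3 y _ hs),
          Circuit.gate_eval _ _ _ (hC2 y) _ (hC3 y _ hs), hno]
        rfl
    have hm := hμ' n (b.eval y.length) ((C y).gate true) ((C y).gate false) y
      (by simp only [Polynomial.eval_add, Polynomial.eval_comp]; omega)
      (by
        rw [hcl]
        have := hkp y
        simp only [Polynomial.eval_add, Polynomial.eval_comp]
        omega)
      (by simp only [Polynomial.eval_add, Polynomial.eval_comp]; omega) hsame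
    have hconv : ∀ v : Bool, (avg ((cO.comp (Polynomial.X + b + kp)).eval (n + y.length)) fun r =>
        Pr (cA.eval (n + y.length)) fun rA =>
          A [unary n, y, Enc [unary n, y, [v], r], rA] = [true]) =
        avg (cO.eval (n + b.eval y.length + ((C y).gate v).code.length)) fun r =>
          Pr (cA.eval (n + y.length)) fun rA =>
            A [unary n, y, Obf [unary n, unary (b.eval y.length), ((C y).gate v).code, r], rA] =
              [true] := by
      intro v
      obtain ⟨e, he⟩ := Nat.exists_eq_add_of_le (hcoins y n)
      rw [he, ← hco y n v, ← avg_take (co y n) e]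
      refine avg_congr fun r _ => ?_
      rw [hEnc_eq]
    rw [hconv true, hconv false]
    exact hm

end Pool.Agent.MP_8311ed_lc
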