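import Pool.Agent.MP_8311ed_lc.Defs

/-!
# Averages over random strings
-/

set_option autoImplicit false

namespace Pool.Agent.MP_8311ed_lc

theorem avg_congr {n : ℕ} {f g : Str → ℝ} (h : ∀ r : Str, r.length = n → f r = g r) :
    avg n f = avg n g := by
  unfold avg
  congr 1
  exact Finset.sum_congr rfl fun r _ => h _ (List.length_ofFn)

theorem avg_mono {n : ℕ} {f g : Str → ℝ} (h : ∀ r : Str, r.length = n → f r ≤ g r) :
    avg n f ≤ avg n g := by
  unfold avg
  have h2 : (0 : ℝ) < 2 ^ n := by positivity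
  rw [div_le_div_iff_of_pos_right h2]
  exact Finset.sum_le_sum fun r _ => h _ (List.length_ofFn)

theorem avg_const (n : ℕ) (c : ℝ) : avg n (fun _ => c) = c := by
  unfold avg
  rw [Finset.sum_const, Finset.card_univ, Fintype.card_fun, Fintype.card_bool, Fintype.card_fin,
    nsmul_eq_mul]
  have h2 : (0 : ℝ) < 2 ^ n := by positivity
  push_cast
  field_simp

theorem avg_add (n : ℕ) (f g : Str → ℝ) : avg n (fun r => f r + g r) = avg n f + avg n g := by
  unfold avg
  rw [Finset.sum_add_distrib, add_div]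

theorem avg_sub (n : ℕ) (f g : Str → ℝ) : avg n (fun r => f r - g r) = avg n f - avg n g := by
  unfold avg
  rw [Finset.sum_sub_distrib, sub_div]

theorem avg_mul_left (n : ℕ) (c : ℝ) (f : Str → ℝ) : avg n (fun r => c * f r) = c * avg n f := by
  unfold avg
  rw [← Finset.mul_sum, mul_div_assoc]

theorem avg_sum {ι : Type} (n : ℕ) (t : Finset ι) (f : ι → Str → ℝ) :
    avg n (fun r => ∑ i ∈ t, f i r) = ∑ i ∈ t, avg n (f i) := by
  unfold avg
  rw [Finset.sum_comm, Finset.sum_div]

theorem avg_nonneg {n : ℕ} {f : Str → ℝ} (h : ∀ r, 0 ≤ f r) : 0 ≤ avg n f := by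
  unfold avg
  exact div_nonneg (Finset.sum_nonneg fun r _ => h _) (by positivity)

theorem avg_abs_le {n : ℕ} (f : Str → ℝ) : |avg n f| ≤ avg n fun r => |f r| := by
  unfold avg
  have h2 : (0 : ℝ) < 2 ^ n := by positivity
  rw [abs_div, abs_of_pos h2, div_le_div_iff_of_pos_right h2]
  exact Finset.abs_sum_le_sum_abs _ _

/-- two groups of coins, drawn one after the other -/
theorem avg_split (a b : ℕ) (f : Str → ℝ) :
    avg (a + b) f = avg a fun r => avg b fun r' => f (r ++ r') := by
  unfold avg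
  have h : ∑ r : Fin (a + b) → Bool, f (List.ofFn r) =
      ∑ p : (Fin a → Bool) × (Fin b → Bool), f (List.ofFn p.1 ++ List.ofFn p.2) := by
    symm
    refine Fintype.sum_equiv (Fin.appendEquiv a b) _ _ ?_
    rintro ⟨u, v⟩
    simp only [Fin.appendEquiv, Equiv.coe_fn_mk]
    rw [List.ofFn_fin_append]
  rw [h, Fintype.sum_prod_type, pow_add, Finset.sum_div, Finset.sum_div]
  refine Finset.sum_congr rfl fun u _ => ?_
  rw [div_div, mul_comm]

theorem avg_comm (a b : ℕ) (f : Str → Str → ℝ) :
    (avg a fun r => avg b fun r' => f r r') = avg b fun r' => avg a fun r => f r r' := by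
  unfold avg
  simp only [← Finset.sum_div]
  rw [Finset.sum_comm, div_div, div_div, mul_comm]

/-- unused coins -/
theorem avg_take (a b : ℕ) (f : Str → ℝ) : avg (a + b) (fun r => f (r.take a)) = avg a f := by
  rw [avg_split]
  refine avg_congr fun r hr => ?_
  have : (fun r' : Str => f ((r ++ r').take a)) = fun _ => f r := by
    funext r'
    rw [← hr, List.take_left]
  rw [this, avg_const]

theorem avg_zero (f : Str → ℝ) : avg 0 f = f [] := by
  unfold avg
  simp

theorem avg_one (f : Str → ℝ) : avg 1 f = (f [true] + f [false]) / 2 := by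
  unfold avg
  have h : ∑ r : Fin 1 → Bool, f (List.ofFn r) = ∑ b : Bool, f [b] := by
    symm
    refine Fintype.sum_equiv (Equiv.funUnique (Fin 1) Bool).symm _ _ ?_
    intro b
    simp
  rw [h]
  simp

theorem Pr_nonneg (n : ℕ) (E : Str → Prop) : 0 ≤ Pr n E := by
  classical
  unfold Pr
  refine avg_nonneg fun r => ?_
  split_ifs <;> norm_num

theorem Pr_le_one (n : ℕ) (E : Str → Prop) : Pr n E ≤ 1 := by
  classical
  unfold Pr
  refine le_trans (avg_mono (g := fun _ => 1) fun r _ => ?_) (avg_const n 1).le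
  split_ifs <;> norm_num

theorem Pr_congr {n : ℕ} {E E' : Str → Prop} (h : ∀ r : Str, r.length = n → (E r ↔ E' r)) :
    Pr n E = Pr n E' := by
  classical
  unfold Pr
  refine avg_congr fun r hr => ?_
  by_cases hE : E r
  · rw [if_pos hE, if_pos ((h r hr).1 hE)]
  · rw [if_neg hE, if_neg (fun h' => hE ((h r hr).2 h'))]

theorem Pr_mono {n : ℕ} {E E' : Str → Prop} (h : ∀ r : Str, r.length = n → E r → E' r) :
    Pr n E ≤ Pr n E' := by
  classical
  unfold Pr
  refine avg_mono fun r hr => ?_
  by_cases hE : E r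
  · rw [if_pos hE, if_pos (h r hr hE)]
  · rw [if_neg hE]
    split_ifs <;> norm_num

theorem Pr_compl (n : ℕ) (E : Str → Prop) : Pr n (fun r => ¬ E r) = 1 - Pr n E := by
  classical
  unfold Pr
  rw [← avg_const n 1, ← avg_sub]
  refine avg_congr fun r _ => ?_
  rw [avg_const]
  by_cases hE : E r
  · rw [if_neg (not_not.2 hE), if_pos hE, sub_self]
  · rw [if_pos hE, if_neg hE, sub_zero]

end Pool.Agent.MP_8311ed_lc
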