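import Pool.Agent.MP_8311ed_lc.Test

/-!
# The relation whose witnesses are the states that pass the test
-/

set_option autoImplicit false

namespace Pool.Agent.MP_8311ed_lc

open Pool.Agent.Lib.helper60 Pool.Agent.MP_92db0f_lc

/-- a parser of tuples -/
noncomputable def parse : Str → List Str := exists_parser.choose

theorem PT_parse : PT parse := exists_parser.choose_spec.1

theorem parse_code (l : List Str) : parse (codeTuple l) = l := exists_parser.choose_spec.2 l

/-- the number of coins of the test, as a polynomial -/
noncomputable def Protocol.testPoly (S : Protocol) : Polynomial ℕ :=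
  2 * (6 * (S.prover.size + Polynomial.X)) * (S.rounds * S.prover.coins + S.verifier.coins)

theorem Protocol.testPoly_eval (S : Protocol) (n : ℕ) : S.testPoly.eval n = S.testBits n := by
  simp only [Protocol.testPoly, Protocol.testBits, Protocol.half, Protocol.runBits, Protocol.pBits,
    Polynomial.eval_mul, Polynomial.eval_add, Polynomial.eval_X, Polynomial.eval_ofNat]

/-- The state `s` passes the test on the input and with the coins given by `y`. -/
noncomputable def Protocol.relB (S : Protocol) (y s : Str) : Bool :=
  decide (y = codeTuple [(parse y).getD 0 [], (parse y).getD 1 []]) &&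
  (decide (((parse y).getD 1 []).length = S.testPoly.eval ((parse y).getD 0 []).length) &&
  (decide (s.length = S.prover.size.eval ((parse y).getD 0 []).length) &&
  S.test ((parse y).getD 0 []) s ((parse y).getD 1 [])))

theorem PT_relB (S : Protocol) : PT (fun a : Str × Str => S.relB a.1 a.2) := by
  have hp : PT (fun a : Str × Str => parse a.1) := PT_parse.comp PT.fst
  have h0 : PT (fun a : Str × Str => (parse a.1).getD 0 []) :=
    PT.getD hp (PT.const 0) (PT.const [])
  have h1 : PT (fun a : Str × Str => (parse a.1).getD 1 []) :=
    PT.getD hp (PT.const 1) (PT.const [])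
  have hc : PT (fun a : Str × Str => codeTuple [(parse a.1).getD 0 [], (parse a.1).getD 1 []]) :=
    PT_codeTuple.comp (PT.cons h0 (PT.cons h1 (PT.const [])))
  have ht : PT (fun a : Str × Str =>
      S.test ((parse a.1).getD 0 []) a.2 ((parse a.1).getD 1 [])) :=
    (PT_test S).comp (PT.pair h0 (PT.pair PT.snd h1))
  exact PT.band (PT_streq PT.fst hc) (PT.band
    (PT.neq (PT.length h1) (PT_peval _ (PT.length h0))) (PT.band
      (PT.neq (PT.length PT.snd) (PT_peval _ (PT.length h0))) ht))

theorem relB_code (S : Protocol) (x ρ s : Str) (hρ : ρ.length = S.testBits x.length)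
    (hs : s.length = S.prover.size.eval x.length) :
    S.relB (codeTuple [x, ρ]) s = S.test x s ρ := by
  unfold Protocol.relB
  rw [parse_code]
  simp only [List.getD_cons_zero, List.getD_cons_succ, decide_true, Bool.true_and,
    S.testPoly_eval, hρ, hs]

theorem relB_true (S : Protocol) {y s : Str} (h : S.relB y s = true) :
    ∃ x ρ : Str, y = codeTuple [x, ρ] ∧ ρ.length = S.testBits x.length ∧
      s.length = S.prover.size.eval x.length ∧ S.test x s ρ = true := by
  unfold Protocol.relB at h
  simp only [Bool.and_eq_true, decide_eq_true_eq] at h
  obtain ⟨h1, h2, h3, h4⟩ := h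
  exact ⟨_, _, h1, by rw [h2, S.testPoly_eval], h3, h4⟩

theorem length_codeTuple_pair (x ρ : Str) :
    (codeTuple [x, ρ]).length = 2 * x.length + 2 * ρ.length + 4 := by
  have h : ∀ s : Str, (s.flatMap fun b => [b, b]).length = 2 * s.length := by
    intro s
    induction s with
    | nil => rfl
    | cons b s ih => simp only [List.flatMap_cons, List.length_append, List.length_cons,
        List.length_nil, ih]; omega
  simp only [codeTuple, List.length_append, List.length_cons, List.length_nil, h]
  omega

/-- The relation of the states that pass the test. -/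
def Protocol.rel (S : Protocol) (y s : Str) : Prop := S.relB y s = true

theorem Protocol.rel_isNP (S : Protocol) : IsNPRelation S.rel := by
  refine ⟨⟨fun l => [S.relB (l.getD 0 []) (l.getD 1 [])], ?_, ?_⟩, S.prover.size, ?_⟩
  · refine PolyTime.of_pt (PT.cons ?_ (PT.const []))
    exact (PT_relB S).comp (PT.pair (PT.getD PT.id (PT.const 0) (PT.const []))
      (PT.getD PT.id (PT.const 1) (PT.const [])))
  · intro x w
    simp only [List.getD_cons_zero, List.getD_cons_succ, Protocol.rel]
    constructor
    · intro h; rw [h]
    · intro h; simpa using h
  · intro y s h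
    obtain ⟨x, ρ, hy, -, hs, -⟩ := relB_true S h
    rw [hs]
    refine evalMono _ ?_
    rw [hy, length_codeTuple_pair]
    omega

end Pool.Agent.MP_8311ed_lc
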