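import Pool.Agent.MP_8311ed_lc.Bridge

/-!
# The test: many executions of the protocol with fixed coins
-/

set_option autoImplicit false

namespace Pool.Agent.MP_8311ed_lc

open Pool.Agent.Lib.helper60

/-- number of coins of the prover in an execution -/
def Protocol.pBits (S : Protocol) (n : ℕ) : ℕ := S.rounds.eval n * S.prover.coins.eval n

/-- number of coins of an execution -/
def Protocol.runBits (S : Protocol) (n : ℕ) : ℕ := S.pBits n + S.verifier.coins.eval n

/-- half of the number of executions -/
def Protocol.half (S : Protocol) (n : ℕ) : ℕ := 6 * (S.prover.size.eval n + n)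

/-- number of coins of the test -/
def Protocol.testBits (S : Protocol) (n : ℕ) : ℕ := 2 * S.half n * S.runBits n

/-- Does the verifier accept in the execution with initial state `s` and coins `ρ`? -/
def Protocol.accB (S : Protocol) (x s ρ : Str) : Bool :=
  decide (S.verifier.verdict (x :: ρ.drop (S.pBits x.length) ::
    (interact S.prover S.verifier x s (ρ.take (S.pBits x.length)) (ρ.drop (S.pBits x.length))
      (S.rounds.eval x.length)).2) = [true])

/-- Does the verifier accept in at least half of the executions? -/
def Protocol.test (S : Protocol) (x s ρ : Str) : Bool :=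
  decide (S.half x.length ≤ ((List.range (2 * S.half x.length)).filter fun i =>
    S.accB x s (block (S.runBits x.length) i ρ)).length)

/-! ### polynomial-time building blocks -/

section

variable {α : Type} [DEnc α]

lemma PT_evalLen (P : Polynomial ℕ) {x : α → Str} (hx : PT x) :
    PT (fun a => P.eval (x a).length) :=
  MP_92db0f_lc.PT_peval P (PT.length hx)

lemma PB_evalLen (P : Polynomial ℕ) {x : α → Str} (hx : PT x) :
    PB (fun a => P.eval (x a).length) :=
  (PT_evalLen P hx).size.of_le fun a => by
    simp only [tsize_nat]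
    omega

lemma PT_reg {k : α → ℕ} {s : α → Str} (hk : PT k) (hs : PT s) : PT (fun a => reg (k a) (s a)) :=
  PT_take hk (PT.append hs (PT.replicate hk (PT.const false)))

lemma PT_block {k i : α → ℕ} {r : α → Str} (hk : PT k) (hi : PT i) (hr : PT r) :
    PT (fun a => block (k a) (i a) (r a)) :=
  PT_take hk (PT.drop (PT.nmul hi hk) hr)

lemma PT_step (P : Prover) {x c s m : α → Str} (hx : PT x) (hc : PT c) (hs : PT s) (hm : PT m) :
    PT (fun a => P.step (x a) (c a) (s a) (m a)) := by
  have hl : PT (fun a => [x a, s a, c a, (m a).take (P.len.eval (x a).length)]) :=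
    PT.cons hx (PT.cons hs (PT.cons hc (PT.cons (PT_take (PT_evalLen P.len hx) hm)
      (PT.const []))))
  exact PT.pair (PT_reg (PT_evalLen P.size hx) (P.next_poly.pt.comp hl))
    (PT_take (PT_evalLen P.len hx) (P.reply_poly.pt.comp hl))

lemma tsize_str_le (s : Str) : tsize s ≤ s.length * 4 + 1 :=
  tsize_le_of_forall fun b _ => tsize_bool_le b

lemma length_reg (k : ℕ) (s : Str) : (reg k s).length = k := by
  simp [reg]

end

/-! ### the interaction is a polynomially bounded iteration -/

/-- one round: environment `(x, rP, rV)`, number of the round, state, replies -/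
def iStep (P : Prover) (V : Verifier) (y : (Str × Str × Str) × ℕ × Str × List Str) :
    (Str × Str × Str) × ℕ × Str × List Str :=
  (y.1, y.2.1 + 1,
    (P.step y.1.1 (block (P.coins.eval y.1.1.length) y.2.1 y.1.2.1) y.2.2.1
      (V.msg (y.1.1 :: y.1.2.2 :: y.2.2.2))).1,
    y.2.2.2 ++ [(P.step y.1.1 (block (P.coins.eval y.1.1.length) y.2.1 y.1.2.1) y.2.2.1
      (V.msg (y.1.1 :: y.1.2.2 :: y.2.2.2))).2])

lemma PT_iStep (P : Prover) (V : Verifier) : PT (iStep P V) := by
  have e : PT (fun y : (Str × Str × Str) × ℕ × Str × List Str => y.1) := PT.fst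
  have x : PT (fun y : (Str × Str × Str) × ℕ × Str × List Str => y.1.1) := e.p1
  have rP : PT (fun y : (Str × Str × Str) × ℕ × Str × List Str => y.1.2.1) := e.p2.p1
  have rV : PT (fun y : (Str × Str × Str) × ℕ × Str × List Str => y.1.2.2) := e.p2.p2
  have i : PT (fun y : (Str × Str × Str) × ℕ × Str × List Str => y.2.1) := PT.snd.p1
  have s : PT (fun y : (Str × Str × Str) × ℕ × Str × List Str => y.2.2.1) := PT.snd.p2.p1
  have l : PT (fun y : (Str × Str × Str) × ℕ × Str × List Str => y.2.2.2) := PT.snd.p2.p2
  have hst := PT_step P x (PT_block (PT_evalLen P.coins x) i rP) s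
    (V.msg_poly.pt.comp (PT.cons x (PT.cons rV l)))
  exact PT.pair e (PT.pair (PT.nsucc i) (PT.pair hst.p1
    (PT.append l (PT.cons hst.p2 (PT.const [])))))

lemma iStep_iterate (P : Prover) (V : Verifier) (x s rP rV : Str) (i : ℕ) :
    (iStep P V)^[i] ((x, rP, rV), 0, s, []) = ((x, rP, rV), i, interact P V x s rP rV i) := by
  induction i with
  | zero => rfl
  | succ i ih => rw [Function.iterate_succ_apply', ih]; rfl

lemma interact_state_length (P : Prover) (V : Verifier) (x s rP rV : Str) (i : ℕ) :
    (interact P V x s rP rV i).1.length ≤ s.length + P.size.eval x.length := by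
  cases i with
  | zero => simp [interact]
  | succ i => simp [interact, Prover.step, length_reg]

lemma interact_replies_length (P : Prover) (V : Verifier) (x s rP rV : Str) (i : ℕ) :
    (interact P V x s rP rV i).2.length = i := by
  induction i with
  | zero => simp [interact]
  | succ i ih => simp [interact, ih]

lemma interact_reply_length (P : Prover) (V : Verifier) (x s rP rV : Str) (i : ℕ) :
    ∀ a ∈ (interact P V x s rP rV i).2, a.length ≤ P.len.eval x.length := by
  induction i with
  | zero => simp [interact]
  | succ i ih =>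
    intro a ha
    simp only [interact, List.mem_append, List.mem_singleton] at ha
    rcases ha with ha | rfl
    · exact ih a ha
    · simp [Prover.step]

lemma interact_tsize (P : Prover) (V : Verifier) (x s rP rV : Str) (i k : ℕ) (hik : i ≤ k) :
    tsize (interact P V x s rP rV i) ≤
      ((s.length + P.size.eval x.length) * 4 + 1) +
        (k * (P.len.eval x.length * 4 + 1 + 1) + 1) + 1 := by
  have h1 := tsize_str_le (interact P V x s rP rV i).1
  have h2 := interact_state_length P V x s rP rV i
  have h3 : tsize (interact P V x s rP rV i).2 ≤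
      (interact P V x s rP rV i).2.length * (P.len.eval x.length * 4 + 1 + 1) + 1 := by
    refine tsize_le_of_forall fun a ha => ?_
    have h4 := tsize_str_le a
    have h5 := interact_reply_length P V x s rP rV i a ha
    omega
  rw [interact_replies_length] at h3
  have h6 : i * (P.len.eval x.length * 4 + 1 + 1) ≤ k * (P.len.eval x.length * 4 + 1 + 1) :=
    Nat.mul_le_mul_right _ hik
  have h7 : tsize (interact P V x s rP rV i) =
      tsize (interact P V x s rP rV i).1 + tsize (interact P V x s rP rV i).2 + 1 :=
    tsize_pair _ _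
  omega

lemma PT_interact (P : Prover) (V : Verifier) {α : Type} [DEnc α] {x s rP rV : α → Str}
    {k : α → ℕ} (hx : PT x) (hs : PT s) (hrP : PT rP) (hrV : PT rV) (hk : PT k) :
    PT (fun a => interact P V (x a) (s a) (rP a) (rV a) (k a)) := by
  have hinit : PT (fun a => (((x a, rP a, rV a), 0, s a, []) :
      (Str × Str × Str) × ℕ × Str × List Str)) :=
    PT.pair (PT.pair hx (PT.pair hrP hrV)) (PT.pair (PT.const 0) (PT.pair hs (PT.const [])))
  have hkB : PB k := hk.size.of_le fun a => by
    simp only [tsize_nat]
    omega
  have hsB : PB (fun a => (s a).length) := hs.size.of_le fun a => (length_lt_tsize _).le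
  have h := PT.iterateNat (count := k) hk hinit (PT_iStep P V)
    ⟨fun a => tsize (x a, rP a, rV a) + ((2 * k a + 1) +
      ((((s a).length + P.size.eval (x a).length) * 4 + 1) +
        (k a * (P.len.eval (x a).length * 4 + 1 + 1) + 1) + 1) + 1) + 1, ?_, ?_⟩
  · refine h.p2.p2.congr fun a => ?_
    rw [iStep_iterate]
  · refine ((PT.pair hx (PT.pair hrP hrV)).size.add ((((PB.const 2).mul hkB).add
      (PB.const 1)).add ((((((hsB.add (PB_evalLen P.size hx)).mul (PB.const 4)).add
      (PB.const 1)).add ((hkB.mul ((((PB_evalLen P.len hx).mul (PB.const 4)).add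
      (PB.const 1)).add (PB.const 1))).add (PB.const 1))).add (PB.const 1))) |>.add
      (PB.const 1))).add (PB.const 1)
  · intro a i hi
    rw [iStep_iterate]
    have h1 := interact_tsize P V (x a) (s a) (rP a) (rV a) i (k a) hi
    have h2 : tsize (((x a, rP a, rV a), i, interact P V (x a) (s a) (rP a) (rV a) i) :
        (Str × Str × Str) × ℕ × Str × List Str) =
        tsize (x a, rP a, rV a) + ((2 * i + 1) +
          tsize (interact P V (x a) (s a) (rP a) (rV a) i) + 1) + 1 := by
      rw [← tsize_nat i, ← tsize_pair, ← tsize_pair]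
    rw [h2]
    beta_reduce
    omega

theorem PT_accB (S : Protocol) : PT (fun a : Str × Str × Str => S.accB a.1 a.2.1 a.2.2) := by
  have x : PT (fun a : Str × Str × Str => a.1) := PT.fst
  have s : PT (fun a : Str × Str × Str => a.2.1) := PT.snd.p1
  have ρ : PT (fun a : Str × Str × Str => a.2.2) := PT.snd.p2
  have hk := PT_evalLen S.rounds x
  have hb : PT (fun a : Str × Str × Str => S.pBits a.1.length) :=
    PT.nmul hk (PT_evalLen S.prover.coins x)
  have hrP : PT (fun a : Str × Str × Str => a.2.2.take (S.pBits a.1.length)) := PT_take hb ρ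
  have hrV : PT (fun a : Str × Str × Str => a.2.2.drop (S.pBits a.1.length)) := PT.drop hb ρ
  have hi := PT_interact S.prover S.verifier x s hrP hrV hk
  exact PT_streq (S.verifier.verdict_poly.pt.comp (PT.cons x (PT.cons hrV hi.p2)))
    (PT.const [true])

theorem PT_test (S : Protocol) : PT (fun a : Str × Str × Str => S.test a.1 a.2.1 a.2.2) := by
  have x : PT (fun a : Str × Str × Str => a.1) := PT.fst
  have s : PT (fun a : Str × Str × Str => a.2.1) := PT.snd.p1
  have ρ : PT (fun a : Str × Str × Str => a.2.2) := PT.snd.p2
  have hh : PT (fun a : Str × Str × Str => S.half a.1.length) :=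
    PT.nmul (PT.const 6) (PT.nadd (PT_evalLen S.prover.size x) (PT.length x))
  have hr : PT (fun a : Str × Str × Str => S.runBits a.1.length) :=
    PT.nadd (PT.nmul (PT_evalLen S.rounds x) (PT_evalLen S.prover.coins x))
      (PT_evalLen S.verifier.coins x)
  have hp : PT (fun b : (Str × Str × Str) × ℕ =>
      S.accB b.1.1 b.1.2.1 (block (S.runBits b.1.1.length) b.2 b.1.2.2)) :=
    (PT_accB S).comp (PT.pair (PT.fst.p1) (PT.pair (PT.fst.p2.p1)
      (PT_block (hr.comp PT.fst) PT.snd (PT.fst.p2.p2))))
  exact PT.nle hh (PT.length (PT.filter (PT.range (PT.nmul (PT.const 2) hh)) hp))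

end Pool.Agent.MP_8311ed_lc
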